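import Pool.Agent.Helper94.AS.Field

/-!
# Elements of small degree of the function field lie in `k(X)`
-/

set_option autoImplicit false
set_option linter.unusedSectionVars false

open Polynomial

namespace Pool.Agent.Helper94.AS

variable {p : ℕ} [hp : Fact p.Prime] {k : Type} [Field k] [CharP k p] (f : k[X])

theorem algMap_poly_inj : Function.Injective (algebraMap k[X] (FF p f)) := by
  intro a b h
  rw [algMap_poly, algMap_poly] at h
  exact IsFractionRing.injective k[X] (RatFunc k) (algMap_inj f h)

/-- An element annihilated by a nonzero polynomial over `k[X]` with coefficients of degree at most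
`p` lies in `k(X)`, provided that `deg f > p^2`. -/
theorem mem_range_of_small [hirr : Fact (Irreducible (asPoly p f))]
    (hdeg : ¬ p ∣ f.natDegree) (hbig : p ^ 2 < f.natDegree) {u : FF p f} {A : k[X][X]}
    (hA0 : A ≠ 0) (hAd : ∀ l, (A.coeff l).natDegree ≤ p) (hA : aeval u A = 0) :
    ∃ r : RatFunc k, algebraMap (RatFunc k) (FF p f) r = u := by
  classical
  have hp1 : 1 < p := hp.out.one_lt
  set r := A.natDegree with hr
  set a := A.leadingCoeff with ha
  have ha0 : a ≠ 0 := leadingCoeff_ne_zero.2 hA0
  have haF : algebraMap k[X] (FF p f) a ≠ 0 := by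
    rw [Ne, map_eq_zero_iff _ (algMap_poly_inj f)]
    exact ha0
  have hr1 : 1 ≤ r := by
    by_contra hr0
    have h0 : A.natDegree = 0 := by omega
    obtain ⟨c, hc⟩ := natDegree_eq_zero.1 h0
    rw [← hc, aeval_C, map_eq_zero_iff _ (algMap_poly_inj f)] at hA
    apply hA0
    rw [← hc, hA, C_0]
  set w : FF p f := algebraMap k[X] (FF p f) a * u with hw
  have hu : u = w / algebraMap k[X] (FF p f) a := by
    rw [hw, mul_div_cancel_left₀ _ haF]
  have hwint : IsIntegral k[X] w := by
    have := isIntegral_leadingCoeff_smul A u hA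
    rwa [Algebra.smul_def] at this
  -- the relation
  have hrel : w ^ r = -∑ i ∈ Finset.range r,
      algebraMap k[X] (FF p f) (A.coeff i * a ^ (r - 1 - i)) * w ^ i := by
    have h1 := hA
    rw [aeval_eq_sum_range, Finset.sum_range_succ] at h1
    have h2 : algebraMap k[X] (FF p f) a ^ (r - 1) * (∑ i ∈ Finset.range A.natDegree,
        A.coeff i • u ^ i + A.coeff A.natDegree • u ^ A.natDegree) = 0 := by rw [h1, mul_zero]
    rw [mul_add, Finset.mul_sum, ← hr] at h2
    have h3 : algebraMap k[X] (FF p f) a ^ (r - 1) * (A.coeff r • u ^ r) = w ^ r := by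
      have : A.coeff r = a := rfl
      rw [this, Algebra.smul_def, ← mul_assoc, ← pow_succ, Nat.sub_add_cancel hr1, hw, mul_pow]
    rw [h3] at h2
    rw [eq_neg_iff_add_eq_zero, add_comm, ← h2]
    congr 1
    refine Finset.sum_congr rfl fun i hi => ?_
    have hi' := Finset.mem_range.1 hi
    have h4 : r - 1 = (r - 1 - i) + i := by omega
    rw [Algebra.smul_def, map_mul, map_pow, hw, mul_pow]
    conv_rhs => rw [h4, pow_add]
    ring
  obtain ⟨C0, hC0d, hC0⟩ := exists_ev_of_integral f hwint
  by_cases hC00 : C0 = 0
  · refine ⟨0, ?_⟩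
    rw [hu, ← hC0, hC00]
    simp
  obtain ⟨D, hD⟩ := exists_exact (p := p) f.natDegree hC00
  have hDle : D ≤ p ^ 2 := by
    by_contra hlt
    push Not at hlt
    set q := p ^ (r + 1) with hq
    have hrq : r ≤ q := by
      have : r + 1 < p ^ (r + 1) := Nat.lt_pow_self hp1
      omega
    obtain ⟨B, hBd, hBdvd, hBw, hB0, hBdeg⟩ := exists_pow_rep f hdeg hD hC0d r
    rw [← hq] at hBdvd hBw hBdeg
    have hBev : aeval (WW f : FF p f) B = w ^ q := by
      rw [← ev_eq_of_dvd f hBdvd, map_pow, hC0]
    set E : k[X][X] := -∑ i ∈ Finset.range r,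
      C (A.coeff i * a ^ (r - 1 - i)) * C0 ^ (i + (q - r)) with hE
    have hEev : aeval (WW f : FF p f) E = w ^ q := by
      have h1 : w ^ q = w ^ r * w ^ (q - r) := by
        rw [← pow_add]; congr 1; omega
      rw [h1, hrel, hE, map_neg, map_sum, neg_mul, Finset.sum_mul]
      congr 1
      refine Finset.sum_congr rfl fun i _ => ?_
      rw [map_mul, aeval_C, map_pow, hC0, pow_add]
      ring
    have hEw : Wt p f.natDegree (q * D - 1) E := by
      refine (Wt.sum _ _ fun i hi => ?_).neg
      have hi' := Finset.mem_range.1 hi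
      have hb : (A.coeff i * a ^ (r - 1 - i)).natDegree ≤ p * (r - i) := by
        calc _ ≤ (A.coeff i).natDegree + (a ^ (r - 1 - i)).natDegree := natDegree_mul_le
          _ ≤ p + (r - 1 - i) * p := by
              refine Nat.add_le_add (hAd i) (natDegree_pow_le.trans (Nat.mul_le_mul_left _ (hAd r)))
          _ = p * ((r - 1 - i) + 1) := by ring
          _ = p * (r - i) := by congr 1; omega
      have h1 : Wt p f.natDegree (p * (p * (r - i)))
          (C (A.coeff i * a ^ (r - 1 - i)) : k[X][X]) := Wt.C (Nat.mul_le_mul_left _ hb)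
      refine (h1.mul (hD.1.pow (i + (q - r)))).mono ?_
      -- arithmetic
      obtain ⟨s, hs⟩ : ∃ s, r = i + s := ⟨r - i, by omega⟩
      have hs1 : 1 ≤ s := by omega
      have e1 : r - i = s := by omega
      have e2 : i + (q - r) = q - s := by omega
      have hsq : s ≤ q := by omega
      rw [e1, e2]
      have e3 : q * D = (q - s) * D + s * D := by
        rw [← add_mul, Nat.sub_add_cancel hsq]
      have e4 : p * (p * s) + 1 ≤ s * D := by
        have : p ^ 2 + 1 ≤ D := hlt
        calc p * (p * s) + 1 ≤ p * (p * s) + s := by omega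
          _ = s * (p ^ 2 + 1) := by ring
          _ ≤ s * D := Nat.mul_le_mul_left _ this
      omega
    obtain ⟨E', hE'w, hE'd, hE'dvd⟩ := exists_reduced f (q * D - 1) (E.natDegree + 1) E
      (by omega) hEw
    have hE'ev : aeval (WW f : FF p f) E' = w ^ q := by
      rw [← ev_eq_of_dvd f hE'dvd, hEev]
    have hBE : B - E' = 0 := by
      apply ev_injOn (p := p) f
      · exact lt_of_le_of_lt (natDegree_sub_le _ _) (max_lt hBd hE'd)
      · rw [map_sub, hBev, hE'ev, sub_self]
    have hBE' : B = E' := sub_eq_zero.1 hBE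
    have hlast := hE'w 0 (B.coeff 0).natDegree (by
      rw [← hBE', coeff_natDegree]
      exact leadingCoeff_ne_zero.2 hB0)
    rw [hBdeg] at hlast
    have hqD : 0 < q * D := by
      have : 0 < q := by rw [hq]; exact pow_pos hp.out.pos _
      have : 0 < D := by omega
      positivity
    omega
  have hC0nd : C0.natDegree = 0 := by
    by_contra hne
    have h1 := hD.1 C0.natDegree (C0.coeff C0.natDegree).natDegree (by
      rw [coeff_natDegree, coeff_natDegree]
      exact leadingCoeff_ne_zero.2 (leadingCoeff_ne_zero.2 hC00))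
    have h2 : f.natDegree ≤ C0.natDegree * f.natDegree :=
      Nat.le_mul_of_pos_left _ (Nat.pos_of_ne_zero hne)
    omega
  obtain ⟨c, hc⟩ := natDegree_eq_zero.1 hC0nd
  refine ⟨algebraMap k[X] (RatFunc k) c / algebraMap k[X] (RatFunc k) a, ?_⟩
  rw [map_div₀, ← algMap_poly, ← algMap_poly, hu, ← hC0, ← hc, aeval_C]

/-- the variable -/
noncomputable abbrev xx : FF p f := algebraMap k[X] (FF p f) X

theorem algMap_eq_aeval (a : k[X]) : algebraMap k[X] (FF p f) a = aeval (xx f : FF p f) a := by
  have h : (IsScalarTower.toAlgHom k k[X] (FF p f)) = aeval (xx f : FF p f) := by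
    apply Polynomial.algHom_ext
    simp
  exact DFunLike.congr_fun h a

theorem aevalAeval_eq (u : FF p f) (B : k[X][X]) :
    aevalAeval (xx f : FF p f) u B = aeval u B := by
  induction B using Polynomial.induction_on' with
  | add a b ha hb => rw [map_add, map_add, ha, hb]
  | monomial n a =>
    rw [← C_mul_X_pow_eq_monomial, map_mul, map_pow, aevalAeval_C, aevalAeval_Y, map_mul, map_pow,
      aeval_C, aeval_X, algMap_eq_aeval]

theorem coeff_coeff_swap (B : k[X][X]) (i j : ℕ) :
    ((Bivariate.swap B).coeff i).coeff j = (B.coeff j).coeff i := by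
  induction B using Polynomial.induction_on' with
  | add a b ha hb => rw [map_add, coeff_add, coeff_add, coeff_add, coeff_add, ha, hb]
  | monomial n a =>
    induction a using Polynomial.induction_on' with
    | add a b ha hb =>
      rw [map_add, map_add, coeff_add, coeff_add, coeff_add, coeff_add, ha, hb]
    | monomial m c =>
      rw [Bivariate.swap_monomial_monomial]
      simp only [coeff_monomial]
      split_ifs <;> simp_all [coeff_monomial]

/-- Automorphisms map the variable into `k(X)`. -/
theorem aut_xx [hirr : Fact (Irreducible (asPoly p f))]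
    (hdeg : ¬ p ∣ f.natDegree) (hbig : p ^ 2 < f.natDegree) (σ : FF p f ≃ₐ[k] FF p f) :
    ∃ r : RatFunc k, algebraMap (RatFunc k) (FF p f) r = σ (xx f) := by
  classical
  set y : FF p f := σ.symm (xx f) with hy
  have hfd : FiniteDimensional (RatFunc k) (FF p f) :=
    (AdjoinRoot.powerBasis hirr.out.ne_zero).finite
  have hfin : Module.finrank (RatFunc k) (FF p f) = p := by
    rw [(AdjoinRoot.powerBasis hirr.out.ne_zero).finrank, AdjoinRoot.powerBasis_dim,
      natDegree_asPoly]
  set P := minpoly (RatFunc k) y with hP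
  have hPd : P.natDegree ≤ p := by rw [← hfin]; exact minpoly.natDegree_le y
  have hPint : IsIntegral (RatFunc k) y := Algebra.IsIntegral.isIntegral y
  have hP0 : P ≠ 0 := minpoly.ne_zero hPint
  set B : k[X][X] := IsLocalization.integerNormalization (nonZeroDivisors k[X]) P with hB
  have hBy : aeval y B = 0 := IsLocalization.integerNormalization_aeval_eq_zero _ P
    (minpoly.aeval _ _)
  have hB0 : B ≠ 0 := by
    rw [hB, Ne, IsFractionRing.integerNormalization_eq_zero_iff]
    exact hP0
  have hBd : ∀ i, p < i → B.coeff i = 0 := by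
    intro i hi
    by_contra hne
    have h1 : i ∈ B.support := mem_support_iff.2 hne
    have h2 := IsLocalization.integerNormalization_support (nonZeroDivisors k[X]) P h1
    have h3 := le_natDegree_of_mem_supp _ h2
    omega
  set A := Bivariate.swap B with hA
  have hA0 : A ≠ 0 := by
    rw [hA, Ne, EmbeddingLike.map_eq_zero_iff]
    exact hB0
  refine mem_range_of_small f hdeg hbig hA0 ?_ ?_
  · intro l
    rw [natDegree_le_iff_coeff_eq_zero]
    intro i hi
    rw [hA, coeff_coeff_swap, hBd i hi, coeff_zero]
  · rw [← aevalAeval_eq, hA, Bivariate.aevalAeval_swap]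
    have h1 : σ (aeval y B) = 0 := by rw [hBy, map_zero]
    rw [← aevalAeval_eq] at h1
    have h2 : ((σ : FF p f →ₐ[k] FF p f).comp (aevalAeval (xx f : FF p f) y)) =
        aevalAeval (σ (xx f)) (xx f) := by
      apply Polynomial.algHom_ext'
      · apply Polynomial.algHom_ext
        simp
      · simp [hy]
    rw [← h2]
    exact h1

end Pool.Agent.Helper94.AS
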