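import Pool.Agent.Helper94.AS.Group

/-!
# Module M_C of MP_179273_ag: the Sylow `p`-subgroup of `W^p - W = f` from cocycle data
-/

set_option autoImplicit false

open Polynomial

namespace Pool.Agent.Helper94.AS

theorem sylow_of_data (p : ℕ) [Fact p.Prime] (k : Type) [Field k] [IsAlgClosed k] [CharP k p]
    (G : Type) [Group G] (N : Subgroup G) (f : k[X])
    (hdeg : ¬ p ∣ f.natDegree) (hbig : p ^ 2 < f.natDegree)
    (v : G → k) (P : G → k[X])
    (hv : ∀ g h, v (g * h) = v g + v h) (hvN : ∀ g, v g = 0 ↔ g ∈ N)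
    (hP : ∀ g h, P (g * h) = P g + (P h).comp (X + C (v g)))
    (hPf : ∀ g, P g ^ p - P g = f.comp (X + C (v g)) - f)
    (hN1 : ∃ g ∈ N, P g = 1) (hinj : ∀ g ∈ N, P g = 0 → g = 1)
    (hV : ∀ b : k, (∃ h : k[X], h ^ p - h = f.comp (X + C b) - f) → ∃ g, v g = b) :
    Irreducible (asPoly p f) ∧
    ∃ Q : Sylow p (AdjoinRoot (asPoly p f) ≃ₐ[k] AdjoinRoot (asPoly p f)),
      ∃ e : G ≃* (Q : Subgroup (AdjoinRoot (asPoly p f) ≃ₐ[k] AdjoinRoot (asPoly p f))),
        ∀ g : G, g ∈ N ↔ ∀ r : RatFunc k,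
          (e g).1 (AdjoinRoot.of (asPoly p f) r) = AdjoinRoot.of (asPoly p f) r := by
  have hirr : Irreducible (asPoly p f) := irreducible_asPoly f hdeg
  have : Fact (Irreducible (asPoly p f)) := ⟨hirr⟩
  have hcharK : CharP (RatFunc k) p := charP_of_injective_algebraMap (algebraMap k _).injective p
  refine ⟨hirr, ?_⟩
  set Φ : G →* (FF p f ≃ₐ[k] FF p f) := toAut f v P hv hP hPf with hΦ
  have hv1 : v 1 = 0 := v_one v hv
  have hP1 : P 1 = 0 := P_one v P hv hP
  have hΦx : ∀ g, Φ g (xx f) = algebraMap k[X] (FF p f) (X + C (v g)) := by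
    intro g
    have h1 : Φ g (xx f) = mkHom f (v g) (P g) (hPf g) (algebraMap k[X] (FF p f) X) := rfl
    rw [h1, mkHom_poly, X_comp]
  have hΦW : ∀ g, Φ g (WW f) = WW f + algebraMap k[X] (FF p f) (P g) := by
    intro g
    have h1 : Φ g (WW f) = mkHom f (v g) (P g) (hPf g) (WW f) := rfl
    rw [h1, mkHom_WW]
  have hvx : ∀ g, Φ g (xx f) = xx f → v g = 0 := by
    intro g h
    rw [hΦx] at h
    have h1 := algMap_poly_inj f h
    have h2 : C (v g) = (0 : k[X]) := by linear_combination h1
    exact C_eq_zero.1 h2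
  have hinjΦ : Function.Injective Φ := by
    rw [injective_iff_map_eq_one]
    intro g hg
    have h1 : v g = 0 := hvx g (by rw [hg]; rfl)
    have h2 : P g = 0 := by
      have h3 := hΦW g
      rw [hg] at h3
      have h4 : algebraMap k[X] (FF p f) (P g) = algebraMap k[X] (FF p f) 0 := by
        rw [map_zero]
        have h5 : (1 : FF p f ≃ₐ[k] FF p f) (WW f) = WW f := rfl
        rw [h5] at h3
        linear_combination -h3
      exact algMap_poly_inj f h4
    exact hinj g ((hvN g).1 h1) h2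
  -- powers in `G`
  have hvpow : ∀ (g : G) (n : ℕ), v (g ^ n) = n * v g := by
    intro g n
    induction n with
    | zero => simp [hv1]
    | succ n ih => rw [pow_succ, hv, ih]; push_cast; ring
  have hPpow : ∀ (g : G) (n : ℕ), v g = 0 → P (g ^ n) = n * P g := by
    intro g n hg
    induction n with
    | zero => simp [hP1]
    | succ n ih =>
      rw [pow_succ, hP, ih, hvpow, hg, mul_zero, C_0, add_zero, comp_X]
      push_cast; ring
  have hpG : IsPGroup p G := by
    intro g
    refine ⟨2, ?_⟩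
    have h1 : v (g ^ p) = 0 := by
      rw [hvpow, CharP.cast_eq_zero, zero_mul]
    have h2 : P ((g ^ p) ^ p) = 0 := by
      rw [hPpow _ _ h1, CharP.cast_eq_zero, zero_mul]
    have h3 : v ((g ^ p) ^ p) = 0 := by
      rw [hvpow, h1, mul_zero]
    have h4 := hinj _ ((hvN _).1 h3) h2
    rw [sq, pow_mul]
    exact h4
  have hpQ : IsPGroup p Φ.range := hpG.of_surjective Φ.rangeRestrict Φ.rangeRestrict_surjective
  -- maximality
  have hmax : ∀ σ : FF p f ≃ₐ[k] FF p f, (∃ r : ℕ, σ ^ (p ^ r) = 1) → σ ∈ Φ.range := by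
    rintro σ ⟨r, hr⟩
    obtain ⟨b, h, hx, hW⟩ := aut_unipotent f hdeg hbig σ hr
    have hx' : algebraMap (RatFunc k) (FF p f) (algebraMap k[X] (RatFunc k) (X + C b)) =
        σ (xx f) := by rw [hx, algMap_poly]
    have hrel : h ^ p - h = algebraMap k[X] (RatFunc k) (f.comp (X + C b) - f) := by
      have hchar2 : CharP (FF p f) p := charP_of_injective_algebraMap (algebraMap k _).injective p
      apply algMap_inj f
      have h1 := aut_poly f σ hx' f
      rw [← WW_eq, map_sub, map_pow, hW, add_pow_char] at h1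
      have h2 : aeval (algebraMap k[X] (RatFunc k) (X + C b)) f =
          algebraMap k[X] (RatFunc k) (f.comp (X + C b)) := by
        exact aeval_algHom_apply (IsScalarTower.toAlgHom k k[X] (RatFunc k)) (X + C b) f
      rw [h2] at h1
      have h3 := WW_eq (p := p) f
      rw [algMap_poly] at h3
      rw [map_sub, map_pow, map_sub, map_sub]
      linear_combination h1 - h3
    have hint : IsIntegral k[X] h := by
      refine ⟨bigG p (f.comp (X + C b) - f), bigG_monic _, ?_⟩
      simp only [bigG, eval₂_sub, eval₂_pow, eval₂_X, eval₂_C]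
      rw [hrel, sub_self]
    obtain ⟨h0, hh0⟩ := IsIntegrallyClosed.isIntegral_iff.1 hint
    have hrel0 : h0 ^ p - h0 = f.comp (X + C b) - f := by
      apply inj_K
      rw [map_sub, map_pow, hh0, hrel]
    obtain ⟨g, hg⟩ := hV b ⟨h0, hrel0⟩
    obtain ⟨z, hzN, hz⟩ := hN1
    have hzv : v z = 0 := (hvN z).2 hzN
    have hdiff : (algebraMap k[X] (RatFunc k) (h0 - P g)) ^ p =
        algebraMap k[X] (RatFunc k) (h0 - P g) := by
      rw [← map_pow]
      congr 1
      rw [sub_pow_char]
      have := hPf g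
      rw [hg] at this
      linear_combination hrel0 - this
    obtain ⟨n, hn⟩ := exists_nat_of_pow_eq (p := p) hdiff
    have hn' : (n : k[X]) = h0 - P g := by
      apply inj_K
      rw [map_natCast, hn]
    refine ⟨z ^ n * g, ?_⟩
    have hvg : v (z ^ n * g) = b := by rw [hv, hvpow, hzv, mul_zero, zero_add, hg]
    have hPg : P (z ^ n * g) = h0 := by
      rw [hP, hPpow _ _ hzv, hz, hvpow, hzv, mul_zero, C_0, add_zero, comp_X, mul_one, hn']
      ring
    apply AlgEquiv.coe_toAlgHom_injective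
    apply hom_ext f
    · change Φ (z ^ n * g) (xx f) = σ (xx f)
      rw [hΦx, hvg, hx]
    · change Φ (z ^ n * g) (WW f) = σ (WW f)
      rw [hΦW, hPg, hW, algMap_poly, hh0]
  let Q : Sylow p (FF p f ≃ₐ[k] FF p f) :=
    { toSubgroup := Φ.range
      isPGroup' := hpQ
      is_maximal' := by
        intro R hR hle
        apply le_antisymm _ hle
        intro σ hσ
        apply hmax
        obtain ⟨r, hr⟩ := hR ⟨σ, hσ⟩
        exact ⟨r, by simpa using congrArg Subtype.val hr⟩ }
  refine ⟨Q, MonoidHom.ofInjective hinjΦ, ?_⟩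
  intro g
  have he : ((MonoidHom.ofInjective hinjΦ g : Φ.range) : FF p f ≃ₐ[k] FF p f) = Φ g :=
    MonoidHom.ofInjective_apply hinjΦ
  constructor
  · intro hg r
    have hvg : v g = 0 := (hvN g).2 hg
    change Φ g (algebraMap (RatFunc k) (FF p f) r) = algebraMap (RatFunc k) (FF p f) r
    have h1 : Φ g (algebraMap (RatFunc k) (FF p f) r) =
        mkHom f (v g) (P g) (hPf g) (algebraMap (RatFunc k) (FF p f) r) := rfl
    rw [h1, mkHom_ratFunc]
    congr 1
    obtain ⟨A, B, hB, rfl⟩ := IsFractionRing.div_surjective (A := k[X]) r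
    rw [map_div₀, trK_poly, trK_poly, hvg, C_0, add_zero, comp_X, comp_X]
  · intro h
    rw [← hvN]
    apply hvx
    have h1 := h (algebraMap k[X] (RatFunc k) X)
    exact h1

end Pool.Agent.Helper94.AS
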