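import Mathlib

/-!
# Lifting automorphisms of central extensions (module M_Lift of MP_179273_ag)
-/

set_option autoImplicit false

namespace Pool.Agent.Helper94.AS

theorem exists_lift (p : ℕ) [Fact p.Prime] (G : Type) [Group G] [Finite G]
    (V : Type) [AddCommGroup V] (hpV : ∀ v : V, p • v = 0)
    (π : G → V) (hπ : ∀ g h, π (g * h) = π g + π h) (hsurj : Function.Surjective π)
    (_hcent : ∀ z g, π z = 0 → z * g = g * z) (_hpz : ∀ z, π z = 0 → z ^ p = 1)
    (φ' : V ≃+ V)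
    (hcomm : ∀ g h g' h', π g' = φ' (π g) → π h' = φ' (π h) →
      g' * h' * g'⁻¹ * h'⁻¹ = g * h * g⁻¹ * h⁻¹)
    (hpow : ∀ g g', π g' = φ' (π g) → g' ^ p = g ^ p) :
    ∃ φ : G ≃* G, (∀ g, π (φ g) = φ' (π g)) ∧ ∀ z, π z = 0 → φ z = z := by
  classical
  have hp : p.Prime := Fact.out
  have hπ1 : π 1 = 0 := by
    have := hπ 1 1
    rw [mul_one] at this
    simpa using this
  have hπinv : ∀ g, π g⁻¹ = -π g := by
    intro g
    have := hπ g g⁻¹
    rw [mul_inv_cancel, hπ1] at this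
    exact (neg_eq_of_add_eq_zero_right this.symm).symm
  have hπpow : ∀ g (n : ℕ), π (g ^ n) = n • π g := by
    intro g n
    induction n with
    | zero => simp [hπ1]
    | succ n ih => rw [pow_succ, hπ, ih, succ_nsmul]
  -- the fibre product and the diagonal
  let H : Subgroup (G × G) :=
    { carrier := {x | π x.2 = φ' (π x.1)}
      one_mem' := by simp [hπ1]
      mul_mem' := by
        intro a b ha hb
        change π (a.2 * b.2) = φ' (π (a.1 * b.1))
        have ha' : π a.2 = φ' (π a.1) := ha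
        have hb' : π b.2 = φ' (π b.1) := hb
        rw [hπ, hπ, map_add, ha', hb']
      inv_mem' := by
        intro a ha
        change π (a.2⁻¹) = φ' (π (a.1⁻¹))
        have ha' : π a.2 = φ' (π a.1) := ha
        rw [hπinv, hπinv, map_neg, ha'] }
  let D : Subgroup (G × G) :=
    { carrier := {x | x.1 = x.2 ∧ π x.1 = 0}
      one_mem' := by simp [hπ1]
      mul_mem' := by
        rintro a b ⟨ha1, ha2⟩ ⟨hb1, hb2⟩
        refine ⟨?_, ?_⟩
        · change a.1 * b.1 = a.2 * b.2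
          rw [ha1, hb1]
        · change π (a.1 * b.1) = 0
          rw [hπ, ha2, hb2, add_zero]
      inv_mem' := by
        rintro a ⟨ha1, ha2⟩
        refine ⟨?_, ?_⟩
        · change a.1⁻¹ = a.2⁻¹
          rw [ha1]
        · change π (a.1⁻¹) = 0
          rw [hπinv, ha2, neg_zero] }
  have hHmem : ∀ x : G × G, x ∈ H ↔ π x.2 = φ' (π x.1) := fun x => Iff.rfl
  have hDmem : ∀ x : G × G, x ∈ D ↔ x.1 = x.2 ∧ π x.1 = 0 := fun x => Iff.rfl
  have hDH : D ≤ H := by
    intro x hx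
    rw [hDmem] at hx
    rw [hHmem, ← hx.1, hx.2, map_zero]
  have hcommD : ∀ x ∈ H, ∀ y ∈ H, x * y * x⁻¹ * y⁻¹ ∈ D := by
    intro x hx y hy
    rw [hDmem]
    refine ⟨?_, ?_⟩
    · exact (hcomm x.1 y.1 x.2 y.2 hx hy).symm
    · change π (x.1 * y.1 * x.1⁻¹ * y.1⁻¹) = 0
      rw [hπ, hπ, hπ, hπinv, hπinv]
      abel
  have hpowD : ∀ x ∈ H, x ^ p ∈ D := by
    intro x hx
    rw [hDmem]
    refine ⟨?_, ?_⟩
    · exact (hpow x.1 x.2 hx).symm
    · change π (x.1 ^ p) = 0
      rw [hπpow, hpV]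
  -- a maximal subgroup meeting `1 × G` trivially
  let S : Set (Subgroup (G × G)) := {L | D ≤ L ∧ L ≤ H ∧ ∀ z : G, ((1 : G), z) ∈ L → z = 1}
  have hDS : D ∈ S := by
    refine ⟨le_rfl, hDH, ?_⟩
    intro z hz
    rw [hDmem] at hz
    exact hz.1.symm
  obtain ⟨L, hLS, hLmax⟩ := (Set.toFinite S).exists_maximal ⟨D, hDS⟩
  obtain ⟨hDL, hLH, hL1⟩ := hLS
  have hconj : ∀ x ∈ H, ∀ y ∈ L, x * y * x⁻¹ ∈ L := by
    intro x hx y hy
    have h1 := hDL (hcommD x hx y (hLH hy))
    have h2 := L.mul_mem h1 hy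
    simpa using h2
  have hfull : ∀ g : G, ∃ g' : G, (g, g') ∈ L := by
    by_contra hcon
    push Not at hcon
    obtain ⟨g, hg⟩ := hcon
    obtain ⟨g', hg'⟩ := hsurj (φ' (π g))
    set x : G × G := (g, g') with hx
    have hxH : x ∈ H := hg'
    let L' : Subgroup (G × G) :=
      { carrier := {y | ∃ i : ℤ, ∃ l ∈ L, y = x ^ i * l}
        one_mem' := ⟨0, 1, L.one_mem, by simp⟩
        mul_mem' := by
          rintro a b ⟨i, l, hl, rfl⟩ ⟨j, l', hl', rfl⟩
          refine ⟨i + j, (x ^ (-j) * l * (x ^ (-j))⁻¹) * l', ?_, ?_⟩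
          · exact L.mul_mem (hconj _ (H.zpow_mem hxH _) _ hl) hl'
          · rw [zpow_add, zpow_neg]
            group
        inv_mem' := by
          rintro a ⟨i, l, hl, rfl⟩
          refine ⟨-i, x ^ i * l⁻¹ * (x ^ i)⁻¹, ?_, ?_⟩
          · exact hconj _ (H.zpow_mem hxH _) _ (L.inv_mem hl)
          · rw [zpow_neg]
            group }
    have hL'mem : ∀ y : G × G, y ∈ L' ↔ ∃ i : ℤ, ∃ l ∈ L, y = x ^ i * l := fun y => Iff.rfl
    have hLL' : L ≤ L' := fun l hl => (hL'mem l).2 ⟨0, l, hl, by simp⟩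
    have hxL' : x ∈ L' := (hL'mem x).2 ⟨1, 1, L.one_mem, by simp⟩
    have hL'S : L' ∈ S := by
      refine ⟨hDL.trans hLL', ?_, ?_⟩
      · intro y hy
        obtain ⟨i, l, hl, rfl⟩ := (hL'mem y).1 hy
        exact H.mul_mem (H.zpow_mem hxH _) (hLH hl)
      · intro z hz
        obtain ⟨i, l, hl, hzl⟩ := (hL'mem _).1 hz
        by_cases hpi : (p : ℤ) ∣ i
        · obtain ⟨c, rfl⟩ := hpi
          apply hL1
          rw [hzl, zpow_mul, zpow_natCast]
          exact L.mul_mem (L.zpow_mem (hDL (hpowD x hxH)) _) hl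
        · exfalso
          -- `g` is in the projection of `L`
          have hcop : IsCoprime (p : ℤ) i :=
            (Prime.coprime_iff_not_dvd (Nat.prime_iff_prime_int.1 hp)).2 hpi
          obtain ⟨a, b, hab⟩ := hcop
          have h1 : x ^ p ∈ L := hDL (hpowD x hxH)
          have h2 : (x ^ p) ^ a * (l⁻¹) ^ b ∈ L := L.mul_mem (L.zpow_mem h1 _)
            (L.zpow_mem (L.inv_mem hl) _)
          have h3 : g ^ i = (l⁻¹).1 := by
            have h4 := congrArg Prod.fst hzl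
            have h5 : (1 : G) = g ^ i * l.1 := h4
            exact eq_inv_of_mul_eq_one_left h5.symm
          have h6 : ((x ^ p) ^ a * (l⁻¹) ^ b).1 = g := by
            change (g ^ p) ^ a * ((l⁻¹).1) ^ b = g
            rw [← h3, ← zpow_natCast, ← zpow_mul, ← zpow_mul, ← zpow_add, mul_comm (p : ℤ) a,
              mul_comm i b, hab, zpow_one]
          apply hg ((x ^ p) ^ a * (l⁻¹) ^ b).2
          have h7 : (g, ((x ^ p) ^ a * (l⁻¹) ^ b).2) = (x ^ p) ^ a * (l⁻¹) ^ b :=
            Prod.ext h6.symm rfl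
          rw [h7]
          exact h2
    have hle := hLmax hL'S hLL'
    exact hg g' (hle hxL')
  have huniq : ∀ g a b : G, (g, a) ∈ L → (g, b) ∈ L → a = b := by
    intro g a b ha hb
    have h1 : ((1 : G), a⁻¹ * b) ∈ L := by
      have := L.mul_mem (L.inv_mem ha) hb
      simpa using this
    exact (inv_mul_eq_one.1 (hL1 _ h1))
  choose φ hφ using hfull
  let Φ : G →* G :=
    { toFun := φ
      map_one' := huniq 1 _ _ (hφ 1) L.one_mem
      map_mul' := fun a b => huniq (a * b) _ _ (hφ _) (L.mul_mem (hφ a) (hφ b)) }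
  have hΦπ : ∀ g, π (Φ g) = φ' (π g) := fun g => hLH (hφ g)
  have hΦz : ∀ z, π z = 0 → Φ z = z := by
    intro z hz
    exact huniq z _ _ (hφ z) (hDL ((hDmem _).2 ⟨rfl, hz⟩))
  have hinj : Function.Injective Φ := by
    rw [injective_iff_map_eq_one]
    intro g hg
    have h1 : φ' (π g) = 0 := by rw [← hΦπ, hg, hπ1]
    have h2 : π g = 0 := by simpa using h1
    rw [← hΦz g h2, hg]
  exact ⟨MulEquiv.ofBijective Φ (Finite.injective_iff_bijective.1 hinj), hΦπ, hΦz⟩

end Pool.Agent.Helper94.AS
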