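import Mathlib

open Set Filter Topology

set_option linter.unusedSectionVars false

namespace Pool.AF

/-! ## AS-7 ARGC: smoothness of a minimiser by the implicit function theorem

`G (a, y) = fderiv of F (a, ·) at y`, a `C^3` function to the dual of `ℝ^n`, vanishes at
`(a, p a)` for `a` near `a₀`. The derivative `H` of `G (a₀, ·)` at `p a₀` is injective: `H w w`
is the second derivative `c ≠ 0` of `F` along the line. So the implicit function theorem applies. -/

theorem argmin_contDiffAt {m n : ℕ} (F : (Fin m → ℝ) × (Fin n → ℝ) → ℝ) (hF : ContDiff ℝ 4 F)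
    (p : (Fin m → ℝ) → (Fin n → ℝ)) (a₀ : Fin m → ℝ) (hp : ContinuousAt p a₀)
    (hmin : ∀ᶠ a in 𝓝 a₀, ∀ y, F (a, p a) ≤ F (a, y))
    (hhess : ∀ w : Fin n → ℝ, w ≠ 0 → ∃ (φ' : ℝ → ℝ) (c : ℝ), c ≠ 0 ∧
      (∀ s, HasDerivAt (fun s : ℝ => F (a₀, p a₀ + s • w)) (φ' s) s) ∧ HasDerivAt φ' c 0) :
    ContDiffAt ℝ 2 p a₀ := by
  classical
  set G : (Fin m → ℝ) × (Fin n → ℝ) → ((Fin n → ℝ) →L[ℝ] ℝ) :=
    fun z => (fderiv ℝ F z).comp (ContinuousLinearMap.inr ℝ (Fin m → ℝ) (Fin n → ℝ)) with hGdef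
  have hFd : Differentiable ℝ F := hF.differentiable (by norm_num)
  have hG : ContDiff ℝ 2 G := by
    have h1 : ContDiff ℝ 2 (fderiv ℝ F) := hF.fderiv_right (m := 2) (by norm_num)
    exact h1.clm_comp contDiff_const
  have hGd : Differentiable ℝ G := hG.differentiable (by norm_num)
  -- derivative in the second variable
  have hpart : ∀ a y, HasFDerivAt (fun y' => F (a, y')) (G (a, y)) y := by
    intro a y
    have h1 : HasFDerivAt F (fderiv ℝ F (a, y)) (a, y) := (hFd (a, y)).hasFDerivAt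
    have h2 : HasFDerivAt (fun y' : Fin n → ℝ => (a, y'))
        (ContinuousLinearMap.inr ℝ (Fin m → ℝ) (Fin n → ℝ)) y := hasFDerivAt_prodMk_right a y
    exact h1.comp y h2
  have hG0 : ∀ᶠ a in 𝓝 a₀, G (a, p a) = 0 := by
    filter_upwards [hmin] with a ha
    have hm : IsLocalMin (fun y' => F (a, y')) (p a) := Filter.Eventually.of_forall ha
    exact hm.hasFDerivAt_eq_zero (hpart a (p a))
  have hGu : G (a₀, p a₀) = 0 := hG0.self_of_nhds
  -- the partial derivative of G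
  set H : (Fin n → ℝ) →L[ℝ] ((Fin n → ℝ) →L[ℝ] ℝ) :=
    (fderiv ℝ G (a₀, p a₀)).comp (ContinuousLinearMap.inr ℝ (Fin m → ℝ) (Fin n → ℝ)) with hHdef
  have hHw : ∀ w : Fin n → ℝ, w ≠ 0 → H w w ≠ 0 := by
    intro w hw
    obtain ⟨φ', c, hc, h1, h2⟩ := hhess w hw
    have hline : ∀ s : ℝ, HasDerivAt (fun s : ℝ => p a₀ + s • w) w s := by
      intro s
      have := ((hasDerivAt_id s).smul_const w).const_add (p a₀)
      simpa using this
    have e1 : φ' = fun s : ℝ => G (a₀, p a₀ + s • w) w := by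
      funext s
      have h3 : HasDerivAt (fun s : ℝ => F (a₀, p a₀ + s • w)) (G (a₀, p a₀ + s • w) w) s :=
        HasFDerivAt.comp_hasDerivAt (l := fun y' => F (a₀, y')) (f := fun s : ℝ => p a₀ + s • w) s
          (hpart a₀ (p a₀ + s • w)) (hline s)
      exact (h1 s).unique h3
    have h4 : HasFDerivAt G (fderiv ℝ G (a₀, p a₀)) (a₀, p a₀) := (hGd _).hasFDerivAt
    have h5 : HasDerivAt (fun s : ℝ => (a₀, p a₀ + s • w)) (0, w) 0 :=
      (hasDerivAt_const 0 a₀).prodMk (hline 0)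
    have h4' : HasFDerivAt G (fderiv ℝ G (a₀, p a₀)) (a₀, p a₀ + (0 : ℝ) • w) := by
      simpa using h4
    have h6 : HasDerivAt (fun s : ℝ => G (a₀, p a₀ + s • w))
        (fderiv ℝ G (a₀, p a₀) (0, w)) 0 :=
      HasFDerivAt.comp_hasDerivAt (l := G) (f := fun s : ℝ => (a₀, p a₀ + s • w)) 0 h4' h5
    have h7 : HasDerivAt (fun s : ℝ => G (a₀, p a₀ + s • w) w)
        (fderiv ℝ G (a₀, p a₀) (0, w) w) 0 := by
      have := h6.clm_apply (hasDerivAt_const (0 : ℝ) w)
      simpa using this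
    rw [e1] at h2
    have h8 : c = fderiv ℝ G (a₀, p a₀) (0, w) w := h2.unique h7
    have h9 : H w w = c := by
      rw [h8]; rfl
    rw [h9]; exact hc
  have hinj : Function.Injective H := by
    intro w v hwv
    by_contra hne
    have hz : w - v ≠ 0 := sub_ne_zero.mpr hne
    apply hHw (w - v) hz
    have h0 : H (w - v) = 0 := by rw [map_sub, hwv, sub_self]
    rw [h0]
    rfl
  have hfin : FiniteDimensional ℝ ((Fin n → ℝ) →L[ℝ] ℝ) :=
    Module.Finite.equiv (LinearMap.toContinuousLinearMap (𝕜 := ℝ) (E := Fin n → ℝ) (F' := ℝ))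
  have hrank : Module.finrank ℝ (Fin n → ℝ) = Module.finrank ℝ ((Fin n → ℝ) →L[ℝ] ℝ) := by
    have e := (LinearMap.toContinuousLinearMap (𝕜 := ℝ) (E := Fin n → ℝ) (F' := ℝ)).finrank_eq
    rw [← e]
    exact (Subspace.dual_finrank_eq (K := ℝ) (V := Fin n → ℝ)).symm
  have hinv : H.IsInvertible := by
    let L : (Fin n → ℝ) ≃ₗ[ℝ] ((Fin n → ℝ) →L[ℝ] ℝ) :=
      LinearEquiv.ofInjectiveOfFinrankEq (H : (Fin n → ℝ) →ₗ[ℝ] ((Fin n → ℝ) →L[ℝ] ℝ)) hinj hrank
    refine ⟨L.toContinuousLinearEquiv, ?_⟩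
    ext w v
    rfl
  have cdf : ContDiffAt ℝ 2 G (a₀, p a₀) := hG.contDiffAt
  have hn : (2 : WithTop ℕ∞) ≠ 0 := by norm_num
  have key := cdf.eventually_apply_eq_iff_implicitFunction hn hinv
  have hcont : Tendsto (fun a => (a, p a)) (𝓝 a₀) (𝓝 (a₀, p a₀)) :=
    (continuousAt_id.prodMk hp)
  have key2 := hcont.eventually key
  have hreg := cdf.contDiffAt_implicitFunction hn hinv
  refine hreg.congr_of_eventuallyEq ?_
  filter_upwards [key2, hG0] with a h1 h2
  have h3 : G (a, p a) = G (a₀, p a₀) := by rw [h2, hGu]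
  exact (h1.mp h3).symm

end Pool.AF
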