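import Pool.Agent.Helper94.AS.Defs

open Set Finset
open scoped Matrix

set_option linter.unusedSectionVars false

namespace Pool.AF

/-! ## AS-2 COER: coercivity

`Y = U diag(y) Uᵀ` with `U` orthogonal and `∑ y = 0`. `trace (A exp (-Y)) ≥ λ trace (exp (-Y))`
since `A - λ` and `exp (-Y)` are positive semidefinite (trace of a product of positive
semidefinite matrices is `≥ 0`); `trace (exp (-Y)) = ∑ e ^ (-y) = ∑ (e ^ (-y) + y) ≥ ∑ |y| / 2`
(for every real `y`: `e ^ (-y) + y ≥ |y| / 2`), and `|Y i j| ≤ ∑ |y|`. -/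

private theorem coer_diag {d : ℕ} (Y : Matrix (Fin d) (Fin d) ℝ) (hY : Yᵀ = Y) :
    ∃ (U : Matrix (Fin d) (Fin d) ℝ) (y : Fin d → ℝ), Uᵀ * U = 1 ∧ U * Uᵀ = 1 ∧
      Y = U * Matrix.diagonal y * Uᵀ := by
  have hH : Y.IsHermitian := by
    rw [Matrix.IsHermitian, Matrix.conjTranspose_eq_transpose_of_trivial, hY]
  refine ⟨(hH.eigenvectorUnitary : Matrix (Fin d) (Fin d) ℝ), hH.eigenvalues, ?_, ?_, ?_⟩
  · have h := Unitary.coe_star_mul_self hH.eigenvectorUnitary
    rwa [Matrix.star_eq_conjTranspose, Matrix.conjTranspose_eq_transpose_of_trivial] at h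
  · have h := Unitary.coe_mul_star_self hH.eigenvectorUnitary
    rwa [Unitary.coe_star, Matrix.star_eq_conjTranspose,
      Matrix.conjTranspose_eq_transpose_of_trivial] at h
  · have h := hH.spectral_theorem
    rw [Unitary.conjStarAlgAut_apply, Matrix.star_eq_conjTranspose,
      Matrix.conjTranspose_eq_transpose_of_trivial] at h
    exact h

private theorem coer_exp {d : ℕ} (U : Matrix (Fin d) (Fin d) ℝ) (y : Fin d → ℝ)
    (h2 : U * Uᵀ = 1) :
    NormedSpace.exp (-(U * Matrix.diagonal y * Uᵀ)) =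
      U * Matrix.diagonal (fun k => Real.exp (-y k)) * Uᵀ := by
  have hinv : U⁻¹ = Uᵀ := Matrix.inv_eq_right_inv h2
  have hu : IsUnit U := by
    rw [Matrix.isUnit_iff_isUnit_det]
    refine IsUnit.of_mul_eq_one (Uᵀ).det ?_
    rw [← Matrix.det_mul, h2, Matrix.det_one]
  have h3 : -(U * Matrix.diagonal y * Uᵀ) = U * Matrix.diagonal (-y) * U⁻¹ := by
    have h4 : Matrix.diagonal (-y) = -Matrix.diagonal y := by
      rw [Matrix.diagonal_neg]
      rfl
    rw [hinv, h4, Matrix.mul_neg, Matrix.neg_mul]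
  rw [h3, Matrix.exp_conj _ _ hu, Matrix.exp_diagonal, hinv]
  congr 3
  funext k
  rw [Pi.coe_exp, ← Real.exp_eq_exp_ℝ]
  rfl

private theorem coer_quad {d : ℕ} (U : Matrix (Fin d) (Fin d) ℝ) (y : Fin d → ℝ)
    (v : Fin d → ℝ) :
    v ⬝ᵥ ((U * Matrix.diagonal y * Uᵀ) *ᵥ v) = ∑ k, y k * (∑ i, U i k * v i) ^ 2 := by
  have h1 : (U * Matrix.diagonal y * Uᵀ) *ᵥ v = U *ᵥ (Matrix.diagonal y *ᵥ (Uᵀ *ᵥ v)) := by
    rw [Matrix.mulVec_mulVec, Matrix.mulVec_mulVec]
  rw [h1, Matrix.dotProduct_mulVec, ← Matrix.mulVec_transpose, dotProduct]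
  refine Finset.sum_congr rfl fun k _ => ?_
  rw [Matrix.mulVec_diagonal]
  have h2 : (Uᵀ *ᵥ v) k = ∑ i, U i k * v i := by
    simp [Matrix.mulVec, dotProduct]
  rw [h2]
  ring

private theorem coer_norm {d : ℕ} (U : Matrix (Fin d) (Fin d) ℝ) (h2 : U * Uᵀ = 1)
    (v : Fin d → ℝ) : v ⬝ᵥ v = ∑ k, (∑ i, U i k * v i) ^ 2 := by
  have h := coer_quad U (fun _ => 1) v
  rw [Matrix.diagonal_one, Matrix.mul_one, h2, Matrix.one_mulVec] at h
  rw [h]
  simp

private theorem coer_real (y : ℝ) : |y| ≤ 2 * (Real.exp (-y) + y) := by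
  rcases le_total 0 y with h | h
  · rw [abs_of_nonneg h]
    have := Real.exp_pos (-y)
    linarith
  · rw [abs_of_nonpos h]
    have h1 := Real.quadratic_le_exp_of_nonneg (x := -y) (by linarith)
    nlinarith [sq_nonneg (y + 1)]

theorem trace_coer {d : ℕ} (A Y : Matrix (Fin d) (Fin d) ℝ) (lam : ℝ) (hlam : 0 < lam)
    (hA : Aᵀ = A) (hA2 : ∀ v : Fin d → ℝ, lam * (v ⬝ᵥ v) ≤ v ⬝ᵥ (A *ᵥ v))
    (hY : Yᵀ = Y) (hY2 : Y.trace = 0) (i j : Fin d) :
    lam * |Y i j| ≤ 2 * (A * NormedSpace.exp (-Y)).trace := by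
  obtain ⟨U, y, h1, h2, rfl⟩ := coer_diag Y hY
  rw [coer_exp U y h2]
  -- columns
  have hcol : ∀ k, ∑ a, U a k * U a k = 1 := by
    intro k
    have := congrFun (congrFun h1 k) k
    rw [Matrix.mul_apply, Matrix.one_apply_eq] at this
    simpa using this
  have hsum : ∑ k, y k = 0 := by
    rw [Matrix.trace_mul_comm, ← Matrix.mul_assoc, h1, Matrix.one_mul,
      Matrix.trace_diagonal] at hY2
    exact hY2
  have htr : (A * (U * Matrix.diagonal (fun k => Real.exp (-y k)) * Uᵀ)).trace =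
      ∑ k, Real.exp (-y k) * ((fun a => U a k) ⬝ᵥ (A *ᵥ (fun a => U a k))) := by
    rw [← Matrix.mul_assoc, ← Matrix.mul_assoc, Matrix.trace_mul_comm, ← Matrix.mul_assoc,
      Matrix.trace]
    refine Finset.sum_congr rfl fun k _ => ?_
    rw [Matrix.diag_apply, Matrix.mul_diagonal, mul_comm, Matrix.mul_apply, dotProduct]
    congr 1
  have hlow : lam * ∑ k, Real.exp (-y k) ≤
      (A * (U * Matrix.diagonal (fun k => Real.exp (-y k)) * Uᵀ)).trace := by
    rw [htr, Finset.mul_sum]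
    refine Finset.sum_le_sum fun k _ => ?_
    have h3 := hA2 (fun a => U a k)
    have h4 : (fun a => U a k) ⬝ᵥ (fun a => U a k) = 1 := hcol k
    rw [h4, mul_one] at h3
    rw [mul_comm]
    exact mul_le_mul_of_nonneg_left h3 (Real.exp_pos _).le
  have habs : |(U * Matrix.diagonal y * Uᵀ) i j| ≤ ∑ k, |y k| := by
    rw [Matrix.mul_apply]
    refine (Finset.abs_sum_le_sum_abs _ _).trans (Finset.sum_le_sum fun k _ => ?_)
    rw [Matrix.mul_diagonal, Matrix.transpose_apply]
    have hle : ∀ a, |U a k| ≤ 1 := by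
      intro a
      have h5 : U a k * U a k ≤ ∑ b, U b k * U b k :=
        Finset.single_le_sum (f := fun b => U b k * U b k)
          (fun b _ => mul_self_nonneg _) (Finset.mem_univ a)
      rw [hcol k] at h5
      rw [abs_le_one_iff_mul_self_le_one]
      exact h5
    rw [abs_mul, abs_mul]
    calc |U i k| * |y k| * |U j k| ≤ 1 * |y k| * 1 := by
          gcongr
          · exact hle i
          · exact hle j
      _ = |y k| := by ring
  have h6 : ∑ k, |y k| ≤ 2 * ∑ k, Real.exp (-y k) := by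
    calc ∑ k, |y k| ≤ ∑ k, 2 * (Real.exp (-y k) + y k) :=
          Finset.sum_le_sum fun k _ => coer_real (y k)
      _ = 2 * ∑ k, Real.exp (-y k) := by
          rw [← Finset.mul_sum, Finset.sum_add_distrib, hsum, add_zero]
  calc lam * |(U * Matrix.diagonal y * Uᵀ) i j| ≤ lam * (2 * ∑ k, Real.exp (-y k)) := by
        gcongr
        exact habs.trans h6
    _ = 2 * (lam * ∑ k, Real.exp (-y k)) := by ring
    _ ≤ _ := by gcongr

/-- Uniform lower bound near a positive definite matrix. -/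
theorem posDef_lower {d : ℕ} (A₀ : Matrix (Fin d) (Fin d) ℝ) (hA₀ : A₀.PosDef) :
    ∃ lam : ℝ, 0 < lam ∧ ∀ᶠ A in nhds A₀, ∀ v : Fin d → ℝ,
      lam * (v ⬝ᵥ v) ≤ v ⬝ᵥ (A *ᵥ v) := by
  have hsym : A₀ᵀ = A₀ := by
    have := hA₀.isHermitian
    rwa [Matrix.IsHermitian, Matrix.conjTranspose_eq_transpose_of_trivial] at this
  obtain ⟨U, y, h1, h2, hU⟩ := coer_diag A₀ hsym
  have hypos : ∀ k, 0 < y k := by
    intro k
    have hcol : ∀ l, ∑ a, U a l * U a k = if l = k then 1 else 0 := by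
      intro l
      have := congrFun (congrFun h1 l) k
      rw [Matrix.mul_apply, Matrix.one_apply] at this
      simpa using this
    have hne : (fun a => U a k) ≠ 0 := by
      intro h0
      have h3 := hcol k
      have h4 : ∀ a, U a k = 0 := fun a => congrFun h0 a
      simp [h4] at h3
    have h5 := hA₀.dotProduct_mulVec_pos hne
    rw [star_trivial, hU, coer_quad] at h5
    simp only [hcol] at h5
    simpa using h5
  set mu : ℝ := (1 + ∑ k, 1 / y k)⁻¹ with hmu
  have hS : 0 ≤ ∑ k, 1 / y k := Finset.sum_nonneg fun k _ => by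
    have := hypos k
    positivity
  have hmupos : 0 < mu := by rw [hmu]; positivity
  have hmule : ∀ k, mu ≤ y k := by
    intro k
    have h3 : 1 / y k ≤ ∑ k, 1 / y k :=
      Finset.single_le_sum (f := fun k => 1 / y k) (fun k _ => by
        have := hypos k
        positivity) (Finset.mem_univ k)
    rw [hmu, inv_le_comm₀ (by positivity) (hypos k)]
    have h4 : (y k)⁻¹ = 1 / y k := by ring
    rw [h4]
    linarith
  have hA0low : ∀ v : Fin d → ℝ, mu * (v ⬝ᵥ v) ≤ v ⬝ᵥ (A₀ *ᵥ v) := by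
    intro v
    rw [hU, coer_quad, coer_norm U h2, Finset.mul_sum]
    exact Finset.sum_le_sum fun k _ => mul_le_mul_of_nonneg_right (hmule k) (sq_nonneg _)
  refine ⟨mu / 2, by positivity, ?_⟩
  set η : ℝ := mu / (2 * (d + 1)) with hη
  have hηpos : 0 < η := by rw [hη]; positivity
  have hev : ∀ᶠ A : Matrix (Fin d) (Fin d) ℝ in nhds A₀, ∀ i j, |A i j - A₀ i j| < η := by
    rw [Filter.eventually_all]
    intro i
    rw [Filter.eventually_all]
    intro j
    have hc : Continuous fun A : Matrix (Fin d) (Fin d) ℝ => |A i j - A₀ i j| := by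
      fun_prop
    have h0 : |A₀ i j - A₀ i j| < η := by simpa using hηpos
    exact hc.continuousAt.eventually (gt_mem_nhds h0)
  filter_upwards [hev] with A hA v
  have h3 : v ⬝ᵥ (A₀ *ᵥ v) - v ⬝ᵥ (A *ᵥ v) ≤ η * d * (v ⬝ᵥ v) := by
    have h4 : v ⬝ᵥ (A₀ *ᵥ v) - v ⬝ᵥ (A *ᵥ v) = ∑ i, ∑ j, v i * ((A₀ i j - A i j) * v j) := by
      simp only [dotProduct, Matrix.mulVec, Finset.mul_sum]
      rw [← Finset.sum_sub_distrib]
      refine Finset.sum_congr rfl fun i _ => ?_
      rw [← Finset.sum_sub_distrib]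
      refine Finset.sum_congr rfl fun j _ => ?_
      ring
    rw [h4]
    have h5 : ∀ i j, v i * ((A₀ i j - A i j) * v j) ≤ η * ((v i * v i + v j * v j) / 2) := by
      intro i j
      have h6 := hA i j
      rw [abs_lt] at h6
      have h7 : v i * ((A₀ i j - A i j) * v j) ≤ |A₀ i j - A i j| * |v i * v j| := by
        calc v i * ((A₀ i j - A i j) * v j) ≤ |v i * ((A₀ i j - A i j) * v j)| := le_abs_self _
          _ = |A₀ i j - A i j| * |v i * v j| := by
            rw [abs_mul, abs_mul, abs_mul]; ring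
      have h8 : |A₀ i j - A i j| ≤ η := by
        rw [abs_le]
        constructor <;> linarith [h6.1, h6.2]
      have h9 : |v i * v j| ≤ (v i * v i + v j * v j) / 2 := by
        rw [abs_le]
        constructor <;> nlinarith [sq_nonneg (v i - v j), sq_nonneg (v i + v j)]
      calc v i * ((A₀ i j - A i j) * v j) ≤ |A₀ i j - A i j| * |v i * v j| := h7
        _ ≤ η * ((v i * v i + v j * v j) / 2) := by gcongr
    calc ∑ i, ∑ j, v i * ((A₀ i j - A i j) * v j)
        ≤ ∑ i, ∑ j, η * ((v i * v i + v j * v j) / 2) :=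
          Finset.sum_le_sum fun i _ => Finset.sum_le_sum fun j _ => h5 i j
      _ = η * d * (v ⬝ᵥ v) := by
          have e1 : ∀ i, ∑ j, η * ((v i * v i + v j * v j) / 2) =
              η / 2 * (d * (v i * v i) + ∑ j, v j * v j) := by
            intro i
            rw [← Finset.mul_sum, ← Finset.sum_div, Finset.sum_add_distrib, Finset.sum_const,
              Finset.card_univ, Fintype.card_fin, nsmul_eq_mul]
            ring
          simp only [e1]
          rw [← Finset.mul_sum, Finset.sum_add_distrib, ← Finset.mul_sum, Finset.sum_const,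
            Finset.card_univ, Fintype.card_fin, nsmul_eq_mul, dotProduct]
          ring
  have h10 : 0 ≤ v ⬝ᵥ v := Finset.sum_nonneg fun i _ => mul_self_nonneg _
  have h11 : η * d ≤ mu / 2 := by
    rw [hη, div_mul_eq_mul_div, div_le_div_iff₀ (by positivity) (by positivity)]
    nlinarith [hmupos]
  have h12 := hA0low v
  nlinarith [mul_le_mul_of_nonneg_right h11 h10]

end Pool.AF
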