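import Pool.Agent.Helper94.AS.ExpSym

open Set Finset
open scoped Matrix

set_option linter.unusedSectionVars false

namespace Pool.AF

/-! ## AS-9 CONJ: equivariance of the minimiser

For `W ∈ 𝔭` let `N exp W Nᵀ = t⁻¹ exp X`, `X ∈ 𝔭`, so `exp W = t⁻¹ M exp X Mᵀ` and
`exp (-W) = (exp W)⁻¹ = t Nᵀ exp (-X) N` (`Matrix.exp_neg`), hence
`trace (M A Mᵀ exp (-W)) = t trace (A exp (-X))`. So the minimum over `W` is attained exactly when
`X = Y`, i.e. `Y' = W` with `exp Y' = t⁻¹ M exp Y Mᵀ` (use `exp_inj`). -/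

private theorem conj_mul_exp_neg {d : ℕ} (X : Matrix (Fin d) (Fin d) ℝ) :
    NormedSpace.exp X * NormedSpace.exp (-X) = 1 := by
  rw [Matrix.exp_neg]
  exact Matrix.mul_nonsing_inv _ ((Matrix.isUnit_iff_isUnit_det _).1 (Matrix.isUnit_exp X))

private theorem conj_trace {d : ℕ} (M N : Matrix (Fin d) (Fin d) ℝ) (hMN : M * N = 1) (t : ℝ)
    (ht : 0 < t) (A X W : Matrix (Fin d) (Fin d) ℝ)
    (h : N * NormedSpace.exp W * Nᵀ = t⁻¹ • NormedSpace.exp X) :
    (M * A * Mᵀ * NormedSpace.exp (-W)).trace = t * (A * NormedSpace.exp (-X)).trace := by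
  have hNM : N * M = 1 := mul_eq_one_comm.1 hMN
  have hMNt : Mᵀ * Nᵀ = 1 := by rw [← Matrix.transpose_mul, hNM, Matrix.transpose_one]
  have hNMt : Nᵀ * Mᵀ = 1 := by rw [← Matrix.transpose_mul, hMN, Matrix.transpose_one]
  have hinv : NormedSpace.exp W * (t • (Nᵀ * NormedSpace.exp (-X) * N)) = 1 := by
    have h1 : NormedSpace.exp W = t⁻¹ • (M * NormedSpace.exp X * Mᵀ) := by
      calc NormedSpace.exp W = (M * N) * NormedSpace.exp W * (Nᵀ * Mᵀ) := by
            rw [hMN, hNMt, Matrix.one_mul, Matrix.mul_one]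
        _ = M * (N * NormedSpace.exp W * Nᵀ) * Mᵀ := by simp only [Matrix.mul_assoc]
        _ = t⁻¹ • (M * NormedSpace.exp X * Mᵀ) := by
            rw [h, Matrix.mul_smul, Matrix.smul_mul]
    rw [h1, Matrix.smul_mul, Matrix.mul_smul, smul_smul, inv_mul_cancel₀ ht.ne', one_smul]
    calc M * NormedSpace.exp X * Mᵀ * (Nᵀ * NormedSpace.exp (-X) * N)
        = M * (NormedSpace.exp X * ((Mᵀ * Nᵀ) * (NormedSpace.exp (-X) * N))) := by
          simp only [Matrix.mul_assoc]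
      _ = M * ((NormedSpace.exp X * NormedSpace.exp (-X)) * N) := by
          rw [hMNt, Matrix.one_mul, Matrix.mul_assoc]
      _ = 1 := by rw [conj_mul_exp_neg, Matrix.one_mul, hMN]
  have hneg : NormedSpace.exp (-W) = t • (Nᵀ * NormedSpace.exp (-X) * N) := by
    have h2 : NormedSpace.exp (-W) * NormedSpace.exp W = 1 :=
      mul_eq_one_comm.1 (conj_mul_exp_neg W)
    calc NormedSpace.exp (-W)
        = NormedSpace.exp (-W) *
            (NormedSpace.exp W * (t • (Nᵀ * NormedSpace.exp (-X) * N))) := by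
          rw [hinv, Matrix.mul_one]
      _ = t • (Nᵀ * NormedSpace.exp (-X) * N) := by
          rw [← Matrix.mul_assoc, h2, Matrix.one_mul]
  rw [hneg, Matrix.mul_smul, Matrix.trace_smul, smul_eq_mul]
  congr 1
  calc (M * A * Mᵀ * (Nᵀ * NormedSpace.exp (-X) * N)).trace
      = ((M * A * ((Mᵀ * Nᵀ) * NormedSpace.exp (-X))) * N).trace := by
        simp only [Matrix.mul_assoc]
    _ = (N * (M * A * ((Mᵀ * Nᵀ) * NormedSpace.exp (-X)))).trace := Matrix.trace_mul_comm _ _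
    _ = ((N * M) * (A * NormedSpace.exp (-X))).trace := by
        rw [hMNt, Matrix.one_mul]
        simp only [Matrix.mul_assoc]
    _ = (A * NormedSpace.exp (-X)).trace := by rw [hNM, Matrix.one_mul]

theorem argmin_conj {d : ℕ} (𝔭 : Submodule ℝ (Matrix (Fin d) (Fin d) ℝ)) (h𝔭 : GeodSpace 𝔭)
    (M N : Matrix (Fin d) (Fin d) ℝ) (hMN : M * N = 1) (t : ℝ) (ht : 0 < t)
    (hM : MapsExp 𝔭 M t) (hN : MapsExp 𝔭 N t⁻¹) (A Y Y' : Matrix (Fin d) (Fin d) ℝ)
    (hY : IsArgmin 𝔭 A Y) (hY' : IsArgmin 𝔭 (M * A * Mᵀ) Y') :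
    M * NormedSpace.exp Y * Mᵀ = t • NormedSpace.exp Y' := by
  have hNM : N * M = 1 := mul_eq_one_comm.1 hMN
  have hMNt : Mᵀ * Nᵀ = 1 := by rw [← Matrix.transpose_mul, hNM, Matrix.transpose_one]
  obtain ⟨W, hW, hWe⟩ := hM Y hY.1
  have hback : N * NormedSpace.exp W * Nᵀ = t⁻¹ • NormedSpace.exp Y := by
    have h1 : NormedSpace.exp W = t⁻¹ • (M * NormedSpace.exp Y * Mᵀ) := by
      rw [hWe, smul_smul, inv_mul_cancel₀ ht.ne', one_smul]
    rw [h1, Matrix.mul_smul, Matrix.smul_mul]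
    congr 1
    calc N * (M * NormedSpace.exp Y * Mᵀ) * Nᵀ
        = (N * M) * NormedSpace.exp Y * (Mᵀ * Nᵀ) := by simp only [Matrix.mul_assoc]
      _ = NormedSpace.exp Y := by rw [hNM, hMNt, Matrix.one_mul, Matrix.mul_one]
  by_cases hWY : W = Y'
  · rw [hWe, hWY]
  · exfalso
    have h1 := hY'.2 W hW hWY
    obtain ⟨X', hX', hX'e⟩ := hN Y' hY'.1
    rw [conj_trace M N hMN t ht A X' Y' hX'e, conj_trace M N hMN t ht A Y W hback] at h1
    have h2 : (A * NormedSpace.exp (-X')).trace < (A * NormedSpace.exp (-Y)).trace :=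
      lt_of_mul_lt_mul_left h1 ht.le
    by_cases hXY : X' = Y
    · rw [hXY] at h2
      exact lt_irrefl _ h2
    · exact lt_asymm h2 (hY.2 X' hX' hXY)

/-- The factors of inverse matrices are inverse: if `M exp X Mᵀ = t exp W` and
`N exp W Nᵀ = s exp W'` then `exp X = t s exp W' = exp (W' + log (t s) • 1)`, so by `exp_inj` and
the traces `log (t s) = 0`. -/
theorem mapsExp_inv {d : ℕ} (hd : 0 < d) (𝔭 : Submodule ℝ (Matrix (Fin d) (Fin d) ℝ))
    (h𝔭 : GeodSpace 𝔭) (M N : Matrix (Fin d) (Fin d) ℝ) (hMN : M * N = 1) (t s : ℝ) (ht : 0 < t)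
    (hs : 0 < s) (hM : MapsExp 𝔭 M t) (hN : MapsExp 𝔭 N s) : s = t⁻¹ := by
  have hNM : N * M = 1 := mul_eq_one_comm.1 hMN
  have hMNt : Mᵀ * Nᵀ = 1 := by rw [← Matrix.transpose_mul, hNM, Matrix.transpose_one]
  obtain ⟨W, hW, hWe⟩ := hM 0 𝔭.zero_mem
  obtain ⟨W', hW', hWe'⟩ := hN W hW
  have hts : 0 < t * s := mul_pos ht hs
  have h1 : (1 : Matrix (Fin d) (Fin d) ℝ) = (t * s) • NormedSpace.exp W' := by
    calc (1 : Matrix (Fin d) (Fin d) ℝ) = (N * M) * (Mᵀ * Nᵀ) := by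
          rw [hNM, hMNt, Matrix.one_mul]
      _ = N * (M * NormedSpace.exp (0 : Matrix (Fin d) (Fin d) ℝ) * Mᵀ) * Nᵀ := by
          rw [NormedSpace.exp_zero]
          simp only [Matrix.mul_assoc, Matrix.one_mul]
      _ = (t * s) • NormedSpace.exp W' := by
          rw [hWe, Matrix.mul_smul, Matrix.smul_mul, hWe', smul_smul]
  have h2 : NormedSpace.exp W' =
      NormedSpace.exp ((Real.log (t * s)⁻¹) • (1 : Matrix (Fin d) (Fin d) ℝ)) := by
    have h3 : NormedSpace.exp W' = (t * s)⁻¹ • (1 : Matrix (Fin d) (Fin d) ℝ) := by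
      rw [h1, smul_smul, inv_mul_cancel₀ hts.ne', one_smul]
    rw [h3, Matrix.smul_one_eq_diagonal, Matrix.smul_one_eq_diagonal, Matrix.exp_diagonal]
    congr 1
    funext i
    rw [Pi.coe_exp, ← Real.exp_eq_exp_ℝ, Real.exp_log (inv_pos.2 hts)]
  have h4 : W' = (Real.log (t * s)⁻¹) • (1 : Matrix (Fin d) (Fin d) ℝ) := by
    refine exp_inj _ _ (h𝔭.symm W' hW') ?_ h2
    rw [Matrix.transpose_smul, Matrix.transpose_one]
  have h5 := h𝔭.trace W' hW'
  rw [h4, Matrix.trace_smul, Matrix.trace_one, Fintype.card_fin, smul_eq_mul] at h5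
  have hd' : (d : ℝ) ≠ 0 := Nat.cast_ne_zero.2 hd.ne'
  have h6 : Real.log (t * s)⁻¹ = 0 := by
    rcases mul_eq_zero.1 h5 with h | h
    · exact h
    · exact absurd h hd'
  have h7 : (t * s)⁻¹ = 1 := by
    have h8 := Real.exp_log (inv_pos.2 hts)
    rw [h6, Real.exp_zero] at h8
    exact h8.symm
  have h9 : t * s = 1 := inv_eq_one.1 h7
  exact eq_inv_of_mul_eq_one_right h9

end Pool.AF
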