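import Pool.Agent.Helper94.AS.Coer

open Set Finset Filter Topology
open scoped Matrix

set_option linter.unusedSectionVars false

namespace Pool.AF

/-! ## AS-5 CONT: continuity of the minimiser

`posDef_lower` and `trace_coer` bound `P A` for `A` near `A₀` (`trace (A exp (-P A)) ≤ trace A`,
comparing with `0 ∈ 𝔭`). A cluster point `Y` of `P A` as `A → A₀` lies in `𝔭` (closed) and satisfies
`trace (A₀ exp (-Y)) ≤ trace (A₀ exp (-W))` for all `W ∈ 𝔭`, so `Y = P A₀`. By compactness `P A`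
tends to `P A₀`. -/

open scoped Matrix.Norms.Operator in
private theorem continuous_exp_aux (d : ℕ) :
    Continuous (fun X : Matrix (Fin d) (Fin d) ℝ => NormedSpace.exp X) :=
  NormedSpace.exp_continuous

theorem argmin_tendsto {d : ℕ} (𝔭 : Submodule ℝ (Matrix (Fin d) (Fin d) ℝ)) (h𝔭 : GeodSpace 𝔭)
    (P : Matrix (Fin d) (Fin d) ℝ → Matrix (Fin d) (Fin d) ℝ)
    (hP : ∀ A : Matrix (Fin d) (Fin d) ℝ, A.PosDef → IsArgmin 𝔭 A (P A))
    (A₀ : Matrix (Fin d) (Fin d) ℝ) (hA₀ : A₀.PosDef) :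
    Tendsto P (𝓝[{A | A.PosDef}] A₀) (𝓝 (P A₀)) := by
  classical
  obtain ⟨F, hFd, hF⟩ : ∃ F : Matrix (Fin d) (Fin d) ℝ × Matrix (Fin d) (Fin d) ℝ → ℝ,
      (∀ A W, F (A, W) = (A * NormedSpace.exp (-W)).trace) ∧ Continuous F := by
    refine ⟨fun q => (q.1 * NormedSpace.exp (-q.2)).trace, fun A W => rfl, ?_⟩
    have h1 : Continuous (fun q : Matrix (Fin d) (Fin d) ℝ × Matrix (Fin d) (Fin d) ℝ =>
        NormedSpace.exp (-q.2)) := (continuous_exp_aux d).comp continuous_snd.neg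
    exact (continuous_fst.matrix_mul h1).matrix_trace
  -- minimality
  have hmin : ∀ A : Matrix (Fin d) (Fin d) ℝ, A.PosDef → ∀ W ∈ 𝔭,
      (A * NormedSpace.exp (-(P A))).trace ≤ (A * NormedSpace.exp (-W)).trace := by
    intro A hA W hW
    by_cases h : W = P A
    · rw [h]
    · exact ((hP A hA).2 W hW h).le
  obtain ⟨lam, hlam, hlow⟩ := posDef_lower A₀ hA₀
  set C : ℝ := 2 * (A₀.trace + 1) / lam with hC
  -- compact set
  have hK1 : IsCompact {Y : Matrix (Fin d) (Fin d) ℝ | ∀ i j, Y i j ∈ Set.Icc (-C) C} := by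
    have h := isCompact_univ_pi (X := fun _ : Fin d => Fin d → ℝ)
      (s := fun _ => Set.pi Set.univ (fun _ : Fin d => Set.Icc (-C) C))
      (fun _ => isCompact_univ_pi (fun _ => isCompact_Icc))
    have he : {Y : Matrix (Fin d) (Fin d) ℝ | ∀ i j, Y i j ∈ Set.Icc (-C) C} =
        (Set.pi Set.univ (fun _ : Fin d => Set.pi Set.univ (fun _ : Fin d => Set.Icc (-C) C)) :
          Set (Fin d → Fin d → ℝ)) := by
      apply Set.ext
      intro Y
      constructor
      · intro hY i _ j _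
        exact hY i j
      · intro hY i j
        exact hY i (Set.mem_univ i) j (Set.mem_univ j)
    rw [he]
    exact h
  have hcl : IsClosed (𝔭 : Set (Matrix (Fin d) (Fin d) ℝ)) := Submodule.closed_of_finiteDimensional 𝔭
  have hK : IsCompact ({Y : Matrix (Fin d) (Fin d) ℝ | ∀ i j, Y i j ∈ Set.Icc (-C) C} ∩ 𝔭) :=
    hK1.inter_right hcl
  refine hK.tendsto_nhds_of_unique_mapClusterPt ?_ ?_
  · -- eventually in K
    have h1 : ∀ᶠ A in 𝓝[{A | A.PosDef}] A₀, ∀ v : Fin d → ℝ,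
        lam * (v ⬝ᵥ v) ≤ v ⬝ᵥ (A *ᵥ v) := nhdsWithin_le_nhds hlow
    have h2 : ∀ᶠ A in 𝓝[{A : Matrix (Fin d) (Fin d) ℝ | A.PosDef}] A₀,
        A.trace < A₀.trace + 1 := by
      apply nhdsWithin_le_nhds
      have hc : Continuous (fun A : Matrix (Fin d) (Fin d) ℝ => A.trace) :=
        continuous_id.matrix_trace
      exact hc.continuousAt.eventually_lt continuousAt_const (by linarith)
    have h3 : ∀ᶠ A in 𝓝[{A : Matrix (Fin d) (Fin d) ℝ | A.PosDef}] A₀, A.PosDef :=
      self_mem_nhdsWithin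
    filter_upwards [h1, h2, h3] with A hA1 hA2 hA3
    refine ⟨?_, (hP A hA3).1⟩
    intro i j
    have hsym : Aᵀ = A := by
      have := hA3.isHermitian
      rwa [Matrix.IsHermitian, Matrix.conjTranspose_eq_transpose_of_trivial] at this
    have h4 := trace_coer A (P A) lam hlam hsym hA1 (h𝔭.symm _ (hP A hA3).1)
      (h𝔭.trace _ (hP A hA3).1) i j
    have h5 := hmin A hA3 0 𝔭.zero_mem
    rw [neg_zero, NormedSpace.exp_zero, mul_one] at h5
    have h6 : |P A i j| ≤ C := by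
      rw [hC, le_div_iff₀ hlam]
      nlinarith [h4, h5]
    exact Set.mem_Icc.mpr (abs_le.mp h6)
  · intro Y hY hcp
    rw [mapClusterPt_iff_ultrafilter] at hcp
    obtain ⟨U, hU, hUY⟩ := hcp
    have hid : Tendsto (fun A : Matrix (Fin d) (Fin d) ℝ => A) (U : Filter _) (𝓝 A₀) :=
      hU.trans nhdsWithin_le_nhds
    have hpd : ∀ᶠ A in (U : Filter (Matrix (Fin d) (Fin d) ℝ)), A.PosDef :=
      hU self_mem_nhdsWithin
    have hle : ∀ W ∈ 𝔭, (A₀ * NormedSpace.exp (-Y)).trace ≤ (A₀ * NormedSpace.exp (-W)).trace := by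
      intro W hW
      have t1 : Tendsto (fun A : Matrix (Fin d) (Fin d) ℝ => F (A, P A)) (U : Filter _)
          (𝓝 (F (A₀, Y))) :=
        (hF.tendsto (A₀, Y)).comp (hid.prodMk_nhds hUY)
      have t2 : Tendsto (fun A : Matrix (Fin d) (Fin d) ℝ => F (A, W)) (U : Filter _)
          (𝓝 (F (A₀, W))) :=
        (hF.tendsto (A₀, W)).comp (hid.prodMk_nhds tendsto_const_nhds)
      have t3 : F (A₀, Y) ≤ F (A₀, W) := by
        refine le_of_tendsto_of_tendsto t1 t2 (hpd.mono fun A hA => ?_)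
        change F (A, P A) ≤ F (A, W)
        rw [hFd, hFd]
        exact hmin A hA W hW
      rw [hFd, hFd] at t3
      exact t3
    by_contra hne
    have h1 := (hP A₀ hA₀).2 Y hY.2 hne
    have h2 := hle _ (hP A₀ hA₀).1
    linarith

end Pool.AF
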