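import Pool.Agent.Helper94.AG.Defs
import Mathlib.Analysis.Normed.Algebra.MatrixExponential

/-!
# Project AS: linear actions dominated by actions on symmetric spaces

Definitions.
-/

open Set Finset
open scoped Matrix

namespace Pool.AF

/-- `𝔭` is a linear space of symmetric matrices of trace zero such that the exponentials of its
elements form a totally geodesic submanifold of the symmetric space of the positive definite
matrices of determinant one. -/
structure GeodSpace {d : ℕ} (𝔭 : Submodule ℝ (Matrix (Fin d) (Fin d) ℝ)) : Prop where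
  symm : ∀ X ∈ 𝔭, Xᵀ = X
  trace : ∀ X ∈ 𝔭, X.trace = 0
  geod : ∀ X ∈ 𝔭, ∀ Y ∈ 𝔭, ∃ W ∈ 𝔭,
    NormedSpace.exp X * NormedSpace.exp Y * NormedSpace.exp X = NormedSpace.exp W

/-- The matrix `M` maps the positive definite matrices `exp X`, `X ∈ 𝔭`, to such matrices, up to
the factor `t`. -/
def MapsExp {d : ℕ} (𝔭 : Submodule ℝ (Matrix (Fin d) (Fin d) ℝ)) (M : Matrix (Fin d) (Fin d) ℝ)
    (t : ℝ) : Prop :=
  ∀ X ∈ 𝔭, ∃ W ∈ 𝔭, M * NormedSpace.exp X * Mᵀ = t • NormedSpace.exp W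

/-- The representation `σ` preserves the submanifold of the exponentials of the elements of `𝔭`, up
to positive factors. -/
def PreservesExp {G : Type*} [Group G] {d : ℕ}
    (σ : G →* ((Fin d → ℝ) →ₗ[ℝ] (Fin d → ℝ)))
    (𝔭 : Submodule ℝ (Matrix (Fin d) (Fin d) ℝ)) : Prop :=
  ∀ g, ∃ t : ℝ, 0 < t ∧ MapsExp 𝔭 (LinearMap.toMatrix' (σ g)) t

/-- `Y` is the strict minimiser on `𝔭` of `trace (A * exp (-Y))`. -/
def IsArgmin {d : ℕ} (𝔭 : Submodule ℝ (Matrix (Fin d) (Fin d) ℝ))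
    (A Y : Matrix (Fin d) (Fin d) ℝ) : Prop :=
  Y ∈ 𝔭 ∧ ∀ W ∈ 𝔭, W ≠ Y →
    (A * NormedSpace.exp (-Y)).trace < (A * NormedSpace.exp (-W)).trace

/-- The symmetric matrices. -/
def symS (d : ℕ) : Submodule ℝ (Matrix (Fin d) (Fin d) ℝ) where
  carrier := {X | Xᵀ = X}
  add_mem' := by
    intro a b ha hb
    have ha' : aᵀ = a := ha
    have hb' : bᵀ = b := hb
    change (a + b)ᵀ = a + b
    rw [Matrix.transpose_add, ha', hb']
  zero_mem' := by
    change (0 : Matrix (Fin d) (Fin d) ℝ)ᵀ = 0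
    rw [Matrix.transpose_zero]
  smul_mem' := by
    intro c a ha
    have ha' : aᵀ = a := ha
    change (c • a)ᵀ = c • a
    rw [Matrix.transpose_smul, ha']

theorem mem_symS {d : ℕ} {X : Matrix (Fin d) (Fin d) ℝ} : X ∈ symS d ↔ Xᵀ = X := Iff.rfl

/-- The symmetric part of a matrix. -/
noncomputable def toSym (d : ℕ) : Matrix (Fin d) (Fin d) ℝ →ₗ[ℝ] symS d where
  toFun X := ⟨(1 / 2 : ℝ) • (X + Xᵀ), by
    rw [mem_symS, Matrix.transpose_smul, Matrix.transpose_add, Matrix.transpose_transpose,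
      add_comm]⟩
  map_add' X Y := by
    apply Subtype.ext
    change (1 / 2 : ℝ) • (X + Y + (X + Y)ᵀ) =
      (1 / 2 : ℝ) • (X + Xᵀ) + (1 / 2 : ℝ) • (Y + Yᵀ)
    rw [Matrix.transpose_add, ← smul_add]
    congr 1
    abel
  map_smul' c X := by
    apply Subtype.ext
    change (1 / 2 : ℝ) • (c • X + (c • X)ᵀ) = c • ((1 / 2 : ℝ) • (X + Xᵀ))
    rw [Matrix.transpose_smul, ← smul_add, smul_comm]

theorem toSym_coe {d : ℕ} (X : Matrix (Fin d) (Fin d) ℝ) (hX : Xᵀ = X) :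
    ((toSym d X : symS d) : Matrix (Fin d) (Fin d) ℝ) = X := by
  change (1 / 2 : ℝ) • (X + Xᵀ) = X
  rw [hX, ← two_smul ℝ X, smul_smul]
  norm_num

end Pool.AF
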