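import Pool.Agent.Helper94.AS.Defs

open Set Finset
open scoped Matrix

set_option linter.unusedSectionVars false

namespace Pool.AF

/-! ## AS-6 EXPC: smoothness of the entries of the exponential

With a local norm (`open scoped Matrix.Norms.Operator` or similar) `NormedSpace.exp` is analytic on
the Banach algebra of matrices; linear maps between finite-dimensional spaces are smooth. -/

open scoped Matrix.Norms.Operator in
theorem exp_entry_contDiff_aux {d n : ℕ} (L : (Fin n → ℝ) →ₗ[ℝ] Matrix (Fin d) (Fin d) ℝ)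
    (i j : Fin d) : ContDiff ℝ 4 (fun y : Fin n → ℝ => NormedSpace.exp (L y) i j) := by
  have h1 : ContDiff ℝ 4 (NormedSpace.exp : Matrix (Fin d) (Fin d) ℝ → Matrix (Fin d) (Fin d) ℝ) :=
    contDiff_iff_contDiffAt.2 fun x =>
      (NormedSpace.exp_analytic (𝕂 := ℝ) (𝔸 := Matrix (Fin d) (Fin d) ℝ) x).contDiffAt
  have h2 : ContDiff ℝ 4 (fun y : Fin n → ℝ => L y) := by
    have := (LinearMap.toContinuousLinearMap L).contDiff (n := 4)
    exact this
  have h3 : ContDiff ℝ 4 (fun M : Matrix (Fin d) (Fin d) ℝ => M i j) := by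
    have := (LinearMap.toContinuousLinearMap
      (Matrix.entryLinearMap ℝ ℝ i j : Matrix (Fin d) (Fin d) ℝ →ₗ[ℝ] ℝ)).contDiff (n := 4)
    exact this
  exact h3.comp (h1.comp h2)

theorem exp_entry_contDiff {d n : ℕ} (L : (Fin n → ℝ) →ₗ[ℝ] Matrix (Fin d) (Fin d) ℝ)
    (i j : Fin d) : ContDiff ℝ 4 (fun y : Fin n → ℝ => NormedSpace.exp (L y) i j) :=
  exp_entry_contDiff_aux L i j

end Pool.AF
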