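import Pool.Agent.Helper94.AS.Defs

open Set Finset
open scoped Matrix

set_option linter.unusedSectionVars false

namespace Pool.AF

/-! ## AS-1 EXPSYM: exponentials of symmetric matrices

`exp X = exp (X / 2) ^ 2` is positive definite. Injectivity: write `X = U D U⁻¹` and
`Y = V E V⁻¹` with diagonal `D`, `E`; then `exp D * W = W * exp E` for `W = U⁻¹ V`, so `D W = W E`
entry by entry. -/

theorem exp_posDef {d : ℕ} (X : Matrix (Fin d) (Fin d) ℝ) (hX : Xᵀ = X) :
    (NormedSpace.exp X).PosDef := by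
  have h1 : NormedSpace.exp X
      = NormedSpace.exp ((1 / 2 : ℝ) • X) * NormedSpace.exp ((1 / 2 : ℝ) • X) := by
    rw [← Matrix.exp_add_of_commute _ _ (Commute.refl _), ← add_smul]
    norm_num
  have hH : X.IsHermitian := by
    rw [Matrix.IsHermitian, Matrix.conjTranspose_eq_transpose_of_trivial]
    exact hX
  have h2 : ((1 / 2 : ℝ) • X).IsHermitian := by
    rw [Matrix.IsHermitian, Matrix.conjTranspose_eq_transpose_of_trivial, Matrix.transpose_smul, hX]
  have h3 : (NormedSpace.exp ((1 / 2 : ℝ) • X))ᴴ = NormedSpace.exp ((1 / 2 : ℝ) • X) := h2.exp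
  have h4 : NormedSpace.exp X
      = (NormedSpace.exp ((1 / 2 : ℝ) • X))ᴴ * NormedSpace.exp ((1 / 2 : ℝ) • X) := by
    rw [h3]; exact h1
  rw [h4]
  apply Matrix.PosDef.conjTranspose_mul_self
  exact Matrix.mulVec_injective_of_isUnit (Matrix.isUnit_exp _)

/-- A symmetric matrix is conjugate to a diagonal one. -/
theorem exists_diag {d : ℕ} (X : Matrix (Fin d) (Fin d) ℝ) (hX : Xᵀ = X) :
    ∃ (U : Matrix (Fin d) (Fin d) ℝ) (a : Fin d → ℝ), IsUnit U ∧ X = U * Matrix.diagonal a * U⁻¹ := by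
  have hH : X.IsHermitian := by
    rw [Matrix.IsHermitian, Matrix.conjTranspose_eq_transpose_of_trivial]
    exact hX
  have hmem := hH.eigenvectorUnitary.2
  have hu1 : star (hH.eigenvectorUnitary : Matrix (Fin d) (Fin d) ℝ)
      * (hH.eigenvectorUnitary : Matrix (Fin d) (Fin d) ℝ) = 1 := (Unitary.mem_iff.mp hmem).1
  have hu2 : (hH.eigenvectorUnitary : Matrix (Fin d) (Fin d) ℝ)
      * star (hH.eigenvectorUnitary : Matrix (Fin d) (Fin d) ℝ) = 1 := (Unitary.mem_iff.mp hmem).2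
  have hinv : (hH.eigenvectorUnitary : Matrix (Fin d) (Fin d) ℝ)⁻¹
      = star (hH.eigenvectorUnitary : Matrix (Fin d) (Fin d) ℝ) := Matrix.inv_eq_left_inv hu1
  refine ⟨hH.eigenvectorUnitary, hH.eigenvalues, ⟨⟨_, _, hu2, hu1⟩, rfl⟩, ?_⟩
  rw [hinv]
  exact hH.spectral_theorem

theorem exp_inj {d : ℕ} (X Y : Matrix (Fin d) (Fin d) ℝ) (hX : Xᵀ = X) (hY : Yᵀ = Y)
    (h : NormedSpace.exp X = NormedSpace.exp Y) : X = Y := by
  obtain ⟨U, a, hU, rfl⟩ := exists_diag X hX
  obtain ⟨V, b, hV, rfl⟩ := exists_diag Y hY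
  have hUd : IsUnit U.det := (Matrix.isUnit_iff_isUnit_det _).mp hU
  have hVd : IsUnit V.det := (Matrix.isUnit_iff_isUnit_det _).mp hV
  rw [Matrix.exp_conj _ _ hU, Matrix.exp_conj _ _ hV, Matrix.exp_diagonal, Matrix.exp_diagonal] at h
  have key : ∀ p q : Fin d → ℝ, U * Matrix.diagonal p * U⁻¹ = V * Matrix.diagonal q * V⁻¹ ↔
      Matrix.diagonal p * (U⁻¹ * V) = (U⁻¹ * V) * Matrix.diagonal q := by
    intro p q
    constructor
    · intro h1
      calc Matrix.diagonal p * (U⁻¹ * V)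
          = U⁻¹ * U * (Matrix.diagonal p * (U⁻¹ * V)) := by
            rw [Matrix.nonsing_inv_mul _ hUd, Matrix.one_mul]
        _ = U⁻¹ * (U * Matrix.diagonal p * U⁻¹) * V := by simp only [Matrix.mul_assoc]
        _ = U⁻¹ * (V * Matrix.diagonal q * V⁻¹) * V := by rw [h1]
        _ = U⁻¹ * V * Matrix.diagonal q * (V⁻¹ * V) := by simp only [Matrix.mul_assoc]
        _ = U⁻¹ * V * Matrix.diagonal q := by
            rw [Matrix.nonsing_inv_mul _ hVd, Matrix.mul_one]
    · intro h1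
      calc U * Matrix.diagonal p * U⁻¹
          = U * Matrix.diagonal p * U⁻¹ * (V * V⁻¹) := by
            rw [Matrix.mul_nonsing_inv _ hVd, Matrix.mul_one]
        _ = U * (Matrix.diagonal p * (U⁻¹ * V)) * V⁻¹ := by simp only [Matrix.mul_assoc]
        _ = U * ((U⁻¹ * V) * Matrix.diagonal q) * V⁻¹ := by rw [h1]
        _ = (U * U⁻¹) * (V * Matrix.diagonal q * V⁻¹) := by simp only [Matrix.mul_assoc]
        _ = V * Matrix.diagonal q * V⁻¹ := by
            rw [Matrix.mul_nonsing_inv _ hUd, Matrix.one_mul]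
  rw [key] at h ⊢
  ext i j
  have hij := congrFun (congrFun h i) j
  rw [Matrix.diagonal_mul, Matrix.mul_diagonal] at hij ⊢
  rw [Pi.coe_exp, Pi.coe_exp] at hij
  by_cases hW : (U⁻¹ * V) i j = 0
  · rw [hW, mul_zero, zero_mul]
  · rw [mul_comm ((U⁻¹ * V) i j)] at hij
    have h1 := mul_right_cancel₀ hW hij
    rw [← Real.exp_eq_exp_ℝ] at h1
    rw [Real.exp_injective h1, mul_comm]

end Pool.AF
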