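import Pool.Agent.Helper94.AF.Gauge
import Pool.Agent.Helper94.AS.DirN

open Set Finset

set_option linter.unusedSectionVars false

namespace Pool.AF

open Pool.SV

/-! ## AS FAMA: the family of kernels when the recession cone is not the lineality space, with
ranks (copy of AF/FamA.lean)
(uses AF-9a, AF-9b)

Index set `Option (Fin r)`; `some i` is the block `i`, `none` the domain itself:
`a l x (some i) g = (B i).ev g (v i x)`,
`a l x none g = c g * ξ (hatHom D.Γ g⁻¹ (x + (1 + δ) ^ l • e x, 1))`. -/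

section

variable {E : Type*} [NormedAddCommGroup E] [NormedSpace ℝ E] [FiniteDimensional ℝ E]

private theorem deriv_mem_sub (D : Geo E) (S : Submodule ℝ E) (e : E → E)
    (he : ContDiffOn ℝ 2 e D.X) (heS : ∀ x ∈ D.X, e x ∈ S) (x : E) (hx : x ∈ D.X) (u : E) :
    fderiv ℝ e x u ∈ S := by
  by_contra hne
  obtain ⟨f, hf1, hf2⟩ := Submodule.exists_dual_map_eq_bot_of_notMem hne inferInstance
  have hda : DifferentiableAt ℝ e x :=
    (he.differentiableOn (by norm_num)).differentiableAt (D.isOpen.mem_nhds hx)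
  have h1 : HasFDerivAt (fun y => LinearMap.toContinuousLinearMap f (e y))
      ((LinearMap.toContinuousLinearMap f).comp (fderiv ℝ e x)) x :=
    (LinearMap.toContinuousLinearMap f).hasFDerivAt.comp x hda.hasFDerivAt
  have h2 : (fun y => LinearMap.toContinuousLinearMap f (e y)) =ᶠ[nhds x] fun _ => (0 : ℝ) := by
    filter_upwards [D.isOpen.mem_nhds hx] with y hy
    have h3 : f (e y) ∈ S.map f := Submodule.mem_map_of_mem (heS y hy)
    rw [hf2, Submodule.mem_bot] at h3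
    exact h3
  have h4 : HasFDerivAt (fun y => LinearMap.toContinuousLinearMap f (e y))
      (0 : E →L[ℝ] ℝ) x := (hasFDerivAt_const (0 : ℝ) x).congr_of_eventuallyEq h2
  have h5 := h1.unique h4
  apply hf1
  have h6 := congrArg (fun T : E →L[ℝ] ℝ => T u) h5
  exact h6

/-- the functional on vectors -/
private noncomputable def qf (D : Geo E) (ξ : (E × ℝ) →ₗ[ℝ] ℝ) (g : D.Γ) : E →ₗ[ℝ] ℝ :=
  ξ ∘ₗ ((hatHom D.Γ g : Alg E) : (E × ℝ) →ₗ[ℝ] (E × ℝ)) ∘ₗ (LinearMap.inl ℝ E ℝ)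

private theorem qf_apply (D : Geo E) (ξ : (E × ℝ) →ₗ[ℝ] ℝ) (g : D.Γ) (w : E) :
    qf D ξ g w = ξ (hatHom D.Γ g (w, 0)) := rfl

/-- the functional on points -/
private noncomputable def pf (D : Geo E) (ξ : (E × ℝ) →ₗ[ℝ] ℝ) (g : D.Γ) (x : E) : ℝ :=
  ξ (hatHom D.Γ g (x, 1))

private theorem pf_add (D : Geo E) (ξ : (E × ℝ) →ₗ[ℝ] ℝ) (g : D.Γ) (x w : E) :
    pf D ξ g (x + w) = pf D ξ g x + qf D ξ g w := by
  unfold pf
  rw [qf_apply, ← map_add, ← map_add]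
  congr 2
  ext
  · rfl
  · simp

private theorem hat_pt (D : Geo E) (g : D.Γ) (x : E) : hatHom D.Γ g (x, 1) = (g.1 x, 1) := by
  have h : hatHom D.Γ g (x, 1) = (g.1.linear x + (1 : ℝ) • g.1 0, (1 : ℝ)) := rfl
  rw [h, one_smul, ← aff_eq]

private theorem hat_vec (D : Geo E) (g : D.Γ) (w : E) :
    hatHom D.Γ g (w, 0) = (g.1.linear w, 0) := by
  have h : hatHom D.Γ g (w, 0) = (g.1.linear w + (0 : ℝ) • g.1 0, (0 : ℝ)) := rfl
  rw [h, zero_smul, add_zero]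

private theorem hat_inv (D : Geo E) (h g : D.Γ) (z : E × ℝ) :
    hatHom D.Γ (h * g)⁻¹ (hatHom D.Γ h z) = hatHom D.Γ g⁻¹ z := by
  have h1 : hatHom D.Γ (h * g)⁻¹ * hatHom D.Γ h = hatHom D.Γ g⁻¹ := by
    rw [← map_mul]
    congr 1
    group
  rw [← h1]
  rfl

private theorem pf_pos (D : Geo E) (ξ : (E × ℝ) →ₗ[ℝ] ℝ) (hξ : ∀ x ∈ D.X, 0 < ξ (x, 1))
    (g : D.Γ) (x : E) (hx : x ∈ D.X) : 0 < pf D ξ g x := by
  unfold pf
  rw [hat_pt]
  exact hξ _ (D.inv _ g.2 x hx)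

private theorem recInt_sub (D : Geo E) : RecInt D.X ⊆ Rec D.X := by
  rintro u ⟨δ, hδ, h⟩
  have := h 0 (Submodule.zero_mem _) (by rw [norm_zero]; exact hδ.le)
  rwa [add_zero] at this

private theorem lin_inv (D : Geo E) (g : D.Γ) (w : E) (hw : w ∈ Lin D.X) :
    g.1.linear w ∈ Lin D.X := by
  intro x hx t
  have h1 : (g⁻¹ : D.Γ).1 x ∈ D.X := D.inv _ (g⁻¹ : D.Γ).2 x hx
  have h2 := D.inv _ g.2 _ (hw _ h1 t)
  have h3 : g.1 ((g⁻¹ : D.Γ).1 x + t • w) = x + t • g.1.linear w := by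
    rw [aff_eq g.1, map_add, map_smul, add_right_comm, ← aff_eq]
    congr 1
    have h4 : g.1 ((g⁻¹ : D.Γ).1 x) = ((g * g⁻¹ : D.Γ).1) x := rfl
    rw [h4, mul_inv_cancel]
    rfl
  rwa [h3] at h2

private theorem evv_sub {G : Type*} [Group G] (B : Blk G) (g : G) (v w : Fin B.d → ℝ) :
    B.ev g (v - w) = B.ev g v - B.ev g w := by
  unfold Blk.ev
  rw [map_sub, map_sub]

private theorem evv_smul {G : Type*} [Group G] (B : Blk G) (g : G) (c : ℝ) (v : Fin B.d → ℝ) :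
    B.ev g (c • v) = c * B.ev g v := by
  unfold Blk.ev
  rw [map_smul, map_smul, smul_eq_mul]

/-- the family -/
private noncomputable def aa (D : Geo E) {r : ℕ} (B : Fin r → Blk D.Γ)
    (v : ∀ i, E → (Fin (B i).d → ℝ)) (e : E → E) (c : D.Γ → ℝ) (ξ : (E × ℝ) →ₗ[ℝ] ℝ) (δ : ℝ)
    (l : ℕ) (x : E) : Option (Fin r) → D.Γ → ℝ
  | none, g => c g * (pf D ξ g⁻¹ x + (1 + δ) ^ l * qf D ξ g⁻¹ (e x))
  | some i, g => (B i).ev g (v i x)

/-- the derivative of the family -/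
private noncomputable def aa' (D : Geo E) {r : ℕ} (B : Fin r → Blk D.Γ)
    (v : ∀ i, E → (Fin (B i).d → ℝ)) (e : E → E) (c : D.Γ → ℝ) (ξ : (E × ℝ) →ₗ[ℝ] ℝ) (δ : ℝ)
    (l : ℕ) (x : E) : Option (Fin r) → D.Γ → (E →ₗ[ℝ] ℝ)
  | none, g => c g • (qf D ξ g⁻¹ + (1 + δ) ^ l • (qf D ξ g⁻¹ ∘ₗ (fderiv ℝ e x : E →ₗ[ℝ] E)))
  | some i, g => (B i).ξ ∘ₗ ((B i).ρ g⁻¹) ∘ₗ (fderiv ℝ (v i) x : E →ₗ[ℝ] (Fin (B i).d → ℝ))

private theorem geo_sum (δ : ℝ) (hδ : 0 < δ) (n : ℕ) :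
    δ * ∑ l ∈ Finset.range n, ((1 + δ) ^ l)⁻¹ = (1 + δ) * (1 - ((1 + δ) ^ n)⁻¹) := by
  have h1 : (1 + δ) ≠ 0 := by positivity
  induction n with
  | zero => simp
  | succ n ih =>
    rw [Finset.sum_range_succ, mul_add, ih, pow_succ]
    have h2 : (1 + δ) ^ n ≠ 0 := pow_ne_zero _ h1
    field_simp
    ring

theorem fam_AN (D : Geo E) (K : Set E) (hK : IsCompact K) (hKX : K ⊆ D.X) (hKc : Convex ℝ K)
    (r : ℕ) (B : Fin r → Blk D.Γ) (v : ∀ i, E → (Fin (B i).d → ℝ))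
    (hv : ∀ i, ContDiffOn ℝ 2 (v i) D.X) (hvC : ∀ i, ∀ x ∈ D.X, v i x ∈ (B i).C)
    (hve : ∀ i, ∀ g : D.Γ, ∀ x ∈ D.X, ∃ s : ℝ, 0 < s ∧ v i (g.1 x) = s • (B i).ρ g (v i x))
    (e : E → E) (he : ContDiffOn ℝ 2 e D.X) (heR : ∀ x ∈ D.X, e x ∈ RecInt D.X)
    (hee : ∀ g : D.Γ, ∀ x ∈ D.X, e (g.1 x) = g.1.linear (e x))
    (V : Submodule ℝ E) (hV : ∀ v, v ∈ V ↔ v ∈ Lin D.X) (hVR : (V : Set E) ≠ Rec D.X)
    (c : D.Γ → ℝ) (hc : PosMul c) (ξ : (E × ℝ) →ₗ[ℝ] ℝ) (hξV : ∀ v ∈ V, ξ (v, 0) = 0)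
    (hξ : ∀ x ∈ D.X, 0 < ξ (x, 1)) (hξR : ∀ u ∈ Rec D.X, u ∉ V → 0 < ξ (u, 0)) (N : ℕ)
    (hN : ∀ x ∈ D.X, ∀ y ∈ D.X, Summable (fun g : D.Γ =>
      (c g * ξ (hatHom D.Γ g⁻¹ (y, 1)))⁻¹ ^ N * ∏ i, ((B i).ev g (v i x))⁻¹ ^ N))
    (n : Fin r → ℕ)
    (hn : ∀ i, ∀ x ∈ D.X, Module.finrank ℝ (LinearMap.range ((Submodule.span ℝ {v i x}).mkQ ∘ₗ
      (fderiv ℝ (v i) x : E →ₗ[ℝ] (Fin (B i).d → ℝ)))) ≤ n i)
    (hdim : ∑ i, n i ≤ Module.finrank ℝ V) :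
    ∃ C : ℝ, 0 ≤ C ∧ ∀ δ : ℝ, 0 < δ → δ ≤ 1 → FamHyp D K (Option (Fin r)) N C δ := by
  classical
  -- constants of the blocks
  have h1 : ∀ i, ∃ C : ℝ, 0 ≤ C ∧ ∀ z ∈ v i '' K, ∀ w : Fin (B i).d → ℝ, ∀ g,
      |(B i).ev g w| ≤ C * ‖w‖ * (B i).ev g z := fun i =>
    blk_gauge (B i) (v i '' K) (hK.image_of_continuousOn ((hv i).continuousOn.mono hKX))
      (by rintro _ ⟨x, hx, rfl⟩; exact hvC i x (hKX hx))
  choose C1 hC1 hg1 using h1
  have h2 := fun i => c2_est D K hK hKX hKc (v i) (hv i)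
  choose C2 hC2 hd2 hl2 ht2 using h2
  have hev : ∀ i (g : D.Γ), ∀ x ∈ D.X, 0 < (B i).ev g (v i x) := fun i g x hx =>
    (B i).pos _ ((B i).inv _ _ (hvC i x hx))
  have hCnn : ∀ i ∈ (Finset.univ : Finset (Fin r)), 0 ≤ C1 i * C2 i := fun i _ =>
    mul_nonneg (hC1 i) (hC2 i)
  -- constants of the domain
  obtain ⟨Cd, hCd, hgd⟩ := dom_gauge D ξ hξ K hK hKX
  obtain ⟨Cr, hCr, hgr⟩ := rec_gauge D ξ hξ (e '' K)
    (hK.image_of_continuousOn (he.continuousOn.mono hKX))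
    (by rintro _ ⟨x, hx, rfl⟩; exact heR x (hKX hx))
  obtain ⟨Ce, hCe, hde, hle, hte⟩ := c2_est D K hK hKX hKc e he
  set S : Submodule ℝ E := Submodule.span ℝ (Rec D.X) with hS
  have heS : ∀ x ∈ D.X, e x ∈ S := fun x hx => Submodule.subset_span (recInt_sub D (heR x hx))
  have hdS : ∀ x ∈ D.X, ∀ u, fderiv ℝ e x u ∈ S := fun x hx u =>
    deriv_mem_sub D S e he heS x hx u
  have hqe : ∀ x ∈ D.X, ∀ g : D.Γ, 0 ≤ qf D ξ g (e x) := fun x hx g =>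
    (rec_nonneg D ξ hξ (e x) (recInt_sub D (heR x hx)) g).2
  have hpp : ∀ x ∈ D.X, ∀ g : D.Γ, 0 < pf D ξ g x := fun x hx g => pf_pos D ξ hξ g x hx
  have hqd : ∀ x ∈ K, ∀ u (g : D.Γ), |qf D ξ g u| ≤ Cd * ‖u‖ * pf D ξ g x := fun x hx u g =>
    hgd x hx u g
  have hqr : ∀ x ∈ K, ∀ w ∈ S, ∀ g : D.Γ, |qf D ξ g w| ≤ Cr * ‖w‖ * qf D ξ g (e x) :=
    fun x hx w hw g => hgr (e x) ⟨x, hx, rfl⟩ w hw g
  -- the constant
  set CB : ℝ := ∑ i, C1 i * C2 i with hCB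
  have hCB0 : 0 ≤ CB := Finset.sum_nonneg hCnn
  have hCi : ∀ i, C1 i * C2 i ≤ CB := fun i => Finset.single_le_sum hCnn (Finset.mem_univ i)
  have hCrCe : 0 ≤ Cr * Ce := mul_nonneg hCr hCe
  set C : ℝ := CB + Cd + Cr * Ce + 2 * Cr with hC
  have hC0 : 0 ≤ C := by positivity
  have hkey : ∀ i, ∀ x ∈ K, ∀ (w : Fin (B i).d → ℝ) (g : D.Γ) (t : ℝ), 0 ≤ t →
      ‖w‖ ≤ C2 i * t → |(B i).ev g w| ≤ C * t * (B i).ev g (v i x) := by
    intro i x hx w g t ht hw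
    have h3 := hg1 i (v i x) ⟨x, hx, rfl⟩ w g
    have h4 := hev i g x (hKX hx)
    have h5 : C1 i * C2 i ≤ C := by
      have := hCi i
      rw [hC]
      nlinarith
    calc |(B i).ev g w| ≤ C1 i * ‖w‖ * (B i).ev g (v i x) := h3
      _ ≤ C1 i * (C2 i * t) * (B i).ev g (v i x) := by
          have := mul_le_mul_of_nonneg_left hw (hC1 i)
          exact mul_le_mul_of_nonneg_right this h4.le
      _ = (C1 i * C2 i) * t * (B i).ev g (v i x) := by ring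
      _ ≤ C * t * (B i).ev g (v i x) := by
          exact mul_le_mul_of_nonneg_right (mul_le_mul_of_nonneg_right h5 ht) h4.le
  have hkey0 : ∀ x ∈ K, ∀ (w₁ w₂ : E) (g : D.Γ) (t T : ℝ), 0 ≤ t → 0 ≤ T → w₂ ∈ S →
      ‖w₁‖ ≤ t → ‖w₂‖ ≤ Ce * t →
      |c g * (qf D ξ g⁻¹ w₁ + T * qf D ξ g⁻¹ w₂)| ≤
        C * t * (c g * (pf D ξ g⁻¹ x + T * qf D ξ g⁻¹ (e x))) := by
    intro x hx w₁ w₂ g t T ht hT hw₂S hw₁ hw₂
    have h3 := hqd x hx w₁ g⁻¹
    have h4 := hqr x hx w₂ hw₂S g⁻¹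
    have hp := hpp x (hKX hx) g⁻¹
    have hq := hqe x (hKX hx) g⁻¹
    have hcg := hc.1 g
    have h5 : |qf D ξ g⁻¹ w₁| ≤ (Cd * t) * pf D ξ g⁻¹ x :=
      h3.trans (mul_le_mul_of_nonneg_right (mul_le_mul_of_nonneg_left hw₁ hCd) hp.le)
    have h6 : |qf D ξ g⁻¹ w₂| ≤ (Cr * (Ce * t)) * qf D ξ g⁻¹ (e x) :=
      h4.trans (mul_le_mul_of_nonneg_right (mul_le_mul_of_nonneg_left hw₂ hCr) hq)
    rw [abs_mul, abs_of_pos hcg]
    have h7 : |qf D ξ g⁻¹ w₁ + T * qf D ξ g⁻¹ w₂| ≤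
        C * t * (pf D ξ g⁻¹ x + T * qf D ξ g⁻¹ (e x)) := by
      calc |qf D ξ g⁻¹ w₁ + T * qf D ξ g⁻¹ w₂|
          ≤ |qf D ξ g⁻¹ w₁| + |T * qf D ξ g⁻¹ w₂| := abs_add_le _ _
        _ = |qf D ξ g⁻¹ w₁| + T * |qf D ξ g⁻¹ w₂| := by rw [abs_mul, abs_of_nonneg hT]
        _ ≤ (Cd * t) * pf D ξ g⁻¹ x + T * ((Cr * (Ce * t)) * qf D ξ g⁻¹ (e x)) :=
            add_le_add h5 (mul_le_mul_of_nonneg_left h6 hT)
        _ ≤ C * t * (pf D ξ g⁻¹ x + T * qf D ξ g⁻¹ (e x)) := by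
            have h8 : 0 ≤ t * pf D ξ g⁻¹ x := mul_nonneg ht hp.le
            have h9 : 0 ≤ t * (T * qf D ξ g⁻¹ (e x)) := mul_nonneg ht (mul_nonneg hT hq)
            have h10 : Cd ≤ C := by rw [hC]; linarith
            have h11 : Cr * Ce ≤ C := by rw [hC]; linarith
            have h12 := mul_le_mul_of_nonneg_right h10 h8
            have h13 := mul_le_mul_of_nonneg_right h11 h9
            linarith
    calc c g * |qf D ξ g⁻¹ w₁ + T * qf D ξ g⁻¹ w₂|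
        ≤ c g * (C * t * (pf D ξ g⁻¹ x + T * qf D ξ g⁻¹ (e x))) :=
          mul_le_mul_of_nonneg_left h7 hcg.le
      _ = _ := by ring
  refine ⟨C, hC0, fun δ hδ hδ1 => ?_⟩
  have ht0 : ∀ l : ℕ, 0 < (1 + δ) ^ l := fun l => by positivity
  have hsub : ∀ l : ℕ, ∀ x ∈ D.X, x + (1 + δ) ^ l • e x ∈ D.X := fun l x hx =>
    recInt_sub D (heR x hx) x hx _ (ht0 l).le
  have hnone : ∀ (l : ℕ) (x : E) (g : D.Γ), aa D B v e c ξ δ l x none g
      = c g * ξ (hatHom D.Γ g⁻¹ (x + (1 + δ) ^ l • e x, 1)) := by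
    intro l x g
    show c g * (pf D ξ g⁻¹ x + (1 + δ) ^ l * qf D ξ g⁻¹ (e x))
      = c g * pf D ξ g⁻¹ (x + (1 + δ) ^ l • e x)
    rw [pf_add, map_smul, smul_eq_mul]
  have hnpos : ∀ (l : ℕ) (x : E), x ∈ D.X → ∀ g : D.Γ, 0 < aa D B v e c ξ δ l x none g := by
    intro l x hx g
    rw [hnone]
    exact mul_pos (hc.1 g) (pf_pos D ξ hξ g⁻¹ _ (hsub l x hx))
  have hLn : 1 ≤ δ ^ 2 * (⌈(δ ^ 2)⁻¹⌉₊ : ℝ) := by
    have h3 : (δ ^ 2)⁻¹ ≤ (⌈(δ ^ 2)⁻¹⌉₊ : ℝ) := Nat.le_ceil _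
    have h4 : 0 < δ ^ 2 := by positivity
    calc (1 : ℝ) = δ ^ 2 * (δ ^ 2)⁻¹ := (mul_inv_cancel₀ h4.ne').symm
      _ ≤ _ := mul_le_mul_of_nonneg_left h3 h4.le
  refine ⟨⌈(δ ^ 2)⁻¹⌉₊, aa D B v e c ξ δ, aa' D B v e c ξ δ, C, hLn, ?_, ?_, ?_, ?_, ?_⟩
  · intro l x hx
    refine ⟨fun i g => ?_, ?_⟩
    · cases i with
      | none => exact hnpos l x hx g
      | some i => exact hev i g x hx
    · refine (hN x hx (x + (1 + δ) ^ l • e x) (hsub l x hx)).congr fun g => ?_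
      unfold kern
      rw [Fintype.prod_option, hnone]
      rfl
  · intro l h x hx i
    cases i with
    | none =>
      refine ⟨c h, hc.1 h, fun g => ?_⟩
      show c (h * g) * (pf D ξ (h * g)⁻¹ (h.1 x) + (1 + δ) ^ l * qf D ξ (h * g)⁻¹ (e (h.1 x)))
        = c h * (c g * (pf D ξ g⁻¹ x + (1 + δ) ^ l * qf D ξ g⁻¹ (e x)))
      have h3 : pf D ξ (h * g)⁻¹ (h.1 x) = pf D ξ g⁻¹ x := by
        unfold pf
        rw [← hat_pt, hat_inv]
      have h4 : qf D ξ (h * g)⁻¹ (e (h.1 x)) = qf D ξ g⁻¹ (e x) := by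
        rw [hee h x hx, qf_apply, qf_apply, ← hat_vec, hat_inv]
      rw [h3, h4, hc.2]
      ring
    | some i =>
      obtain ⟨s, hs, hs2⟩ := hve i h x hx
      refine ⟨s, hs, fun g => ?_⟩
      show (B i).ξ ((B i).ρ (h * g)⁻¹ (v i (h.1 x))) = s * (B i).ξ ((B i).ρ g⁻¹ (v i x))
      rw [hs2, map_smul, map_smul, smul_eq_mul, mul_inv_rev, map_mul, Module.End.mul_apply]
      congr 3
      rw [← Module.End.mul_apply, ← map_mul, inv_mul_cancel, map_one, Module.End.one_apply]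
  · intro l _ x hx u i g
    cases i with
    | none =>
      exact hkey0 x hx u (fderiv ℝ e x u) g ‖u‖ ((1 + δ) ^ l) (norm_nonneg u) (ht0 l).le
        (hdS x (hKX hx) u) le_rfl (hde x hx u)
    | some i => exact hkey i x hx _ g ‖u‖ (norm_nonneg u) (hd2 i x hx u)
  · intro l _ x hx y hy i g
    cases i with
    | none =>
      have hpsub : pf D ξ g⁻¹ y = pf D ξ g⁻¹ x + qf D ξ g⁻¹ (y - x) := by
        rw [← pf_add, add_sub_cancel]
      refine ⟨?_, ?_⟩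
      · have h3 : aa D B v e c ξ δ l y none g - aa D B v e c ξ δ l x none g
            = c g * (qf D ξ g⁻¹ (y - x) + (1 + δ) ^ l * qf D ξ g⁻¹ (e y - e x)) := by
          show c g * (pf D ξ g⁻¹ y + (1 + δ) ^ l * qf D ξ g⁻¹ (e y))
            - c g * (pf D ξ g⁻¹ x + (1 + δ) ^ l * qf D ξ g⁻¹ (e x)) = _
          rw [hpsub, map_sub (qf D ξ g⁻¹) (e y) (e x)]
          ring
        rw [h3]
        exact hkey0 x hx _ _ g ‖y - x‖ ((1 + δ) ^ l) (norm_nonneg _) (ht0 l).le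
          (S.sub_mem (heS y (hKX hy)) (heS x (hKX hx))) le_rfl (hle x hx y hy)
      · have h3 : aa D B v e c ξ δ l y none g - aa D B v e c ξ δ l x none g
            - aa' D B v e c ξ δ l x none g (y - x)
            = c g * (qf D ξ g⁻¹ 0 +
              (1 + δ) ^ l * qf D ξ g⁻¹ (e y - e x - fderiv ℝ e x (y - x))) := by
          show c g * (pf D ξ g⁻¹ y + (1 + δ) ^ l * qf D ξ g⁻¹ (e y))
            - c g * (pf D ξ g⁻¹ x + (1 + δ) ^ l * qf D ξ g⁻¹ (e x))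
            - c g * (qf D ξ g⁻¹ (y - x) + (1 + δ) ^ l * qf D ξ g⁻¹ (fderiv ℝ e x (y - x))) = _
          rw [hpsub, map_sub (qf D ξ g⁻¹) (e y - e x), map_sub (qf D ξ g⁻¹) (e y) (e x), map_zero]
          ring
        rw [h3]
        refine hkey0 x hx _ _ g (‖y - x‖ ^ 2) ((1 + δ) ^ l) (by positivity) (ht0 l).le
          (S.sub_mem (S.sub_mem (heS y (hKX hy)) (heS x (hKX hx))) (hdS x (hKX hx) _)) ?_
          (hte x hx y hy)
        rw [norm_zero]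
        positivity
    | some i =>
      refine ⟨?_, ?_⟩
      · show |(B i).ev g (v i y) - (B i).ev g (v i x)| ≤ _
        rw [← evv_sub]
        exact hkey i x hx _ g ‖y - x‖ (norm_nonneg _) (hl2 i x hx y hy)
      · have h3 : (B i).ev g (v i y) - (B i).ev g (v i x) -
            ((B i).ξ ∘ₗ ((B i).ρ g⁻¹) ∘ₗ (fderiv ℝ (v i) x : E →ₗ[ℝ] (Fin (B i).d → ℝ))) (y - x)
            = (B i).ev g (v i y - v i x - fderiv ℝ (v i) x (y - x)) := by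
          rw [evv_sub, evv_sub]
          rfl
        show |(B i).ev g (v i y) - (B i).ev g (v i x) -
            ((B i).ξ ∘ₗ ((B i).ρ g⁻¹) ∘ₗ (fderiv ℝ (v i) x : E →ₗ[ℝ] (Fin (B i).d → ℝ))) (y - x)|
            ≤ _
        rw [h3]
        exact hkey i x hx _ g (‖y - x‖ ^ 2) (by positivity) (ht2 i x hx y hy)
  · intro x hx
    have hxX := hKX hx
    obtain ⟨heV, u, huS, hu, lam, μ, hlam, hμ⟩ := exists_dirN D r B V hV hVR (fun i => v i x)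
      (fun i => hvC i x hxX)
      (fun i => (fderiv ℝ (v i) x : E →ₗ[ℝ] (Fin (B i).d → ℝ))) (e x) (heR x hxX)
      (fderiv ℝ e x : E →ₗ[ℝ] E) (fun u => hdS x hxX u) n (fun i => hn i x hxX) hdim
    have hqV : ∀ g : D.Γ, ∀ w ∈ V, qf D ξ g w = 0 := by
      intro g w hw
      rw [qf_apply, hat_vec]
      exact hξV _ ((hV _).2 (lin_inv D g w ((hV w).1 hw)))
    have hqμ : ∀ g : D.Γ, qf D ξ g (fderiv ℝ e x u) = μ * qf D ξ g (e x) := by
      intro g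
      have h3 := hqV g _ hμ
      rw [map_sub, map_smul, smul_eq_mul] at h3
      have h4 : qf D ξ g ((fderiv ℝ e x : E →ₗ[ℝ] E) u) = qf D ξ g (fderiv ℝ e x u) := rfl
      rw [h4] at h3
      linarith
    have hmu : |μ| ≤ Cr * Ce := by
      have h3 := hqr x hx _ (hdS x hxX u) 1
      rw [hqμ 1, abs_mul] at h3
      have h4 : 0 < qf D ξ (1 : D.Γ) (e x) := by
        rw [qf_apply, map_one]
        exact hξR _ (recInt_sub D (heR x hxX)) heV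
      rw [abs_of_pos h4] at h3
      have h5 : Cr * ‖fderiv ℝ e x u‖ * qf D ξ (1 : D.Γ) (e x)
          ≤ Cr * Ce * qf D ξ (1 : D.Γ) (e x) := by
        refine mul_le_mul_of_nonneg_right (mul_le_mul_of_nonneg_left ?_ hCr) h4.le
        have := hde x hx u
        rwa [hu, mul_one] at this
      exact le_of_mul_le_mul_right (h3.trans h5) h4
    refine ⟨u, hu, fun o => o.elim 0 lam, μ,
      fun l o g => o.elim ((1 + δ) ^ l * (c g * qf D ξ g⁻¹ (e x))) (fun _ => 0),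
      fun _ o g => o.elim (c g * qf D ξ g⁻¹ u) (fun _ => 0),
      fun l => Cr * ((1 + δ) ^ l)⁻¹, ?_, ?_, ?_⟩
    · refine hmu.trans ?_
      rw [hC]
      linarith
    · intro l _
      refine ⟨mul_nonneg hCr (inv_nonneg.2 (ht0 l).le), fun i g => ?_⟩
      cases i with
      | none =>
        have hcg := hc.1 g
        have hp := hpp x hxX g⁻¹
        have hq := hqe x hxX g⁻¹
        have hy0 : 0 ≤ (1 + δ) ^ l * (c g * qf D ξ g⁻¹ (e x)) :=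
          mul_nonneg (ht0 l).le (mul_nonneg hcg.le hq)
        have hya : (1 + δ) ^ l * (c g * qf D ξ g⁻¹ (e x)) ≤ aa D B v e c ξ δ l x none g := by
          show _ ≤ c g * (pf D ξ g⁻¹ x + (1 + δ) ^ l * qf D ξ g⁻¹ (e x))
          have := mul_nonneg hcg.le hp.le
          nlinarith
        refine ⟨?_, ?_, ?_, ?_⟩
        · show c g * (qf D ξ g⁻¹ u + (1 + δ) ^ l * qf D ξ g⁻¹ (fderiv ℝ e x u)) =
            0 * aa D B v e c ξ δ l x none g + c g * qf D ξ g⁻¹ u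
              + μ * ((1 + δ) ^ l * (c g * qf D ξ g⁻¹ (e x)))
          rw [hqμ]
          ring
        · show c g * (pf D ξ g⁻¹ x + (1 + δ) ^ (l + 1) * qf D ξ g⁻¹ (e x)) =
            c g * (pf D ξ g⁻¹ x + (1 + δ) ^ l * qf D ξ g⁻¹ (e x))
              + δ * ((1 + δ) ^ l * (c g * qf D ξ g⁻¹ (e x)))
          ring
        · show |(1 + δ) ^ l * (c g * qf D ξ g⁻¹ (e x))| ≤ _
          rw [abs_of_nonneg hy0]
          exact hya
        · show |c g * qf D ξ g⁻¹ u| ≤ Cr * ((1 + δ) ^ l)⁻¹ * aa D B v e c ξ δ l x none g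
          rw [abs_mul, abs_of_pos hcg]
          have h3 := hqr x hx u huS g⁻¹
          rw [hu, mul_one] at h3
          have h4 : Cr * ((1 + δ) ^ l)⁻¹ * ((1 + δ) ^ l * (c g * qf D ξ g⁻¹ (e x)))
              = c g * (Cr * qf D ξ g⁻¹ (e x)) := by
            have := (ht0 l).ne'
            field_simp
          calc c g * |qf D ξ g⁻¹ u| ≤ c g * (Cr * qf D ξ g⁻¹ (e x)) :=
                mul_le_mul_of_nonneg_left h3 hcg.le
            _ = Cr * ((1 + δ) ^ l)⁻¹ * ((1 + δ) ^ l * (c g * qf D ξ g⁻¹ (e x))) := h4.symm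
            _ ≤ _ := mul_le_mul_of_nonneg_left hya
                (mul_nonneg hCr (inv_nonneg.2 (ht0 l).le))
      | some i =>
        refine ⟨?_, ?_, ?_, ?_⟩
        · have h3 : fderiv ℝ (v i) x u = lam i • v i x := hlam i
          show (B i).ev g (fderiv ℝ (v i) x u) = lam i * (B i).ev g (v i x) + 0 + μ * 0
          rw [h3, evv_smul]
          ring
        · show (B i).ev g (v i x) = (B i).ev g (v i x) + δ * 0
          ring
        · show |(0 : ℝ)| ≤ (B i).ev g (v i x)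
          rw [abs_zero]
          exact (hev i g x hxX).le
        · show |(0 : ℝ)| ≤ Cr * ((1 + δ) ^ l)⁻¹ * (B i).ev g (v i x)
          rw [abs_zero]
          exact mul_nonneg (mul_nonneg hCr (inv_nonneg.2 (ht0 l).le)) (hev i g x hxX).le
    · rw [← Finset.mul_sum]
      set n := ⌈(δ ^ 2)⁻¹⌉₊ with hn
      have h3 := geo_sum δ hδ n
      have h4 : δ * ∑ l ∈ Finset.range n, ((1 + δ) ^ l)⁻¹ ≤ 2 := by
        rw [h3]
        have h5 : 0 < ((1 + δ) ^ n)⁻¹ := inv_pos.2 (ht0 n)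
        nlinarith
      have h6 : ∑ l ∈ Finset.range n, ((1 + δ) ^ l)⁻¹ ≤ 2 * (δ * n) := by
        have h7 : ∑ l ∈ Finset.range n, ((1 + δ) ^ l)⁻¹ * δ ≤ 2 * (δ * n) * δ := by
          rw [← Finset.sum_mul]
          nlinarith
        rw [← Finset.sum_mul] at h7
        exact le_of_mul_le_mul_right h7 hδ
      have h8 : 0 ≤ δ * (n : ℝ) := by positivity
      calc Cr * ∑ l ∈ Finset.range n, ((1 + δ) ^ l)⁻¹ ≤ Cr * (2 * (δ * n)) :=
            mul_le_mul_of_nonneg_left h6 hCr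
        _ = (2 * Cr) * (δ * n) := by ring
        _ ≤ C * (δ * n) := mul_le_mul_of_nonneg_right (by rw [hC]; linarith) h8
        _ = C * δ * n := by ring

end

end Pool.AF
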