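import Pool.Agent.Helper94.AF.Defs

open Set Finset

namespace Pool.AF

/-- A linear map of rank at most `n` has the kernel of a map to `ℝ^n`. -/
theorem exists_fin_map {E F : Type*} [AddCommGroup E] [Module ℝ E] [FiniteDimensional ℝ E]
    [AddCommGroup F] [Module ℝ F] (f : E →ₗ[ℝ] F) (n : ℕ)
    (h : Module.finrank ℝ (LinearMap.range f) ≤ n) :
    ∃ f' : E →ₗ[ℝ] (Fin n → ℝ), ∀ u, f' u = 0 → f u = 0 := by
  classical
  let b := Module.finBasis ℝ (LinearMap.range f)
  let j : (Fin (Module.finrank ℝ (LinearMap.range f)) → ℝ) →ₗ[ℝ] (Fin n → ℝ) :=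
    LinearMap.pi fun i => if hi : (i : ℕ) < Module.finrank ℝ (LinearMap.range f) then
      LinearMap.proj ⟨i, hi⟩ else 0
  refine ⟨j ∘ₗ b.equivFun.toLinearMap ∘ₗ f.rangeRestrict, fun u hu => ?_⟩
  have h1 : b.equivFun (f.rangeRestrict u) = 0 := by
    funext i
    have h2 := congrFun hu ⟨i, i.2.trans_le h⟩
    have h3 : (j (b.equivFun (f.rangeRestrict u))) ⟨i, i.2.trans_le h⟩ =
        b.equivFun (f.rangeRestrict u) i := by
      simp only [j, LinearMap.pi_apply]
      rw [dif_pos i.2]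
      rfl
    rw [← h3]
    exact h2
  have h2 : f.rangeRestrict u = 0 := by
    rw [← map_zero b.equivFun] at h1
    exact b.equivFun.injective h1
  exact congrArg Subtype.val h2

end Pool.AF
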