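import Pool.Agent.Helper94.AF.Gauge
import Pool.Agent.Helper94.AS.Rank

open Set Finset

set_option linter.unusedSectionVars false

namespace Pool.AF

open Pool.SV

/-! ## AS FAMB: the family of kernels when the domain is bounded modulo the lineality space, with
ranks (copy of AF/FamB.lean)

`a l x i g = (B i).ev g (v i x)` does not depend on `l` (uses `c2_est`, `blk_gauge`). -/

section

variable {E : Type*} [NormedAddCommGroup E] [NormedSpace ℝ E] [FiniteDimensional ℝ E]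

/-- A unit vector along which all the derivatives are proportional to the values. -/
private theorem exists_prop_dir (r : ℕ) (d : Fin r → ℕ) (z : ∀ i, Fin (d i) → ℝ)
    (z' : ∀ i, E →ₗ[ℝ] (Fin (d i) → ℝ)) (n : Fin r → ℕ)
    (hn : ∀ i, Module.finrank ℝ (LinearMap.range
      ((Submodule.span ℝ {z i}).mkQ ∘ₗ z' i)) ≤ n i)
    (hdim : ∑ i, n i < Module.finrank ℝ E) :
    ∃ u : E, ‖u‖ = 1 ∧ ∃ lam : Fin r → ℝ, ∀ i, z' i u = lam i • z i := by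
  have hff : ∀ i, ∃ f' : E →ₗ[ℝ] (Fin (n i) → ℝ), ∀ u, f' u = 0 →
      ((Submodule.span ℝ {z i}).mkQ ∘ₗ z' i) u = 0 := fun i =>
    exists_fin_map ((Submodule.span ℝ {z i}).mkQ ∘ₗ z' i) (n i) (hn i)
  choose ff hff using hff
  let T : E →ₗ[ℝ] (∀ i, Fin (n i) → ℝ) := LinearMap.pi fun i => ff i
  have hfin : Module.finrank ℝ (∀ i, Fin (n i) → ℝ) < Module.finrank ℝ E := by
    rw [Module.finrank_pi_fintype]
    simp only [Module.finrank_fin_fun]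
    exact hdim
  have hker : LinearMap.ker T ≠ ⊥ := LinearMap.ker_ne_bot_of_finrank_lt hfin
  obtain ⟨u, hu, hu0⟩ := Submodule.exists_mem_ne_zero_of_ne_bot hker
  have hprop : ∀ i, ∃ c : ℝ, c • z i = z' i u := by
    intro i
    have h2 : T u = 0 := hu
    have h3 : T u i = 0 := by rw [h2]; rfl
    have h4 : Submodule.mkQ (Submodule.span ℝ {z i}) (z' i u) = 0 := hff i u h3
    rw [Submodule.mkQ_apply, Submodule.Quotient.mk_eq_zero] at h4
    exact Submodule.mem_span_singleton.1 h4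
  choose c hc using hprop
  refine ⟨‖u‖⁻¹ • u, ?_, fun i => ‖u‖⁻¹ * c i, fun i => ?_⟩
  · rw [norm_smul, norm_inv, norm_norm, inv_mul_cancel₀ (norm_ne_zero_iff.2 hu0)]
  · rw [map_smul, ← hc i, smul_smul]

private theorem ev_sub {G : Type*} [Group G] (B : Blk G) (g : G) (v w : Fin B.d → ℝ) :
    B.ev g (v - w) = B.ev g v - B.ev g w := by
  unfold Blk.ev
  rw [map_sub, map_sub]

private theorem ev_smul {G : Type*} [Group G] (B : Blk G) (g : G) (c : ℝ) (v : Fin B.d → ℝ) :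
    B.ev g (c • v) = c * B.ev g v := by
  unfold Blk.ev
  rw [map_smul, map_smul, smul_eq_mul]

theorem fam_BN (D : Geo E) (K : Set E) (hK : IsCompact K) (hKX : K ⊆ D.X) (hKc : Convex ℝ K)
    (r : ℕ) (B : Fin r → Blk D.Γ) (v : ∀ i, E → (Fin (B i).d → ℝ))
    (hv : ∀ i, ContDiffOn ℝ 2 (v i) D.X) (hvC : ∀ i, ∀ x ∈ D.X, v i x ∈ (B i).C)
    (hve : ∀ i, ∀ g : D.Γ, ∀ x ∈ D.X, ∃ s : ℝ, 0 < s ∧ v i (g.1 x) = s • (B i).ρ g (v i x))
    (N : ℕ)
    (hN : ∀ x ∈ D.X, Summable (fun g : D.Γ => ∏ i, ((B i).ev g (v i x))⁻¹ ^ N))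
    (n : Fin r → ℕ)
    (hn : ∀ i, ∀ x ∈ D.X, Module.finrank ℝ (LinearMap.range ((Submodule.span ℝ {v i x}).mkQ ∘ₗ
      (fderiv ℝ (v i) x : E →ₗ[ℝ] (Fin (B i).d → ℝ)))) ≤ n i)
    (hdim : ∑ i, n i < Module.finrank ℝ E) :
    ∃ C : ℝ, 0 ≤ C ∧ ∀ δ : ℝ, 0 < δ → δ ≤ 1 → FamHyp D K (Fin r) N C δ := by
  classical
  have h1 : ∀ i, ∃ C : ℝ, 0 ≤ C ∧ ∀ z ∈ v i '' K, ∀ w : Fin (B i).d → ℝ, ∀ g,
      |(B i).ev g w| ≤ C * ‖w‖ * (B i).ev g z := fun i =>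
    blk_gauge (B i) (v i '' K) (hK.image_of_continuousOn ((hv i).continuousOn.mono hKX))
      (by rintro _ ⟨x, hx, rfl⟩; exact hvC i x (hKX hx))
  choose C1 hC1 hg1 using h1
  have h2 := fun i => c2_est D K hK hKX hKc (v i) (hv i)
  choose C2 hC2 hd2 hl2 ht2 using h2
  have hev : ∀ i (g : D.Γ), ∀ x ∈ D.X, 0 < (B i).ev g (v i x) := fun i g x hx =>
    (B i).pos _ ((B i).inv _ _ (hvC i x hx))
  have hCnn : ∀ i ∈ (Finset.univ : Finset (Fin r)), 0 ≤ C1 i * C2 i := fun i _ =>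
    mul_nonneg (hC1 i) (hC2 i)
  have hCi : ∀ i, C1 i * C2 i ≤ ∑ i, C1 i * C2 i := fun i =>
    Finset.single_le_sum hCnn (Finset.mem_univ i)
  have hC0 : 0 ≤ ∑ i, C1 i * C2 i := Finset.sum_nonneg hCnn
  have hkey : ∀ i, ∀ x ∈ K, ∀ (w : Fin (B i).d → ℝ) (g : D.Γ) (t : ℝ), 0 ≤ t →
      ‖w‖ ≤ C2 i * t → |(B i).ev g w| ≤ (∑ i, C1 i * C2 i) * t * (B i).ev g (v i x) := by
    intro i x hx w g t ht hw
    have h3 := hg1 i (v i x) ⟨x, hx, rfl⟩ w g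
    have h4 := hev i g x (hKX hx)
    calc |(B i).ev g w| ≤ C1 i * ‖w‖ * (B i).ev g (v i x) := h3
      _ ≤ C1 i * (C2 i * t) * (B i).ev g (v i x) := by
          have := mul_le_mul_of_nonneg_left hw (hC1 i)
          exact mul_le_mul_of_nonneg_right this h4.le
      _ = (C1 i * C2 i) * t * (B i).ev g (v i x) := by ring
      _ ≤ (∑ i, C1 i * C2 i) * t * (B i).ev g (v i x) := by
          exact mul_le_mul_of_nonneg_right (mul_le_mul_of_nonneg_right (hCi i) ht) h4.le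
  refine ⟨∑ i, C1 i * C2 i, hC0, fun δ hδ _ => ?_⟩
  refine ⟨⌈(δ ^ 2)⁻¹⌉₊, fun _ x i g => (B i).ev g (v i x),
    fun _ x i g => (B i).ξ ∘ₗ ((B i).ρ g⁻¹) ∘ₗ (fderiv ℝ (v i) x : E →ₗ[ℝ] (Fin (B i).d → ℝ)),
    ∑ i, C1 i * C2 i, ?_, ?_, ?_, ?_, ?_, ?_⟩
  · have h3 : (δ ^ 2)⁻¹ ≤ (⌈(δ ^ 2)⁻¹⌉₊ : ℝ) := Nat.le_ceil _
    have h4 : 0 < δ ^ 2 := by positivity
    calc (1 : ℝ) = δ ^ 2 * (δ ^ 2)⁻¹ := (mul_inv_cancel₀ h4.ne').symm
      _ ≤ _ := mul_le_mul_of_nonneg_left h3 h4.le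
  · intro l x hx
    exact ⟨fun i g => hev i g x hx, hN x hx⟩
  · intro l h x hx i
    obtain ⟨s, hs, hs2⟩ := hve i h x hx
    refine ⟨s, hs, fun g => ?_⟩
    show (B i).ξ ((B i).ρ (h * g)⁻¹ (v i (h.1 x))) = s * (B i).ξ ((B i).ρ g⁻¹ (v i x))
    rw [hs2, map_smul, map_smul, smul_eq_mul, mul_inv_rev, map_mul, Module.End.mul_apply]
    congr 3
    rw [← Module.End.mul_apply, ← map_mul, inv_mul_cancel, map_one, Module.End.one_apply]
  · intro l _ x hx u i g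
    exact hkey i x hx _ g ‖u‖ (norm_nonneg u) (hd2 i x hx u)
  · intro l _ x hx y hy i g
    refine ⟨?_, ?_⟩
    · rw [← ev_sub]
      exact hkey i x hx _ g ‖y - x‖ (norm_nonneg _) (hl2 i x hx y hy)
    · have h3 : (B i).ev g (v i y) - (B i).ev g (v i x) -
          ((B i).ξ ∘ₗ ((B i).ρ g⁻¹) ∘ₗ (fderiv ℝ (v i) x : E →ₗ[ℝ] (Fin (B i).d → ℝ))) (y - x)
          = (B i).ev g (v i y - v i x - fderiv ℝ (v i) x (y - x)) := by
        rw [ev_sub, ev_sub]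
        rfl
      rw [h3]
      exact hkey i x hx _ g (‖y - x‖ ^ 2) (by positivity) (ht2 i x hx y hy)
  · intro x hx
    obtain ⟨u, hu, lam, hlam⟩ := exists_prop_dir r (fun i => (B i).d) (fun i => v i x)
      (fun i => (fderiv ℝ (v i) x : E →ₗ[ℝ] (Fin (B i).d → ℝ))) n
      (fun i => hn i x (hKX hx)) hdim
    refine ⟨u, hu, lam, 0, fun _ _ _ => 0, fun _ _ _ => 0, fun _ => 0, ?_, ?_, ?_⟩
    · rw [abs_zero]; exact hC0
    · intro l _
      refine ⟨le_rfl, fun i g => ⟨?_, ?_, ?_, ?_⟩⟩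
      · have h3 : fderiv ℝ (v i) x u = lam i • v i x := hlam i
        show (B i).ev g (fderiv ℝ (v i) x u) = _
        rw [h3, ev_smul]
        ring
      · ring
      · rw [abs_zero]; exact (hev i g x (hKX hx)).le
      · rw [abs_zero, zero_mul]
    · rw [Finset.sum_const_zero]
      positivity

end

end Pool.AF
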