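import Mathlib

/-!
# Weight filtration on `k[X][Y]` adapted to `Y^p - Y - f(X)`
-/

set_option autoImplicit false

open Polynomial

namespace Pool.Agent.Helper94.AS

variable {k : Type} [Field k]

/-- all monomials `X^i Y^j` occurring in `C` have weight `p i + j m ≤ d` -/
def Wt (p m d : ℕ) (C : k[X][X]) : Prop :=
  ∀ j i, (C.coeff j).coeff i ≠ 0 → p * i + j * m ≤ d

namespace Wt

variable {p m d e : ℕ} {A B : k[X][X]}

theorem zero : Wt p m d (0 : k[X][X]) := by
  intro j i h; simp at h

theorem mono (h : Wt p m d A) (hde : d ≤ e) : Wt p m e A :=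
  fun j i hji => (h j i hji).trans hde

theorem add (hA : Wt p m d A) (hB : Wt p m d B) : Wt p m d (A + B) := by
  intro j i h
  rw [coeff_add, coeff_add] at h
  by_cases h1 : (A.coeff j).coeff i = 0
  · rw [h1, zero_add] at h
    exact hB j i h
  · exact hA j i h1

theorem neg (hA : Wt p m d A) : Wt p m d (-A) := by
  intro j i h
  rw [coeff_neg, coeff_neg] at h
  exact hA j i (fun h0 => h (by rw [h0, neg_zero]))

theorem sub (hA : Wt p m d A) (hB : Wt p m d B) : Wt p m d (A - B) := by
  rw [sub_eq_add_neg]; exact hA.add hB.neg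

theorem sum {ι : Type*} (s : Finset ι) (F : ι → k[X][X]) (h : ∀ i ∈ s, Wt p m d (F i)) :
    Wt p m d (∑ i ∈ s, F i) := by
  classical
  induction s using Finset.induction_on with
  | empty => simpa using zero
  | insert a s ha ih =>
    rw [Finset.sum_insert ha]
    exact (h a (Finset.mem_insert_self _ _)).add
      (ih fun i hi => h i (Finset.mem_insert_of_mem hi))

theorem mul (hA : Wt p m d A) (hB : Wt p m e B) : Wt p m (d + e) (A * B) := by
  intro j i h
  rw [coeff_mul, finsetSum_coeff] at h
  obtain ⟨⟨j1, j2⟩, hj, hne⟩ := Finset.exists_ne_zero_of_sum_ne_zero h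
  rw [coeff_mul] at hne
  obtain ⟨⟨i1, i2⟩, hi, hne⟩ := Finset.exists_ne_zero_of_sum_ne_zero hne
  simp only [Finset.HasAntidiagonal.mem_antidiagonal] at hj hi hne
  have h1 := hA j1 i1 (left_ne_zero_of_mul hne)
  have h2 := hB j2 i2 (right_ne_zero_of_mul hne)
  rw [← hj, ← hi]
  calc p * (i1 + i2) + (j1 + j2) * m = (p * i1 + j1 * m) + (p * i2 + j2 * m) := by ring
    _ ≤ d + e := by omega

theorem C {a : k[X]} (h : p * a.natDegree ≤ d) : Wt p m d (Polynomial.C a) := by
  intro j i hji
  rw [coeff_C] at hji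
  split_ifs at hji with h0
  · subst h0
    have := le_natDegree_of_ne_zero hji
    have : p * i ≤ p * a.natDegree := Nat.mul_le_mul_left _ this
    omega
  · simp at hji

theorem X_pow {n : ℕ} (h : n * m ≤ d) : Wt p m d (X ^ n : k[X][X]) := by
  intro j i hji
  rw [coeff_X_pow] at hji
  split_ifs at hji with h0
  · subst h0
    rw [coeff_one] at hji
    split_ifs at hji with h1
    · subst h1; simpa using h
    · simp at hji
  · simp at hji

theorem X (h : m ≤ d) : Wt p m d (Polynomial.X : k[X][X]) := by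
  have := X_pow (k := k) (p := p) (m := m) (d := d) (n := 1) (by simpa using h)
  simpa using this

theorem one : Wt p m d (1 : k[X][X]) := by
  have := X_pow (k := k) (p := p) (m := m) (d := d) (n := 0) (by simp)
  simpa using this

theorem pow (hA : Wt p m d A) (n : ℕ) : Wt p m (n * d) (A ^ n) := by
  induction n with
  | zero => simpa using one
  | succ n ih =>
    rw [pow_succ]
    have := ih.mul hA
    rwa [show n * d + d = (n + 1) * d by ring] at this

end Wt

/-- the relation `Y^p - Y - f` -/
noncomputable def bigG (p : ℕ) (f : k[X]) : k[X][X] := X ^ p - X - C f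

section

variable {p : ℕ} [hp : Fact p.Prime] (f : k[X])

theorem bigG_monic : (bigG p f).Monic := by
  have hp1 : 1 < p := hp.out.one_lt
  unfold bigG
  rw [sub_sub]
  apply monic_X_pow_sub
  refine lt_of_le_of_lt (degree_add_le _ _) ?_
  rw [max_lt_iff]
  constructor
  · rw [degree_X]; exact_mod_cast hp1
  · refine lt_of_le_of_lt degree_C_le ?_
    exact_mod_cast hp.out.pos

theorem bigG_natDegree : (bigG p f).natDegree = p := by
  have hp1 : 1 < p := hp.out.one_lt
  have h1 : (X ^ p - X : k[X][X]).natDegree = p := by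
    rw [natDegree_sub_eq_left_of_natDegree_lt]
    · simp
    · simpa using hp1
  unfold bigG
  rw [natDegree_sub_C, h1]

theorem bigG_wt : Wt p f.natDegree (p * f.natDegree) (bigG p f) := by
  unfold bigG
  refine ((Wt.X_pow le_rfl).sub (Wt.X ?_)).sub (Wt.C le_rfl)
  exact Nat.le_mul_of_pos_left _ hp.out.pos

/-- Reduction modulo `Y^p - Y - f` respects the weight filtration. -/
theorem exists_reduced (d : ℕ) : ∀ (n : ℕ) (A : k[X][X]), A.natDegree < n →
    Wt p f.natDegree d A →
    ∃ A' : k[X][X], Wt p f.natDegree d A' ∧ A'.natDegree < p ∧ bigG p f ∣ A - A' := by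
  intro n
  induction n with
  | zero => intro A h; omega
  | succ n ih =>
    intro A hAn hA
    by_cases hlt : A.natDegree < p
    · exact ⟨A, hA, hlt, by simp⟩
    push Not at hlt
    set N := A.natDegree with hN
    set B : k[X][X] := C A.leadingCoeff * X ^ (N - p) * bigG p f with hB
    have hp0 : 0 < p := hp.out.pos
    have hA0 : A ≠ 0 := by
      rintro rfl
      simp at hN
      omega
    have hlc : A.leadingCoeff ≠ 0 := leadingCoeff_ne_zero.2 hA0
    have hlcw : p * A.leadingCoeff.natDegree + N * f.natDegree ≤ d := by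
      apply hA N A.leadingCoeff.natDegree
      rw [hN, coeff_natDegree, coeff_natDegree]
      exact leadingCoeff_ne_zero.2 hlc
    have hBw : Wt p f.natDegree d B := by
      have h1 : Wt p f.natDegree (p * A.leadingCoeff.natDegree) (C A.leadingCoeff : k[X][X]) :=
        Wt.C le_rfl
      have h2 : Wt p f.natDegree ((N - p) * f.natDegree) (X ^ (N - p) : k[X][X]) :=
        Wt.X_pow le_rfl
      refine ((h1.mul h2).mul (bigG_wt f)).mono ?_
      have h3 : (N - p) * f.natDegree + p * f.natDegree = N * f.natDegree := by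
        rw [← add_mul, Nat.sub_add_cancel hlt]
      omega
    have hBd : B.degree = A.degree := by
      rw [hB, degree_mul, degree_C_mul_X_pow _ hlc, degree_eq_natDegree hA0,
        degree_eq_natDegree (bigG_monic f).ne_zero, bigG_natDegree, ← hN]
      norm_cast
      omega
    have hBl : B.leadingCoeff = A.leadingCoeff := by
      rw [hB, leadingCoeff_mul, leadingCoeff_mul_X_pow, leadingCoeff_C,
        (bigG_monic f).leadingCoeff, mul_one]
    have hlt2 : (A - B).degree < A.degree := degree_sub_lt_left hBd.symm hA0 hBl.symm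
    have hnat : (A - B).natDegree < n := by
      by_cases h0 : A - B = 0
      · rw [h0, natDegree_zero]; omega
      · have := natDegree_lt_natDegree h0 hlt2
        omega
    obtain ⟨A', h1, h2, h3⟩ := ih (A - B) hnat (hA.sub hBw)
    refine ⟨A', h1, h2, ?_⟩
    have : A - A' = (A - B - A') + B := by ring
    rw [this]
    exact dvd_add h3 (dvd_mul_left _ _)

/-- the reduced representative of the `p`-th power -/
noncomputable def frobC (A : k[X][X]) [CharP k p] : k[X][X] :=
  (A.map (frobenius k[X] p)).comp (X + C f)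

variable [CharP k p]

theorem frobC_dvd (A : k[X][X]) : bigG p f ∣ A ^ p - frobC (p := p) f A := by
  have h1 : A ^ p = (A.map (frobenius k[X] p)).comp (X ^ p) := by
    rw [← expand_eq_comp_X_pow, ← map_expand, map_frobenius_expand]
  have h2 : bigG p f = X ^ p - (X + C f) := by unfold bigG; ring
  rw [h1, frobC, h2]
  have h3 := sub_dvd_eval_sub (X ^ p : k[X][X]) (X + C f)
    ((A.map (frobenius k[X] p)).map (C : k[X] →+* k[X][X]))
  rw [eval_map, eval_map] at h3
  exact h3

theorem frobC_natDegree (A : k[X][X]) : (frobC (p := p) f A).natDegree = A.natDegree := by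
  unfold frobC
  rw [natDegree_comp, natDegree_map_eq_of_injective (frobenius_inj k[X] p)]
  have : (X + C f : k[X][X]).natDegree = 1 := natDegree_X_add_C f
  rw [this, mul_one]

theorem frobC_wt {D : ℕ} {A : k[X][X]} (hA : Wt p f.natDegree D A) :
    Wt p f.natDegree (p * D) (frobC (p := p) f A) := by
  unfold frobC
  rw [comp_eq_sum_left, Polynomial.sum_over_range _ (by simp)]
  refine Wt.sum _ _ fun j _ => ?_
  rw [coeff_map]
  by_cases hj : A.coeff j = 0
  · rw [hj]
    simpa using Wt.zero
  · have h1 : p * (A.coeff j).natDegree + j * f.natDegree ≤ D := by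
      apply hA
      rw [coeff_natDegree]
      exact leadingCoeff_ne_zero.2 hj
    have h2 : Wt p f.natDegree (p * (p * (A.coeff j).natDegree))
        (C (frobenius k[X] p (A.coeff j)) : k[X][X]) := by
      apply Wt.C
      rw [frobenius_def, natDegree_pow]
    have h3 : Wt p f.natDegree (p * f.natDegree) (X + C f : k[X][X]) :=
      (Wt.X (Nat.le_mul_of_pos_left _ hp.out.pos)).add (Wt.C le_rfl)
    refine (h2.mul (h3.pow j)).mono ?_
    calc p * (p * (A.coeff j).natDegree) + j * (p * f.natDegree)
        = p * (p * (A.coeff j).natDegree + j * f.natDegree) := by ring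
      _ ≤ p * D := Nat.mul_le_mul_left _ h1

theorem frobC_coeff_zero (A : k[X][X]) :
    (frobC (p := p) f A).coeff 0 = ∑ j ∈ A.support, A.coeff j ^ p * f ^ j := by
  unfold frobC
  rw [coeff_zero_eq_eval_zero, eval_comp, eval_add, eval_X, eval_C, zero_add, eval_map,
    eval₂_eq_sum, Polynomial.sum]
  rfl

/-- exact weight -/
def Exact (p m D : ℕ) (A : k[X][X]) : Prop :=
  Wt p m D A ∧ ∃ j, A.coeff j ≠ 0 ∧ p * (A.coeff j).natDegree + j * m = D

theorem frobC_zero_degree (hdeg : ¬ p ∣ f.natDegree) {D : ℕ} {A : k[X][X]}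
    (hA : Exact p f.natDegree D A) (hAp : A.natDegree < p) :
    (frobC (p := p) f A).coeff 0 ≠ 0 ∧ ((frobC (p := p) f A).coeff 0).natDegree = D := by
  have hp0 : 0 < p := hp.out.pos
  have hf0 : f ≠ 0 := by
    rintro rfl
    simp at hdeg
  obtain ⟨hw, j0, hj0, hD⟩ := hA
  have hterm : ∀ j ∈ A.support, (A.coeff j ^ p * f ^ j).natDegree =
      p * (A.coeff j).natDegree + j * f.natDegree := by
    intro j hj
    rw [natDegree_mul (pow_ne_zero _ (mem_support_iff.1 hj)) (pow_ne_zero _ hf0), natDegree_pow,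
      natDegree_pow]
  have hle : ∀ j ∈ A.support, p * (A.coeff j).natDegree + j * f.natDegree ≤ D := by
    intro j hj
    apply hw
    rw [coeff_natDegree]
    exact leadingCoeff_ne_zero.2 (mem_support_iff.1 hj)
  have hdisj : ({i | i ∈ A.support ∧ A.coeff i ^ p * f ^ i ≠ 0} : Set ℕ).Pairwise
      (Function.onFun (· ≠ ·) (natDegree ∘ fun j => A.coeff j ^ p * f ^ j)) := by
    intro i hi j hj hij h
    simp only [Function.comp] at h
    rw [hterm i hi.1, hterm j hj.1] at h
    apply hij
    have hi' : i < p := lt_of_le_of_lt (le_natDegree_of_mem_supp _ hi.1) hAp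
    have hj' : j < p := lt_of_le_of_lt (le_natDegree_of_mem_supp _ hj.1) hAp
    have h2 : (i : ZMod p) * (f.natDegree : ZMod p) = (j : ZMod p) * (f.natDegree : ZMod p) := by
      have h3 := congrArg (Nat.cast : ℕ → ZMod p) h
      push_cast at h3
      simpa using h3
    have h4 : ((f.natDegree : ℕ) : ZMod p) ≠ 0 := by
      rwa [Ne, ZMod.natCast_eq_zero_iff]
    have h5 := mul_right_cancel₀ h4 h2
    have h6 := (ZMod.natCast_eq_natCast_iff _ _ _).1 h5
    exact Nat.ModEq.eq_of_lt_of_lt h6 hi' hj'
  have hnd := natDegree_sum_eq_of_disjoint (fun j => A.coeff j ^ p * f ^ j) A.support hdisj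
  rw [frobC_coeff_zero]
  have hsup : (A.support.sup fun i => (A.coeff i ^ p * f ^ i).natDegree) = D := by
    apply le_antisymm
    · apply Finset.sup_le
      intro j hj
      rw [hterm j hj]
      exact hle j hj
    · have h7 := Finset.le_sup (f := fun i => (A.coeff i ^ p * f ^ i).natDegree)
        (mem_support_iff.2 hj0)
      simp only [hterm j0 (mem_support_iff.2 hj0), hD] at h7
      exact h7
  rw [hsup] at hnd
  refine ⟨?_, hnd⟩
  intro h0
  have hdeg2 := degree_sum_eq_of_disjoint (fun j => A.coeff j ^ p * f ^ j) A.support (by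
    intro i hi j hj hij h
    apply hdisj hi hj hij
    simp only [Function.comp] at h ⊢
    exact natDegree_eq_natDegree h)
  rw [h0, degree_zero] at hdeg2
  have h8 := Finset.le_sup (f := fun i => (A.coeff i ^ p * f ^ i).degree)
        (mem_support_iff.2 hj0)
  rw [← hdeg2] at h8
  have h9 := le_bot_iff.1 h8
  rw [degree_eq_bot] at h9
  exact mul_ne_zero (pow_ne_zero _ hj0) (pow_ne_zero _ hf0) h9

theorem frobC_exact (hdeg : ¬ p ∣ f.natDegree) {D : ℕ} {A : k[X][X]}
    (hA : Exact p f.natDegree D A) (hAp : A.natDegree < p) :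
    Exact p f.natDegree (p * D) (frobC (p := p) f A) := by
  obtain ⟨h1, h2⟩ := frobC_zero_degree f hdeg hA hAp
  exact ⟨frobC_wt f hA.1, 0, h1, by rw [h2]; ring⟩

omit hp [CharP k p] in
/-- every nonzero reduced element has an exact weight -/
theorem exists_exact (m : ℕ) {A : k[X][X]} (hA : A ≠ 0) : ∃ D, Exact p m D A := by
  have hne : A.support.Nonempty := by rwa [nonempty_support_iff]
  obtain ⟨j0, hj0, hmax⟩ := Finset.exists_max_image A.support
    (fun j => p * (A.coeff j).natDegree + j * m) hne
  refine ⟨p * (A.coeff j0).natDegree + j0 * m, ?_, j0, mem_support_iff.1 hj0, rfl⟩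
  intro j i hji
  have h1 : A.coeff j ≠ 0 := by
    intro h; rw [h] at hji; simp at hji
  have h2 := hmax j (mem_support_iff.2 h1)
  have h3 : i ≤ (A.coeff j).natDegree := le_natDegree_of_ne_zero hji
  have h4 : p * i ≤ p * (A.coeff j).natDegree := Nat.mul_le_mul_left _ h3
  omega

/-- iterated `p`-th powers -/
theorem exists_pow_rep (hdeg : ¬ p ∣ f.natDegree) {D : ℕ} {A : k[X][X]}
    (hA : Exact p f.natDegree D A) (hAp : A.natDegree < p) (e : ℕ) :
    ∃ B : k[X][X], B.natDegree < p ∧ bigG p f ∣ A ^ (p ^ (e + 1)) - B ∧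
      Wt p f.natDegree (p ^ (e + 1) * D) B ∧ B.coeff 0 ≠ 0 ∧
      p * (B.coeff 0).natDegree = p ^ (e + 1) * D := by
  induction e with
  | zero =>
    obtain ⟨h1, h2⟩ := frobC_zero_degree f hdeg hA hAp
    refine ⟨frobC (p := p) f A, by rwa [frobC_natDegree], ?_, ?_, h1, ?_⟩
    · simpa using frobC_dvd f A
    · simpa using frobC_wt f hA.1
    · rw [h2]; simp
  | succ e ih =>
    obtain ⟨B, h1, h2, h3, h4, h5⟩ := ih
    have hBE : Exact p f.natDegree (p ^ (e + 1) * D) B := ⟨h3, 0, h4, by rw [h5]; ring⟩
    obtain ⟨h6, h7⟩ := frobC_zero_degree f hdeg hBE h1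
    refine ⟨frobC (p := p) f B, by rwa [frobC_natDegree], ?_, ?_, h6, ?_⟩
    · have h8 : bigG p f ∣ (A ^ (p ^ (e + 1))) ^ p - B ^ p :=
        h2.trans (sub_dvd_pow_sub_pow _ _ _)
      have h9 : A ^ (p ^ (e + 1 + 1)) - frobC (p := p) f B =
          ((A ^ (p ^ (e + 1))) ^ p - B ^ p) + (B ^ p - frobC (p := p) f B) := by
        rw [← pow_mul, ← pow_succ]; ring
      rw [h9]
      exact dvd_add h8 (frobC_dvd f B)
    · have := frobC_wt f h3
      rwa [← mul_assoc, ← pow_succ'] at this
    · rw [h7, pow_succ' p (e + 1), mul_assoc]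

end

end Pool.Agent.Helper94.AS
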