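import Pool.Agent.Helper94.AS.Irr
import Pool.Agent.Helper94.AS.Fil

/-!
# The function field `k(X)[W]/(W^p - W - f)`: integral elements and elements of small degree
-/

set_option autoImplicit false
set_option linter.unusedSectionVars false

open Polynomial

namespace Pool.Agent.Helper94.AS

/-- the function field -/
noncomputable abbrev FF (p : ℕ) {k : Type} [Field k] (f : k[X]) : Type := AdjoinRoot (asPoly p f)

section

variable {p : ℕ} [hp : Fact p.Prime] {k : Type} [Field k] (f : k[X])

/-- the class of `W` -/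
noncomputable abbrev WW : FF p f := AdjoinRoot.root (asPoly p f)

theorem mk_C' (a : RatFunc k) : AdjoinRoot.mk (asPoly p f) (C a) =
    algebraMap (RatFunc k) (FF p f) a := rfl

theorem algMap_poly (a : k[X]) : algebraMap k[X] (FF p f) a =
    algebraMap (RatFunc k) (FF p f) (algebraMap k[X] (RatFunc k) a) :=
  IsScalarTower.algebraMap_apply k[X] (RatFunc k) (FF p f) a

theorem WW_eq : (WW f : FF p f) ^ p - WW f = algebraMap k[X] (FF p f) f := by
  have h := AdjoinRoot.eval₂_root (asPoly p f)
  simp only [asPoly, eval₂_sub, eval₂_pow, eval₂_X, eval₂_C] at h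
  rw [algMap_poly]
  exact sub_eq_zero.1 h

theorem ev_eq_mk (A : k[X][X]) : aeval (WW f : FF p f) A =
    AdjoinRoot.mk (asPoly p f) (A.map (algebraMap k[X] (RatFunc k))) := by
  rw [← AdjoinRoot.aeval_eq, aeval_map_algebraMap]

theorem ev_bigG : aeval (WW f : FF p f) (bigG p f) = 0 := by
  simp only [bigG, map_sub, map_pow, aeval_X, aeval_C]
  rw [WW_eq, sub_self]

theorem ev_eq_of_dvd {A B : k[X][X]} (h : bigG p f ∣ A - B) :
    aeval (WW f : FF p f) A = aeval (WW f : FF p f) B := by
  obtain ⟨c, hc⟩ := h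
  rw [← sub_eq_zero, ← map_sub, hc, map_mul, ev_bigG, zero_mul]

theorem mk_injOn {c : (RatFunc k)[X]} (hc : c.natDegree < p)
    (h : AdjoinRoot.mk (asPoly p f) c = 0) : c = 0 := by
  rw [AdjoinRoot.mk_eq_zero] at h
  by_contra h0
  have := natDegree_le_of_dvd h h0
  rw [natDegree_asPoly] at this
  omega

theorem exists_mk (u : FF p f) : ∃ c : (RatFunc k)[X], c.natDegree < p ∧
    AdjoinRoot.mk (asPoly p f) c = u := by
  refine ⟨AdjoinRoot.modByMonicHom (monic_asPoly f) u, ?_,
    AdjoinRoot.mk_leftInverse (monic_asPoly f) u⟩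
  obtain ⟨g, rfl⟩ := AdjoinRoot.mk_surjective u
  rw [AdjoinRoot.modByMonicHom_mk]
  have h1 := natDegree_modByMonic_lt g (monic_asPoly (p := p) f) (by
    intro h
    have := natDegree_asPoly (p := p) f
    rw [h, natDegree_one] at this
    exact hp.out.ne_zero this.symm)
  rwa [natDegree_asPoly] at h1

theorem ev_injOn {A : k[X][X]} (hA : A.natDegree < p)
    (h : aeval (WW f : FF p f) A = 0) : A = 0 := by
  rw [ev_eq_mk] at h
  have hinj : Function.Injective (algebraMap k[X] (RatFunc k)) := IsFractionRing.injective _ _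
  have h1 := mk_injOn f (by rwa [natDegree_map_eq_of_injective hinj]) h
  exact (Polynomial.map_eq_zero_iff hinj).1 h1

end

section comp

theorem comp_coeff {K : Type} [Field K] (c : K[X]) {N : ℕ} (hN : c.natDegree ≤ N) (n : ℕ) :
    (c.comp (X + 1)).coeff n = ∑ i ∈ Finset.range (N + 1), (i.choose n : K) * c.coeff i := by
  rw [comp_eq_sum_left, Polynomial.sum_over_range' _ (by simp) (N + 1) (by omega),
    finsetSum_coeff]
  refine Finset.sum_congr rfl fun i _ => ?_
  rw [coeff_C_mul, coeff_X_add_one_pow, mul_comm]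

theorem diff_coeff {K : Type} [Field K] (c : K[X]) {J : ℕ} (hN : c.natDegree ≤ J + 1) :
    (c.comp (X + 1) - c).coeff J = ((J + 1 : ℕ) : K) * c.coeff (J + 1) := by
  rw [coeff_sub, comp_coeff c hN, Finset.sum_range_succ, Finset.sum_range_succ,
    Finset.sum_eq_zero]
  · simp
  · intro i hi
    rw [Nat.choose_eq_zero_of_lt (Finset.mem_range.1 hi)]
    simp

theorem diff_natDegree {K : Type} [Field K] (c : K[X]) {J : ℕ} (hN : c.natDegree ≤ J + 1) :
    (c.comp (X + 1) - c).natDegree ≤ J := by
  rw [natDegree_le_iff_coeff_eq_zero]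
  intro n hn
  rw [coeff_sub, comp_coeff c hN]
  rcases Nat.lt_or_ge (J + 1) n with h | h
  · rw [Finset.sum_eq_zero, coeff_eq_zero_of_natDegree_lt (by omega), sub_zero]
    intro i hi
    rw [Nat.choose_eq_zero_of_lt (by have := Finset.mem_range.1 hi; omega)]
    simp
  · have hn' : n = J + 1 := by omega
    subst hn'
    rw [Finset.sum_range_succ, Finset.sum_eq_zero]
    · simp
    · intro i hi
      rw [Nat.choose_eq_zero_of_lt (Finset.mem_range.1 hi)]
      simp

end comp

section shift

variable {p : ℕ} [hp : Fact p.Prime] {k : Type} [Field k] [CharP k p] (f : k[X])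

theorem shift_aux : (asPoly p f).eval₂ (Algebra.ofId (RatFunc k) (FF p f) : RatFunc k →+* FF p f)
    (WW f + 1) = 0 := by
  have hchar : CharP (RatFunc k) p := charP_of_injective_algebraMap (algebraMap k _).injective p
  have hchar2 : CharP (FF p f) p := charP_of_injective_algebraMap (R := RatFunc k) (by
    intro a b h
    rw [← mk_C', ← mk_C', ← sub_eq_zero, ← map_sub, ← C_sub] at h
    have h2 := mk_injOn f (by rw [natDegree_C]; exact hp.out.pos) h
    exact sub_eq_zero.1 (C_eq_zero.1 h2)) p
  have h := WW_eq (p := p) f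
  simp only [asPoly, eval₂_sub, eval₂_pow, eval₂_X, eval₂_C]
  rw [add_pow_char, one_pow]
  rw [algMap_poly] at h
  change (WW f : FF p f) ^ p + 1 - (WW f + 1) - algebraMap (RatFunc k) (FF p f) _ = 0
  linear_combination h

/-- the translation `W ↦ W + 1` -/
noncomputable def shift : FF p f →ₐ[RatFunc k] FF p f :=
  AdjoinRoot.liftAlgHom (asPoly p f) (Algebra.ofId (RatFunc k) (FF p f)) (WW f + 1) (shift_aux f)

theorem shift_WW : shift f (WW f : FF p f) = WW f + 1 := by
  simp [shift]

theorem shift_mk (c : (RatFunc k)[X]) : shift f (AdjoinRoot.mk (asPoly p f) c) =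
    AdjoinRoot.mk (asPoly p f) (c.comp (X + 1)) := by
  rw [← AdjoinRoot.aeval_eq, ← AdjoinRoot.aeval_eq, aeval_comp, ← aeval_algHom_apply, shift_WW]
  simp

theorem WW_integral : IsIntegral k[X] (WW f : FF p f) :=
  ⟨bigG p f, bigG_monic f, ev_bigG f⟩

theorem natCast_ne_zero_of_lt {K : Type} [Field K] [CharP K p] {J : ℕ} (h0 : 0 < J) (h : J < p) :
    ((J : ℕ) : K) ≠ 0 := by
  rw [Ne, CharP.cast_eq_zero_iff K p]
  exact fun hd => absurd (Nat.le_of_dvd h0 hd) (by omega)

theorem algMap_inj : Function.Injective (algebraMap (RatFunc k) (FF p f)) := by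
  intro a b h
  rw [← mk_C', ← mk_C', ← sub_eq_zero, ← map_sub, ← C_sub] at h
  have h2 := mk_injOn f (by rw [natDegree_C]; exact hp.out.pos) h
  exact sub_eq_zero.1 (C_eq_zero.1 h2)

/-- Coefficients of integral elements are polynomials. -/
theorem integral_coeff : ∀ (J : ℕ), J < p → ∀ c : (RatFunc k)[X], c.natDegree ≤ J →
    IsIntegral k[X] (AdjoinRoot.mk (asPoly p f) c) →
    ∀ n, c.coeff n ∈ (algebraMap k[X] (RatFunc k)).range := by
  have hchar : CharP (RatFunc k) p := charP_of_injective_algebraMap (algebraMap k _).injective p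
  intro J
  induction J with
  | zero =>
    intro _ c hc hint n
    obtain ⟨a, rfl⟩ := natDegree_eq_zero.1 (Nat.le_zero.1 hc)
    rw [mk_C'] at hint
    have h1 : IsIntegral k[X] a := (isIntegral_algebraMap_iff (algMap_inj f)).1 hint
    obtain ⟨s, hs⟩ := IsIntegrallyClosed.isIntegral_iff.1 h1
    rw [coeff_C]
    split_ifs
    · exact ⟨s, hs⟩
    · exact zero_mem _
  | succ J ih =>
    intro hJ c hc hint n
    have hJ' : J < p := by omega
    have ih' := ih hJ'
    have hd : IsIntegral k[X] (AdjoinRoot.mk (asPoly p f) (c.comp (X + 1) - c)) := by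
      rw [map_sub, ← shift_mk]
      exact (hint.map ((shift f).restrictScalars k[X])).sub hint
    have h1 := ih' _ (diff_natDegree c hc) hd J
    rw [diff_coeff c hc] at h1
    have hne : ((J + 1 : ℕ) : RatFunc k) ≠ 0 := natCast_ne_zero_of_lt (p := p) (by omega) hJ
    have h2 : c.coeff (J + 1) ∈ (algebraMap k[X] (RatFunc k)).range := by
      have h3 : c.coeff (J + 1) = algebraMap k[X] (RatFunc k) (C (((J + 1 : ℕ) : k)⁻¹)) *
          (((J + 1 : ℕ) : RatFunc k) * c.coeff (J + 1)) := by
        rw [← mul_assoc]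
        have h4 : algebraMap k[X] (RatFunc k) (C (((J + 1 : ℕ) : k)⁻¹)) *
            ((J + 1 : ℕ) : RatFunc k) = 1 := by
          have hne' : ((J + 1 : ℕ) : k) ≠ 0 := natCast_ne_zero_of_lt (p := p) (by omega) hJ
          rw [← map_natCast (algebraMap k[X] (RatFunc k)), ← map_mul, ← C_eq_natCast, ← C_mul,
            inv_mul_cancel₀ hne']
          simp
        rw [h4, one_mul]
      rw [h3]
      exact Subring.mul_mem _ ⟨_, rfl⟩ h1
    by_cases hn : n = J + 1
    · rw [hn]; exact h2
    obtain ⟨s, hs⟩ := h2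
    set c' := c - monomial (J + 1) (c.coeff (J + 1)) with hc'
    have hc'd : c'.natDegree ≤ J := by
      rw [natDegree_le_iff_coeff_eq_zero]
      intro l hl
      rw [hc', coeff_sub, coeff_monomial]
      rcases Nat.lt_or_ge (J + 1) l with h | h
      · rw [if_neg (by omega), coeff_eq_zero_of_natDegree_lt (by omega), sub_zero]
      · have : l = J + 1 := by omega
        subst this
        simp
    have hint' : IsIntegral k[X] (AdjoinRoot.mk (asPoly p f) c') := by
      rw [hc', map_sub]
      refine hint.sub ?_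
      rw [← C_mul_X_pow_eq_monomial, map_mul, map_pow, mk_C', ← hs, ← algMap_poly,
        AdjoinRoot.mk_X]
      exact isIntegral_algebraMap.mul ((WW_integral f).pow _)
    have h5 := ih' c' hc'd hint' n
    rw [hc', coeff_sub, coeff_monomial, if_neg (by omega), sub_zero] at h5
    exact h5

theorem exists_ev_of_integral {u : FF p f} (hu : IsIntegral k[X] u) :
    ∃ A : k[X][X], A.natDegree < p ∧ aeval (WW f : FF p f) A = u := by
  obtain ⟨c, hc, rfl⟩ := exists_mk f u
  have h := integral_coeff f (p - 1) (by have := hp.out.pos; omega) c (by omega) hu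
  have h1 : c ∈ lifts (algebraMap k[X] (RatFunc k)) := by
    rw [lifts_iff_coeff_lifts]
    intro n
    obtain ⟨s, hs⟩ := h n
    exact ⟨s, hs⟩
  obtain ⟨A, hA⟩ := (mem_lifts _).1 h1
  refine ⟨A, ?_, ?_⟩
  · rw [← natDegree_map_eq_of_injective (IsFractionRing.injective k[X] (RatFunc k)), hA]
    exact hc
  · rw [ev_eq_mk, hA]

/-- the fixed elements of the translation -/
theorem shift_fixed {u : FF p f} (hu : shift f u = u) :
    ∃ r : RatFunc k, algebraMap (RatFunc k) (FF p f) r = u := by
  have hchar : CharP (RatFunc k) p := charP_of_injective_algebraMap (algebraMap k _).injective p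
  obtain ⟨c, hc, rfl⟩ := exists_mk f u
  rw [shift_mk, ← sub_eq_zero, ← map_sub] at hu
  rcases Nat.eq_zero_or_pos c.natDegree with h0 | h0
  · obtain ⟨a, rfl⟩ := natDegree_eq_zero.1 h0
    exact ⟨a, rfl⟩
  · exfalso
    obtain ⟨J, hJ⟩ : ∃ J, c.natDegree = J + 1 := ⟨c.natDegree - 1, by omega⟩
    have h1 := mk_injOn f (lt_of_le_of_lt (diff_natDegree c hJ.le) (by omega)) hu
    have h2 := diff_coeff c hJ.le
    rw [h1, coeff_zero] at h2
    have hne : ((J + 1 : ℕ) : RatFunc k) ≠ 0 :=
      natCast_ne_zero_of_lt (p := p) (by omega) (by omega)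
    have h3 : c.coeff (J + 1) = 0 := by
      rcases mul_eq_zero.1 h2.symm with h | h
      · exact absurd h hne
      · exact h
    rw [← hJ, coeff_natDegree, leadingCoeff_eq_zero] at h3
    rw [h3] at h0
    simp at h0

end shift

end Pool.Agent.Helper94.AS
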