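import Pool.Agent.Helper94.AS.Poles

/-!
# The Sylow subgroup of the automorphism group
-/

set_option autoImplicit false
set_option linter.unusedSectionVars false

open Polynomial

namespace Pool.Agent.Helper94.AS

variable {p : ℕ} [hp : Fact p.Prime] {k : Type} [Field k] [IsAlgClosed k] [CharP k p] (f : k[X])

/-- an automorphism is affine on the variable -/
theorem aut_form [hirr : Fact (Irreducible (asPoly p f))]
    (hdeg : ¬ p ∣ f.natDegree) (hbig : p ^ 2 < f.natDegree) (σ : FF p f ≃ₐ[k] FF p f) :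
    ∃ (a b : k), σ (xx f) = algebraMap k[X] (FF p f) (C a * X + C b) := by
  obtain ⟨s, hs⟩ := aut_xx_poly f hdeg hbig σ
  obtain ⟨s', hs'⟩ := aut_xx_poly f hdeg hbig σ.symm
  have h1 : s'.comp s = X := by
    apply algMap_poly_inj (p := p) f
    have h2 : σ (algebraMap k[X] (FF p f) s') = xx f := by
      rw [← hs', AlgEquiv.apply_symm_apply]
    have h3 : σ (algebraMap k[X] (FF p f) s') = aeval (σ (xx f)) s' := by
      rw [algMap_eq_aeval]
      exact (aeval_algHom_apply (σ : FF p f →ₐ[k] FF p f) (xx f) s').symm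
    rw [h3, hs, algMap_eq_aeval f s, ← aeval_comp, ← algMap_eq_aeval] at h2
    exact h2
  have h2 : s.natDegree ≤ 1 := by
    have h3 := congrArg natDegree h1
    rw [natDegree_comp, natDegree_X] at h3
    exact (Nat.eq_one_of_mul_eq_one_left h3).le
  obtain ⟨a, b, hab⟩ := exists_eq_X_add_C_of_natDegree_le_one h2
  exact ⟨a, b, by rw [hs, hab]⟩

/-- uniqueness of the coordinates with respect to `1, W` -/
theorem coord_unique {a b c d : RatFunc k}
    (h : algebraMap (RatFunc k) (FF p f) a * WW f + algebraMap (RatFunc k) (FF p f) b =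
      algebraMap (RatFunc k) (FF p f) c * WW f + algebraMap (RatFunc k) (FF p f) d) :
    a = c ∧ b = d := by
  have h1 : AdjoinRoot.mk (asPoly p f) (C (a - c) * X + C (b - d)) = 0 := by
    rw [map_add, map_mul, mk_C', mk_C', AdjoinRoot.mk_X, map_sub, map_sub]
    linear_combination h
  have h2 : (C (a - c) * X + C (b - d) : (RatFunc k)[X]).natDegree < p :=
    lt_of_le_of_lt natDegree_linear_le hp.out.one_lt
  have h3 := mk_injOn f h2 h1
  have h4 := congrArg (fun q => coeff q 1) h3
  have h5 := congrArg (fun q => coeff q 0) h3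
  simp at h4 h5
  exact ⟨sub_eq_zero.1 h4, sub_eq_zero.1 h5⟩

/-- automorphisms of `p`-power order are unipotent -/
theorem aut_unipotent [hirr : Fact (Irreducible (asPoly p f))]
    (hdeg : ¬ p ∣ f.natDegree) (hbig : p ^ 2 < f.natDegree) (σ : FF p f ≃ₐ[k] FF p f)
    {r : ℕ} (hr : σ ^ (p ^ r) = 1) :
    ∃ (b : k) (h : RatFunc k), σ (xx f) = algebraMap k[X] (FF p f) (X + C b) ∧
      σ (WW f) = WW f + algebraMap (RatFunc k) (FF p f) h := by
  have hchar : CharP (RatFunc k) p := charP_of_injective_algebraMap (algebraMap k _).injective p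
  obtain ⟨a, b, hab⟩ := aut_form f hdeg hbig σ
  obtain ⟨x', hx'⟩ := aut_xx f hdeg hbig σ
  obtain ⟨n, h, hW⟩ := aut_WW f hdeg hbig σ
  -- powers
  have hpx : ∀ j : ℕ, ∃ c : k, (σ ^ j) (xx f) = algebraMap k[X] (FF p f) (C (a ^ j) * X + C c) := by
    intro j
    induction j with
    | zero => exact ⟨0, by simp⟩
    | succ j ih =>
      obtain ⟨c, hc⟩ := ih
      refine ⟨a ^ j * b + c, ?_⟩
      rw [pow_succ', AlgEquiv.mul_apply, hc, map_add, map_mul, map_add, map_mul]
      have hC : ∀ z : k, σ (algebraMap k[X] (FF p f) (C z)) = algebraMap k[X] (FF p f) (C z) := by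
        intro z
        exact σ.commutes z
      rw [hC, hC, hab, ← map_mul, ← map_add]
      congr 1
      simp only [C_mul, C_pow, C_add]
      ring
  have hpW : ∀ j : ℕ, ∃ c : RatFunc k, (σ ^ j) (WW f) =
      algebraMap (RatFunc k) (FF p f) (n ^ j : ℕ) * WW f + algebraMap (RatFunc k) (FF p f) c := by
    intro j
    induction j with
    | zero => exact ⟨0, by simp⟩
    | succ j ih =>
      obtain ⟨c, hc⟩ := ih
      obtain ⟨s, hs⟩ := aut_ratFunc f σ hx' c
      refine ⟨(n ^ j : ℕ) * h + s, ?_⟩
      rw [pow_succ', AlgEquiv.mul_apply, hc, map_add, map_mul, hs, hW, map_natCast, map_natCast,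
        map_natCast, map_add, map_mul, map_natCast]
      push_cast
      ring
  have ha1 : a = 1 := by
    obtain ⟨c, hc⟩ := hpx (p ^ r)
    rw [hr] at hc
    have h1 := algMap_poly_inj f hc
    have h2 := congrArg (fun q => coeff q 1) h1
    simp only [coeff_X_one, coeff_add, coeff_C_mul, mul_one, coeff_C_succ, add_zero] at h2
    have h3 : (a - 1) ^ (p ^ r) = 0 := by
      rw [sub_pow_char_pow, one_pow, ← h2, sub_self]
    exact sub_eq_zero.1 (pow_eq_zero_iff (pow_ne_zero _ hp.out.ne_zero) |>.1 h3)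
  have hn1 : (n : RatFunc k) = 1 := by
    obtain ⟨c, hc⟩ := hpW (p ^ r)
    rw [hr] at hc
    have h1 : algebraMap (RatFunc k) (FF p f) 1 * WW f + algebraMap (RatFunc k) (FF p f) 0 =
      algebraMap (RatFunc k) (FF p f) (n ^ (p ^ r) : ℕ) * WW f +
        algebraMap (RatFunc k) (FF p f) c := by
      rw [← hc, map_one, one_mul, map_zero, add_zero]
      rfl
    have h2 := (coord_unique f h1).1
    push_cast at h2
    have h3 : ((n : RatFunc k) - 1) ^ (p ^ r) = 0 := by
      rw [sub_pow_char_pow, one_pow, ← h2, sub_self]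
    exact sub_eq_zero.1 (pow_eq_zero_iff (pow_ne_zero _ hp.out.ne_zero) |>.1 h3)
  refine ⟨b, h, ?_, ?_⟩
  · rw [hab, ha1, C_1, one_mul]
  · rw [hW]
    have : (n : FF p f) = 1 := by
      rw [← map_natCast (algebraMap (RatFunc k) (FF p f)), hn1, map_one]
    rw [this, one_mul]

/-- extensionality for homomorphisms -/
theorem hom_ext {φ ψ : FF p f →ₐ[k] FF p f} (h1 : φ (xx f) = ψ (xx f))
    (h2 : φ (WW f) = ψ (WW f)) : φ = ψ := by
  apply AdjoinRoot.algHom_ext'
  · apply AlgHom.coe_ringHom_injective
    apply IsLocalization.ringHom_ext (nonZeroDivisors k[X])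
    apply Polynomial.ringHom_ext
    · intro a
      have e : ∀ χ : FF p f →ₐ[k] FF p f, χ (algebraMap k (FF p f) a) = algebraMap k (FF p f) a :=
        fun χ => χ.commutes a
      exact (e φ).trans (e ψ).symm
    · exact h1
  · exact h2

section construct

/-- the translation of the variable on `k[X]` -/
noncomputable def trP (b : k) : k[X] →ₐ[k] k[X] := aeval (X + C b)

theorem trP_apply (b : k) (a : k[X]) : trP b a = a.comp (X + C b) := by
  simp [trP, comp, aeval_def]

theorem trP_inj (b : k) : Function.Injective (trP b) := by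
  intro u v h
  rw [trP_apply, trP_apply] at h
  have := congrArg (fun q => q.comp (X - C b)) h
  simpa [comp_assoc] using this

/-- the translation on `k(X)` -/
noncomputable def trK (b : k) : RatFunc k →ₐ[k] RatFunc k :=
  RatFunc.mapAlgHom (trP b) (nonZeroDivisors_le_comap_nonZeroDivisors_of_injective _ (trP_inj b))

theorem trK_poly (b : k) (a : k[X]) : trK b (algebraMap k[X] (RatFunc k) a) =
    algebraMap k[X] (RatFunc k) (a.comp (X + C b)) := by
  unfold trK
  rw [RatFunc.coe_mapAlgHom_eq_coe_map]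
  have := RatFunc.map_apply_div (trP b)
    (nonZeroDivisors_le_comap_nonZeroDivisors_of_injective _ (trP_inj b)) a 1
  simpa [trP_apply] using this

variable [hirr : Fact (Irreducible (asPoly p f))]

theorem mkHom_aux (b : k) (P : k[X]) (hP : P ^ p - P = f.comp (X + C b) - f) :
    (asPoly p f).eval₂ (((IsScalarTower.toAlgHom k (RatFunc k) (FF p f)).comp (trK b) :
      RatFunc k →ₐ[k] FF p f) : RatFunc k →+* FF p f)
      (WW f + algebraMap k[X] (FF p f) P) = 0 := by
  have hchar2 : CharP (FF p f) p := charP_of_injective_algebraMap (algebraMap k _).injective p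
  simp only [asPoly, eval₂_sub, eval₂_pow, eval₂_X, eval₂_C]
  rw [add_pow_char]
  have h1 : ((((IsScalarTower.toAlgHom k (RatFunc k) (FF p f)).comp (trK b) :
      RatFunc k →ₐ[k] FF p f) : RatFunc k →+* FF p f)) (algebraMap k[X] (RatFunc k) f) =
      algebraMap k[X] (FF p f) (f.comp (X + C b)) := by
    change algebraMap (RatFunc k) (FF p f) (trK b (algebraMap k[X] (RatFunc k) f)) = _
    rw [trK_poly, algMap_poly]
  rw [h1]
  have h2 := congrArg (algebraMap k[X] (FF p f)) hP
  rw [map_sub, map_sub, map_pow] at h2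
  have h3 := WW_eq (p := p) f
  linear_combination h3 + h2

/-- the endomorphism `X ↦ X + b`, `W ↦ W + P` -/
noncomputable def mkHom (b : k) (P : k[X]) (hP : P ^ p - P = f.comp (X + C b) - f) :
    FF p f →ₐ[k] FF p f :=
  AdjoinRoot.liftAlgHom (asPoly p f)
    ((IsScalarTower.toAlgHom k (RatFunc k) (FF p f)).comp (trK b))
    (WW f + algebraMap k[X] (FF p f) P) (mkHom_aux f b P hP)

theorem mkHom_WW (b : k) (P : k[X]) (hP : P ^ p - P = f.comp (X + C b) - f) :
    mkHom f b P hP (WW f) = WW f + algebraMap k[X] (FF p f) P := by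
  simp [mkHom]

theorem mkHom_ratFunc (b : k) (P : k[X]) (hP : P ^ p - P = f.comp (X + C b) - f) (r : RatFunc k) :
    mkHom f b P hP (algebraMap (RatFunc k) (FF p f) r) =
      algebraMap (RatFunc k) (FF p f) (trK b r) := by
  exact AdjoinRoot.liftAlgHom_of (asPoly p f) _ _ _ r

theorem mkHom_poly (b : k) (P : k[X]) (hP : P ^ p - P = f.comp (X + C b) - f) (a : k[X]) :
    mkHom f b P hP (algebraMap k[X] (FF p f) a) = algebraMap k[X] (FF p f) (a.comp (X + C b)) := by
  rw [algMap_poly, mkHom_ratFunc, trK_poly, algMap_poly]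

variable {G : Type} [Group G] (v : G → k) (P : G → k[X])
    (hv : ∀ g h, v (g * h) = v g + v h)
    (hP : ∀ g h, P (g * h) = P g + (P h).comp (X + C (v g)))
    (hPf : ∀ g, P g ^ p - P g = f.comp (X + C (v g)) - f)

include hv in
theorem v_one : v 1 = 0 := by
  have := hv 1 1
  rw [mul_one] at this
  simpa using this

include hv hP in
theorem P_one : P 1 = 0 := by
  have := hP 1 1
  rw [mul_one, v_one v hv, C_0, add_zero, comp_X] at this
  simpa using this

/-- the homomorphism to endomorphisms -/
noncomputable def toEnd : G →* (FF p f →ₐ[k] FF p f) where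
  toFun g := mkHom f (v g) (P g) (hPf g)
  map_one' := by
    apply hom_ext
    · rw [mkHom_poly, v_one v hv]; simp
    · rw [mkHom_WW, P_one v P hv hP]; simp
  map_mul' g h := by
    apply hom_ext
    · rw [mkHom_poly, AlgHom.mul_apply, mkHom_poly, mkHom_poly]
      congr 1
      rw [hv]
      simp
      ring
    · rw [mkHom_WW, AlgHom.mul_apply, mkHom_WW, map_add, mkHom_WW, mkHom_poly, hP, map_add]
      ring

/-- the homomorphism to automorphisms -/
noncomputable def toAut : G →* (FF p f ≃ₐ[k] FF p f) :=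
  (AlgEquiv.algHomUnitsEquiv k (FF p f)).toMonoidHom.comp (toEnd f v P hv hP hPf).toHomUnits

theorem toAut_apply (g : G) (u : FF p f) :
    toAut f v P hv hP hPf g u = mkHom f (v g) (P g) (hPf g) u := rfl

end construct

end Pool.Agent.Helper94.AS
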