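import Mathlib

/-!
# Artin–Schreier polynomials over `k(X)`: irreducibility
-/

set_option autoImplicit false

open Polynomial

namespace Pool.Agent.Helper94.AS

/-- The polynomial `T^p - T - f` over `k(X)`. -/
noncomputable abbrev asPoly (p : ℕ) {k : Type} [Field k] (f : k[X]) : (RatFunc k)[X] :=
  X ^ p - X - C (algebraMap k[X] (RatFunc k) f)

section basic

variable {p : ℕ} [hp : Fact p.Prime] {k : Type} [Field k] (f : k[X])

theorem natDegree_asPoly : (asPoly p f).natDegree = p := by
  have hp1 : 1 < p := hp.out.one_lt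
  have h1 : (X ^ p - X : (RatFunc k)[X]).natDegree = p := by
    rw [natDegree_sub_eq_left_of_natDegree_lt]
    · simp
    · simpa using hp1
  unfold asPoly
  rw [natDegree_sub_C, h1]

theorem monic_asPoly : (asPoly p f).Monic := by
  have hp1 : 1 < p := hp.out.one_lt
  unfold asPoly
  rw [sub_sub]
  apply monic_X_pow_sub
  refine lt_of_le_of_lt (degree_add_le _ _) ?_
  rw [max_lt_iff]
  constructor
  · rw [degree_X]; exact_mod_cast hp1
  · refine lt_of_le_of_lt degree_C_le ?_
    exact_mod_cast hp.out.pos

/-- No solution of `r^p - r = f` in `k(X)`. -/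
theorem no_root (hdeg : ¬ p ∣ f.natDegree) (r : RatFunc k) :
    r ^ p - r ≠ algebraMap k[X] (RatFunc k) f := by
  intro h
  have hp1 : 1 < p := hp.out.one_lt
  have hint : IsIntegral k[X] r := by
    refine ⟨X ^ p - X - C f, ?_, ?_⟩
    · rw [sub_sub]
      apply monic_X_pow_sub
      refine lt_of_le_of_lt (degree_add_le _ _) ?_
      rw [max_lt_iff]
      constructor
      · rw [degree_X]; exact_mod_cast hp1
      · refine lt_of_le_of_lt degree_C_le ?_
        exact_mod_cast hp.out.pos
    · simp [h]
  obtain ⟨s, hs⟩ := IsIntegrallyClosed.isIntegral_iff.1 hint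
  rw [← hs, ← map_pow, ← map_sub] at h
  have h2 : s ^ p - s = f := IsFractionRing.injective k[X] (RatFunc k) h
  apply hdeg
  rw [← h2]
  rcases Nat.eq_zero_or_pos s.natDegree with h0 | h0
  · obtain ⟨c, rfl⟩ := natDegree_eq_zero.1 h0
    rw [← C_pow, ← C_sub, natDegree_C]
    exact dvd_zero p
  · rw [natDegree_sub_eq_left_of_natDegree_lt]
    · rw [natDegree_pow]; exact dvd_mul_right _ _
    · rw [natDegree_pow]; nlinarith

/-- In characteristic `p` the solutions of `δ^p = δ` are the integers. -/
theorem exists_nat_of_pow_eq {L : Type*} [Field L] [CharP L p] {δ : L} (h : δ ^ p = δ) :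
    ∃ n : ℕ, (n : L) = δ := by
  have h1 : δ ∈ (⊥ : Subfield L) := (Subfield.mem_bot_iff_pow_eq_self L p).2 h
  rw [← ZMod.fieldRange_castHom_eq_bot p (K := L)] at h1
  obtain ⟨z, hz⟩ := h1
  refine ⟨z.val, ?_⟩
  rw [← hz]
  simp

end basic

theorem irreducible_asPoly {p : ℕ} [hp : Fact p.Prime] {k : Type} [Field k] [CharP k p]
    (f : k[X]) (hdeg : ¬ p ∣ f.natDegree) : Irreducible (asPoly p f) := by
  classical
  have hp1 : 1 < p := hp.out.one_lt
  set K0 := RatFunc k with hK0
  set A : K0[X] := asPoly p f with hA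
  have hAm : A.Monic := monic_asPoly f
  have hAd : A.natDegree = p := natDegree_asPoly f
  have hA1 : A.natDegree ≠ 0 := by rw [hAd]; exact hp.out.ne_zero
  obtain ⟨h, hm, hirr, hdvd⟩ := exists_monic_irreducible_factor A
    (fun hu => hA1 (natDegree_eq_zero_of_isUnit hu))
  have hle : h.natDegree ≤ p := by rw [← hAd]; exact natDegree_le_of_dvd hdvd hAm.ne_zero
  have hpos : 0 < h.natDegree := hirr.natDegree_pos
  rcases hle.lt_or_eq with hlt | heq
  · exfalso
    have : CharP K0 p := charP_of_injective_algebraMap (algebraMap k K0).injective p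
    set L := AlgebraicClosure K0 with hL
    have : CharP L p := charP_of_injective_algebraMap (algebraMap K0 L).injective p
    set hL' := h.map (algebraMap K0 L) with hhL
    have hsplit : hL'.Splits := IsAlgClosed.splits _
    have hmL : hL'.Monic := hm.map _
    have hcard : Multiset.card hL'.roots = h.natDegree := by
      rw [← hsplit.natDegree_eq_card_roots, hhL, natDegree_map]
    have hsum : hL'.nextCoeff = -hL'.roots.sum :=
      hsplit.nextCoeff_eq_neg_sum_roots_of_monic hmL
    have hrootA : ∀ z ∈ hL'.roots, z ^ p - z = algebraMap K0 L (algebraMap k[X] K0 f) := by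
      intro z hz
      have h1 : IsRoot hL' z := (mem_roots hmL.ne_zero).1 hz
      have h2 : IsRoot (A.map (algebraMap K0 L)) z :=
        h1.dvd (Polynomial.map_dvd _ hdvd)
      have h3 : (A.map (algebraMap K0 L)).eval z = 0 := h2
      rw [hA] at h3
      simp only [asPoly, Polynomial.map_sub, Polynomial.map_pow, map_X, map_C, eval_sub, eval_pow,
        eval_X, eval_C] at h3
      linear_combination h3
    obtain ⟨w, hw⟩ : ∃ w, w ∈ hL'.roots := by
      apply Multiset.card_pos_iff_exists_mem.1
      rw [hcard]; exact hpos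
    have hdiff : ∀ z ∈ hL'.roots, z - w ∈ (algebraMap K0 L).range := by
      intro z hz
      have h1 : (z - w) ^ p = z - w := by
        rw [sub_pow_char]
        linear_combination hrootA z hz - hrootA w hw
      obtain ⟨n, hn⟩ := exists_nat_of_pow_eq (p := p) h1
      exact ⟨(n : K0), by rw [map_natCast, hn]⟩
    have hsum2 : (hL'.roots.map (fun z => z - w)).sum ∈ (algebraMap K0 L).range := by
      apply Subring.multiset_sum_mem
      intro a ha
      obtain ⟨z, hz, rfl⟩ := Multiset.mem_map.1 ha
      exact hdiff z hz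
    rw [Multiset.sum_map_sub, Multiset.map_id', Multiset.map_const', Multiset.sum_replicate,
      hcard] at hsum2
    have hsum3 : hL'.roots.sum ∈ (algebraMap K0 L).range := by
      have : hL'.roots.sum = -hL'.nextCoeff := by rw [hsum, neg_neg]
      rw [this, hhL, nextCoeff_map (algebraMap K0 L).injective]
      exact ⟨-h.nextCoeff, by simp⟩
    have h4 : h.natDegree • w ∈ (algebraMap K0 L).range := by
      have := Subring.sub_mem _ hsum3 hsum2
      rwa [sub_sub_cancel] at this
    obtain ⟨r, hr⟩ := h4
    have hd0 : ((h.natDegree : ℕ) : K0) ≠ 0 := by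
      rw [Ne, CharP.cast_eq_zero_iff K0 p]
      exact fun hd => absurd (Nat.le_of_dvd hpos hd) (by omega)
    have hw2 : w = algebraMap K0 L (r / (h.natDegree : K0)) := by
      rw [map_div₀, hr, map_natCast, nsmul_eq_mul]
      have : ((h.natDegree : ℕ) : L) ≠ 0 := by
        rw [← map_natCast (algebraMap K0 L)]
        exact (_root_.map_ne_zero _).2 hd0
      rw [mul_div_cancel_left₀ _ this]
    have h5 := hrootA w hw
    rw [hw2, ← map_pow, ← map_sub] at h5
    exact no_root f hdeg _ ((algebraMap K0 L).injective h5)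
  · have : A = h := by
      apply eq_of_monic_of_dvd_of_natDegree_le hm hAm hdvd
      rw [heq, hAd]
    rw [this]; exact hirr

end Pool.Agent.Helper94.AS
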