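import Pool.Agent.Helper94.AS.Defs

open Set Finset
open scoped Matrix

set_option linter.unusedSectionVars false

namespace Pool.AF

/-! ## AS-3 LINET: `φ t = trace (B * exp (-(t • W)))` for `B` positive definite, `W` symmetric

Derivatives: `hasDerivAt_exp_smul_const` (with a local norm on matrices, or entrywise), so
`φ' t = -trace (B * W * exp (-(t • W)))`, `φ'' t = trace (B * W * W * exp (-(t • W)))
= trace (B * (W exp (-(t/2) W)) * (W exp (-(t/2) W)))`, which is positive for `W ≠ 0`: for a
symmetric `S ≠ 0`, `trace (B * S * S) = trace (S * B * S) = ∑ (S e_i) ⬝ B (S e_i) > 0`. -/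

theorem trace_mul_sq_pos {d : ℕ} (B S : Matrix (Fin d) (Fin d) ℝ) (hB : B.PosDef) (hS : Sᵀ = S)
    (h0 : S ≠ 0) : 0 < (B * S * S).trace := by
  have h1 : (B * S * S).trace = ∑ i, (fun j => S j i) ⬝ᵥ (B *ᵥ (fun j => S j i)) := by
    rw [Matrix.trace_mul_cycle]
    change ∑ i, (S * B * S) i i = _
    refine Finset.sum_congr rfl fun i _ => ?_
    have h2 : ∀ j, S j i = S i j := by
      intro j
      conv_lhs => rw [← hS]
      rfl
    rw [Matrix.mul_assoc, Matrix.mul_apply]
    simp only [dotProduct, Matrix.mulVec, Matrix.mul_apply, h2]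
  have h3 : ∀ i, 0 ≤ (fun j => S j i) ⬝ᵥ (B *ᵥ (fun j => S j i)) := by
    intro i
    by_cases h : (fun j => S j i) = 0
    · rw [h]
      simp
    · have := hB.dotProduct_mulVec_pos h
      rw [star_trivial] at this
      exact this.le
  rw [h1]
  have h4 : ∃ i, (fun j => S j i) ≠ 0 := by
    by_contra hcon
    push Not at hcon
    apply h0
    ext j i
    exact congrFun (hcon i) j
  obtain ⟨i, hi⟩ := h4
  refine Finset.sum_pos' (fun i _ => h3 i) ⟨i, Finset.mem_univ i, ?_⟩
  have := hB.dotProduct_mulVec_pos hi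
  rw [star_trivial] at this
  exact this

private theorem LineT_aux {d : ℕ} (M W : Matrix (Fin d) (Fin d) ℝ) (t : ℝ) :
    HasDerivAt (fun s : ℝ => (M * NormedSpace.exp (s • W)).trace)
      ((M * (W * NormedSpace.exp (t • W))).trace) t := by
  open scoped Matrix.Norms.Operator in
  have h1 : HasDerivAt (fun s : ℝ => NormedSpace.exp (s • W)) (W * NormedSpace.exp (t • W)) t :=
    hasDerivAt_exp_smul_const' W t
  open scoped Matrix.Norms.Operator in
  have h2 := (LinearMap.toContinuousLinearMap
    ((Matrix.traceLinearMap (Fin d) ℝ ℝ).comp (LinearMap.mulLeft ℝ M))).hasFDerivAt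
    (x := NormedSpace.exp (t • W))
  exact h2.comp_hasDerivAt t h1

private theorem LineT_aux2 {d : ℕ} (M W : Matrix (Fin d) (Fin d) ℝ) (t : ℝ) :
    HasDerivAt (fun s : ℝ => (M * NormedSpace.exp (-(s • W))).trace)
      (-(M * W * NormedSpace.exp (-(t • W))).trace) t := by
  have h1 := LineT_aux M (-W) t
  have h2 : ∀ s : ℝ, s • (-W) = -(s • W) := fun s => smul_neg s W
  simp only [h2] at h1
  have h3 : -(M * W * NormedSpace.exp (-(t • W))).trace =
      (M * (-W * NormedSpace.exp (-(t • W)))).trace := by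
    rw [Matrix.neg_mul, Matrix.mul_neg, Matrix.trace_neg, Matrix.mul_assoc]
  rw [h3]
  exact h1

theorem line_deriv {d : ℕ} (B W : Matrix (Fin d) (Fin d) ℝ) (t : ℝ) :
    HasDerivAt (fun s : ℝ => (B * NormedSpace.exp (-(s • W))).trace)
      (-(B * W * NormedSpace.exp (-(t • W))).trace) t :=
  LineT_aux2 B W t

theorem line_deriv2 {d : ℕ} (B W : Matrix (Fin d) (Fin d) ℝ) (t : ℝ) :
    HasDerivAt (fun s : ℝ => -(B * W * NormedSpace.exp (-(s • W))).trace)
      ((B * W * W * NormedSpace.exp (-(t • W))).trace) t := by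
  have h1 := (LineT_aux2 (B * W) W t).neg
  rw [neg_neg] at h1
  exact h1

private theorem LineT_pos {d : ℕ} (B W : Matrix (Fin d) (Fin d) ℝ) (hB : B.PosDef) (hW : Wᵀ = W)
    (h0 : W ≠ 0) (t : ℝ) : 0 < (B * W * W * NormedSpace.exp (-(t • W))).trace := by
  set E : Matrix (Fin d) (Fin d) ℝ := NormedSpace.exp (-((t / 2) • W)) with hE
  have hEE : NormedSpace.exp (-(t • W)) = E * E := by
    rw [hE, ← Matrix.exp_add_of_commute _ _ (Commute.refl _)]
    congr 1
    rw [← neg_add, ← add_smul]
    congr 2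
    ring
  have hc : W * E = E * W := by
    have h1 : Commute W (-((t / 2) • W)) := ((Commute.refl W).smul_right _).neg_right
    exact (open scoped Matrix.Norms.Operator in h1.exp_right)
  have hEt : Eᵀ = E := by
    rw [hE, ← Matrix.exp_transpose, Matrix.transpose_neg, Matrix.transpose_smul, hW]
  have hS : (W * E)ᵀ = W * E := by
    rw [Matrix.transpose_mul, hEt, hW, hc]
  have hne : W * E ≠ 0 := by
    intro h
    apply h0
    have h1 : E * NormedSpace.exp ((t / 2) • W) = 1 := by
      have h5 : Commute (-((t / 2) • W)) ((t / 2) • W) := (Commute.refl ((t / 2) • W)).neg_left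
      rw [hE, ← Matrix.exp_add_of_commute _ _ h5, neg_add_cancel, NormedSpace.exp_zero]
    calc W = W * (E * NormedSpace.exp ((t / 2) • W)) := by rw [h1, Matrix.mul_one]
      _ = W * E * NormedSpace.exp ((t / 2) • W) := by rw [Matrix.mul_assoc]
      _ = 0 := by rw [h, Matrix.zero_mul]
  have h2 := trace_mul_sq_pos B (W * E) hB hS hne
  have h3 : B * W * W * NormedSpace.exp (-(t • W)) = B * (W * E) * (W * E) := by
    rw [hEE]
    have h4 : B * (W * E) * (W * E) = B * W * (E * W) * E := by
      simp only [Matrix.mul_assoc]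
    rw [h4, ← hc]
    simp only [Matrix.mul_assoc]
  rw [h3]
  exact h2

/-- Strict convexity. -/
theorem line_strict {d : ℕ} (B W : Matrix (Fin d) (Fin d) ℝ) (hB : B.PosDef) (hW : Wᵀ = W)
    (h0 : W ≠ 0)
    (hmin : ∀ t : ℝ, B.trace ≤ (B * NormedSpace.exp (-(t • W))).trace) :
    B.trace < (B * NormedSpace.exp (-W)).trace := by
  set φ : ℝ → ℝ := fun s => (B * NormedSpace.exp (-(s • W))).trace with hφ
  set φ' : ℝ → ℝ := fun s => -(B * W * NormedSpace.exp (-(s • W))).trace with hφ'
  have hφ0 : φ 0 = B.trace := by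
    simp only [hφ, zero_smul, neg_zero, NormedSpace.exp_zero, Matrix.mul_one]
  have hφ1 : φ 1 = (B * NormedSpace.exp (-W)).trace := by
    simp only [hφ, one_smul]
  have hd : ∀ t, HasDerivAt φ (φ' t) t := fun t => line_deriv B W t
  have hd2 : ∀ t, HasDerivAt φ' ((B * W * W * NormedSpace.exp (-(t • W))).trace) t :=
    fun t => line_deriv2 B W t
  have hmono : StrictMono φ' := by
    apply strictMono_of_deriv_pos
    intro t
    rw [(hd2 t).deriv]
    exact LineT_pos B W hB hW h0 t
  have hz : φ' 0 = 0 := by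
    have hm : IsLocalMin φ 0 := Filter.Eventually.of_forall (fun t => by
      rw [hφ0]
      exact hmin t)
    exact hm.hasDerivAt_eq_zero (hd 0)
  have hs : StrictMonoOn φ (Set.Ici 0) := by
    apply strictMonoOn_of_deriv_pos (convex_Ici 0)
      (fun s _ => (hd s).continuousAt.continuousWithinAt)
    intro s hs
    rw [interior_Ici] at hs
    rw [(hd s).deriv, ← hz]
    exact hmono (Set.mem_Ioi.1 hs)
  have h1 := hs (Set.mem_Ici.2 le_rfl) (Set.mem_Ici.2 zero_le_one) zero_lt_one
  rw [hφ0, hφ1] at h1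
  exact h1

end Pool.AF
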