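import Pool.Agent.Helper94.AS.Cont
import Pool.Agent.Helper94.AS.LineT
import Pool.Agent.Helper94.AS.ExpC
import Pool.Agent.Helper94.AS.ArgC

open Set Finset
open scoped Matrix

set_option linter.unusedSectionVars false

namespace Pool.AF

/-! ## AS-8 LOCP: the minimiser in coordinates is smooth at the points where it is zero

`F (a, y) = trace (A a * exp (-(b y)))` is a finite sum of products of linear functions and entries
of the exponential (`exp_entry_contDiff`). `p` is continuous at `a₀` by `argmin_tendsto` (apply it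
to `P A = b (p (e A))` for symmetric positive definite `A`). The second derivative along a line at
`p a₀ = 0` is `trace (A₀ W W) > 0` by `line_deriv`, `line_deriv2`, `trace_mul_sq_pos` (`W = b w`).
Apply `argmin_contDiffAt`. -/

private theorem coord_cont {d m : ℕ} (e : symS d ≃ₗ[ℝ] (Fin m → ℝ)) :
    Continuous fun a : Fin m → ℝ => ((e.symm a : symS d) : Matrix (Fin d) (Fin d) ℝ) := by
  have h : Continuous ((symS d).subtype ∘ₗ (e.symm : (Fin m → ℝ) →ₗ[ℝ] symS d)) :=
    LinearMap.continuous_of_finiteDimensional _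
  exact h

theorem isOpen_posDef_coord {d m : ℕ} (e : symS d ≃ₗ[ℝ] (Fin m → ℝ)) :
    IsOpen {a : Fin m → ℝ | ((e.symm a : symS d) : Matrix (Fin d) (Fin d) ℝ).PosDef} := by
  have hc := coord_cont e
  have hf : Continuous fun z : (Fin m → ℝ) × (Fin d → ℝ) =>
      z.2 ⬝ᵥ (((e.symm z.1 : symS d) : Matrix (Fin d) (Fin d) ℝ) *ᵥ z.2) := by
    have h1 : Continuous fun z : (Fin m → ℝ) × (Fin d → ℝ) =>
        ((e.symm z.1 : symS d) : Matrix (Fin d) (Fin d) ℝ) := hc.comp continuous_fst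
    exact continuous_snd.dotProduct (h1.matrix_mulVec continuous_snd)
  have hK : IsCompact (Metric.sphere (0 : Fin d → ℝ) 1) := isCompact_sphere _ _
  rw [isOpen_iff_mem_nhds]
  intro a₀ ha₀
  have ha₀' : ((e.symm a₀ : symS d) : Matrix (Fin d) (Fin d) ℝ).PosDef := ha₀
  have hev : ∀ᶠ a in nhds a₀, ∀ x ∈ Metric.sphere (0 : Fin d → ℝ) 1,
      0 < x ⬝ᵥ (((e.symm a : symS d) : Matrix (Fin d) (Fin d) ℝ) *ᵥ x) := by
    apply hK.eventually_forall_of_forall_eventually
    intro x hx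
    have hx0 : x ≠ 0 := by
      rintro rfl
      simp at hx
    have hpos : 0 < x ⬝ᵥ (((e.symm a₀ : symS d) : Matrix (Fin d) (Fin d) ℝ) *ᵥ x) := by
      have := ha₀'.dotProduct_mulVec_pos hx0
      simpa using this
    exact hf.continuousAt.eventually (lt_mem_nhds hpos)
  filter_upwards [hev] with a ha
  refine Matrix.PosDef.of_dotProduct_mulVec_pos ?_ ?_
  · have h1 : (((e.symm a : symS d) : Matrix (Fin d) (Fin d) ℝ))ᵀ =
        ((e.symm a : symS d) : Matrix (Fin d) (Fin d) ℝ) := mem_symS.1 (e.symm a).2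
    rw [Matrix.IsHermitian, Matrix.conjTranspose_eq_transpose_of_trivial]
    exact h1
  · intro x hx0
    have hn : 0 < ‖x‖ := norm_pos_iff.2 hx0
    have h2 := ha (‖x‖⁻¹ • x) (by
      rw [mem_sphere_zero_iff_norm, norm_smul, norm_inv, norm_norm, inv_mul_cancel₀ hn.ne'])
    rw [Matrix.mulVec_smul, dotProduct_smul, smul_dotProduct, smul_smul, smul_eq_mul] at h2
    have h3 : 0 < ‖x‖⁻¹ * ‖x‖⁻¹ := by positivity
    have h4 : 0 < x ⬝ᵥ (((e.symm a : symS d) : Matrix (Fin d) (Fin d) ℝ) *ᵥ x) :=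
      (mul_pos_iff_of_pos_left h3).1 h2
    simpa using h4

theorem argmin_coord {d m n : ℕ} (𝔭 : Submodule ℝ (Matrix (Fin d) (Fin d) ℝ))
    (h𝔭 : GeodSpace 𝔭) (e : symS d ≃ₗ[ℝ] (Fin m → ℝ)) (b : (Fin n → ℝ) ≃ₗ[ℝ] 𝔭)
    (p : (Fin m → ℝ) → (Fin n → ℝ))
    (hp : ∀ a, ((e.symm a : symS d) : Matrix (Fin d) (Fin d) ℝ).PosDef →
      IsArgmin 𝔭 ((e.symm a : symS d) : Matrix (Fin d) (Fin d) ℝ)
        ((b (p a) : 𝔭) : Matrix (Fin d) (Fin d) ℝ))
    (a₀ : Fin m → ℝ) (ha₀ : ((e.symm a₀ : symS d) : Matrix (Fin d) (Fin d) ℝ).PosDef)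
    (h0 : p a₀ = 0) : ContDiffAt ℝ 2 p a₀ := by
  classical
  let F : (Fin m → ℝ) × (Fin n → ℝ) → ℝ := fun z =>
    (((e.symm z.1 : symS d) : Matrix (Fin d) (Fin d) ℝ) *
      NormedSpace.exp (-((b z.2 : 𝔭) : Matrix (Fin d) (Fin d) ℝ))).trace
  have hF : ContDiff ℝ 4 F := by
    have hFe : F = fun z => ∑ i, ∑ j, (((e.symm z.1 : symS d) : Matrix (Fin d) (Fin d) ℝ) i j) *
        NormedSpace.exp (-((b z.2 : 𝔭) : Matrix (Fin d) (Fin d) ℝ)) j i := by
      funext z
      simp only [F, Matrix.trace, Matrix.diag, Matrix.mul_apply]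
    rw [hFe]
    refine ContDiff.sum fun i _ => ContDiff.sum fun j _ => ContDiff.mul ?_ ?_
    · let l : (Fin m → ℝ) →ₗ[ℝ] ℝ :=
        { toFun := fun a => ((e.symm a : symS d) : Matrix (Fin d) (Fin d) ℝ) i j
          map_add' := by
            intro x y
            rw [map_add]
            rfl
          map_smul' := by
            intro c x
            rw [map_smul]
            rfl }
      have hl : ContDiff ℝ 4 (LinearMap.toContinuousLinearMap l) :=
        ContinuousLinearMap.contDiff _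
      exact hl.comp contDiff_fst
    · let L : (Fin n → ℝ) →ₗ[ℝ] Matrix (Fin d) (Fin d) ℝ := -(𝔭.subtype ∘ₗ b.toLinearMap)
      have hL := exp_entry_contDiff L j i
      exact hL.comp contDiff_snd
  have hpc : ContinuousAt p a₀ := by
    let P : Matrix (Fin d) (Fin d) ℝ → Matrix (Fin d) (Fin d) ℝ := fun A =>
      ((b (p (e (toSym d A))) : 𝔭) : Matrix (Fin d) (Fin d) ℝ)
    have hPa : ∀ a, P ((e.symm a : symS d) : Matrix (Fin d) (Fin d) ℝ) =
        ((b (p a) : 𝔭) : Matrix (Fin d) (Fin d) ℝ) := by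
      intro a
      have h1 : toSym d ((e.symm a : symS d) : Matrix (Fin d) (Fin d) ℝ) = e.symm a := by
        apply Subtype.ext
        exact toSym_coe _ (mem_symS.1 (e.symm a).2)
      simp only [P]
      rw [h1, e.apply_symm_apply]
    have hP : ∀ A : Matrix (Fin d) (Fin d) ℝ, A.PosDef → IsArgmin 𝔭 A (P A) := by
      intro A hA
      have hAs : Aᵀ = A := by
        have := hA.isHermitian
        rwa [Matrix.IsHermitian, Matrix.conjTranspose_eq_transpose_of_trivial] at this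
      have h1 : ((e.symm (e (toSym d A)) : symS d) : Matrix (Fin d) (Fin d) ℝ) = A := by
        rw [e.symm_apply_apply]
        exact toSym_coe A hAs
      have h2 := hp (e (toSym d A)) (by rw [h1]; exact hA)
      rw [h1] at h2
      exact h2
    have ht := argmin_tendsto 𝔭 h𝔭 P hP _ ha₀
    have hw : Filter.Tendsto (fun a : Fin m → ℝ =>
        ((e.symm a : symS d) : Matrix (Fin d) (Fin d) ℝ)) (nhds a₀)
        (nhdsWithin ((e.symm a₀ : symS d) : Matrix (Fin d) (Fin d) ℝ)
          {A : Matrix (Fin d) (Fin d) ℝ | A.PosDef}) := by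
      rw [tendsto_nhdsWithin_iff]
      exact ⟨(coord_cont e).tendsto a₀, (isOpen_posDef_coord e).mem_nhds ha₀⟩
    have h3 := ht.comp hw
    have h4 : Filter.Tendsto (fun a => b (p a)) (nhds a₀) (nhds (b (p a₀))) := by
      rw [tendsto_subtype_rng]
      rw [hPa a₀] at h3
      refine h3.congr fun a => ?_
      exact hPa a
    have h5 : Continuous (b.symm : 𝔭 →ₗ[ℝ] (Fin n → ℝ)) :=
      LinearMap.continuous_of_finiteDimensional _
    have h6 := (h5.tendsto (b (p a₀))).comp h4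
    have h7 : Filter.Tendsto p (nhds a₀) (nhds (p a₀)) := by
      have e1 : (b.symm : 𝔭 →ₗ[ℝ] (Fin n → ℝ)) (b (p a₀)) = p a₀ := b.symm_apply_apply _
      rw [e1] at h6
      refine h6.congr fun a => ?_
      exact b.symm_apply_apply _
    exact h7
  have hmin : ∀ᶠ a in nhds a₀, ∀ y, F (a, p a) ≤ F (a, y) := by
    filter_upwards [(isOpen_posDef_coord e).mem_nhds ha₀] with a ha y
    have h1 := hp a ha
    by_cases hy : ((b y : 𝔭) : Matrix (Fin d) (Fin d) ℝ) = ((b (p a) : 𝔭) : Matrix (Fin d) (Fin d) ℝ)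
    · simp only [F]
      rw [hy]
    · exact (h1.2 _ (b y).2 hy).le
  refine argmin_contDiffAt F hF p a₀ hpc hmin ?_
  intro w hw
  set A₀ : Matrix (Fin d) (Fin d) ℝ := ((e.symm a₀ : symS d) : Matrix (Fin d) (Fin d) ℝ) with hA₀
  set W : Matrix (Fin d) (Fin d) ℝ := ((b w : 𝔭) : Matrix (Fin d) (Fin d) ℝ) with hW
  have hWs : Wᵀ = W := h𝔭.symm _ (b w).2
  have hW0 : W ≠ 0 := by
    intro h
    apply hw
    have h1 : b w = 0 := Subtype.ext h
    exact (map_eq_zero_iff b b.injective).1 h1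
  have hfun : (fun s : ℝ => F (a₀, p a₀ + s • w)) =
      fun s : ℝ => (A₀ * NormedSpace.exp (-(s • W))).trace := by
    funext s
    simp only [F]
    rw [h0, zero_add, map_smul]
    rfl
  refine ⟨fun s => -(A₀ * W * NormedSpace.exp (-(s • W))).trace,
    (A₀ * W * W * NormedSpace.exp (-((0 : ℝ) • W))).trace, ?_, ?_, ?_⟩
  · rw [zero_smul, neg_zero, NormedSpace.exp_zero, mul_one]
    exact (trace_mul_sq_pos A₀ W ha₀ hWs hW0).ne'
  · intro s
    rw [hfun]
    exact line_deriv A₀ W s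
  · exact line_deriv2 A₀ W 0

end Pool.AF
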