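import Pool.Agent.Helper94.AS.Defs

open Set Finset
open scoped Matrix

set_option linter.unusedSectionVars false

namespace Pool.AF

/-! ## AS-11 POSCONE: the cone of positive definite matrices

`conjRep e σ g = e ∘ (X ↦ σ g * X * (σ g)ᵀ) ∘ e⁻¹`. -/

/-- The action on symmetric matrices, in coordinates. -/
noncomputable def conjRep {G : Type*} [Group G] {d m : ℕ} (e : symS d ≃ₗ[ℝ] (Fin m → ℝ))
    (σ : G →* ((Fin d → ℝ) →ₗ[ℝ] (Fin d → ℝ))) :
    G →* ((Fin m → ℝ) →ₗ[ℝ] (Fin m → ℝ)) where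
  toFun g :=
    { toFun := fun a => e ⟨LinearMap.toMatrix' (σ g) *
          ((e.symm a : symS d) : Matrix (Fin d) (Fin d) ℝ) * (LinearMap.toMatrix' (σ g))ᵀ, by
        rw [mem_symS, Matrix.transpose_mul, Matrix.transpose_mul, Matrix.transpose_transpose,
          mem_symS.mp (e.symm a).2, Matrix.mul_assoc]⟩
      map_add' := fun a a' => by
        rw [← map_add]
        congr 1
        apply Subtype.ext
        rw [map_add]
        simp only [Submodule.coe_add, Matrix.mul_add, Matrix.add_mul]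
      map_smul' := fun c a => by
        rw [RingHom.id_apply, ← map_smul]
        congr 1
        apply Subtype.ext
        rw [map_smul]
        simp only [SetLike.val_smul, Matrix.mul_smul, Matrix.smul_mul] }
  map_one' := by
    apply LinearMap.ext
    intro a
    simp
  map_mul' g h := by
    apply LinearMap.ext
    intro a
    simp only [LinearMap.coe_mk, AddHom.coe_mk, map_mul, LinearMap.toMatrix'_mul,
      Matrix.transpose_mul, Module.End.mul_apply, LinearEquiv.symm_apply_apply]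
    congr 1
    apply Subtype.ext
    simp only [Matrix.mul_assoc]

theorem conjRep_apply {G : Type*} [Group G] {d m : ℕ} (e : symS d ≃ₗ[ℝ] (Fin m → ℝ))
    (σ : G →* ((Fin d → ℝ) →ₗ[ℝ] (Fin d → ℝ))) (g : G) (a : Fin m → ℝ) :
    ((e.symm (conjRep e σ g a) : symS d) : Matrix (Fin d) (Fin d) ℝ) =
      LinearMap.toMatrix' (σ g) * ((e.symm a : symS d) : Matrix (Fin d) (Fin d) ℝ) *
        (LinearMap.toMatrix' (σ g))ᵀ := by
  change ((e.symm (e _) : symS d) : Matrix (Fin d) (Fin d) ℝ) = _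
  rw [LinearEquiv.symm_apply_apply]

section aux

private theorem pd_iff {d : ℕ} (A : Matrix (Fin d) (Fin d) ℝ) (hA : Aᵀ = A) :
    A.PosDef ↔ ∀ v : Fin d → ℝ, v ≠ 0 → 0 < v ⬝ᵥ (A *ᵥ v) := by
  rw [Matrix.posDef_iff_dotProduct_mulVec]
  constructor
  · intro h v hv
    have := h.2 hv
    rwa [star_trivial] at this
  · intro h
    refine ⟨?_, ?_⟩
    · rw [Matrix.IsHermitian, Matrix.conjTranspose_eq_transpose_of_trivial, hA]
    · intro v hv
      rw [star_trivial]
      exact h v hv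

private theorem pd_iff_sphere {d : ℕ} (A : Matrix (Fin d) (Fin d) ℝ) (hA : Aᵀ = A) :
    A.PosDef ↔ ∀ v ∈ Metric.sphere (0 : Fin d → ℝ) 1, 0 < v ⬝ᵥ (A *ᵥ v) := by
  rw [pd_iff A hA]
  constructor
  · intro h v hv
    refine h v ?_
    intro h0
    rw [h0, mem_sphere_zero_iff_norm, norm_zero] at hv
    exact zero_ne_one hv
  · intro h v hv
    have hn : 0 < ‖v‖ := norm_pos_iff.2 hv
    have h1 := h (‖v‖⁻¹ • v) (by
      rw [mem_sphere_zero_iff_norm, norm_smul, norm_inv, norm_norm, inv_mul_cancel₀ hn.ne'])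
    rw [Matrix.mulVec_smul, smul_dotProduct, dotProduct_smul, smul_eq_mul, smul_eq_mul] at h1
    have h2 : 0 < ‖v‖⁻¹ := inv_pos.2 hn
    exact pos_of_mul_pos_right (pos_of_mul_pos_right h1 h2.le) h2.le

private theorem exists_quad_ne {d : ℕ} (A : Matrix (Fin d) (Fin d) ℝ) (hA : Aᵀ = A)
    (hne : A ≠ 0) : ∃ w : Fin d → ℝ, w ⬝ᵥ (A *ᵥ w) ≠ 0 := by
  by_contra hcon
  push Not at hcon
  apply hne
  ext i j
  have hsym : ∀ x y : Fin d → ℝ, y ⬝ᵥ (A *ᵥ x) = x ⬝ᵥ (A *ᵥ y) := by
    intro x y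
    rw [Matrix.dotProduct_mulVec, ← Matrix.mulVec_transpose, hA, dotProduct_comm]
  have h1 : ∀ x y : Fin d → ℝ, x ⬝ᵥ (A *ᵥ y) = 0 := by
    intro x y
    have h2 := hcon (x + y)
    rw [Matrix.mulVec_add, dotProduct_add, add_dotProduct, add_dotProduct, hcon x, hcon y,
      hsym x y] at h2
    linarith
  have h3 := h1 (Pi.single i 1) (Pi.single j 1)
  rw [Matrix.mulVec_single_one, single_one_dotProduct] at h3
  exact h3

private noncomputable def am {d m : ℕ} (e : symS d ≃ₗ[ℝ] (Fin m → ℝ)) :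
    (Fin m → ℝ) →ₗ[ℝ] Matrix (Fin d) (Fin d) ℝ := (symS d).subtype ∘ₗ e.symm.toLinearMap

private theorem am_apply {d m : ℕ} (e : symS d ≃ₗ[ℝ] (Fin m → ℝ)) (a : Fin m → ℝ) :
    am e a = ((e.symm a : symS d) : Matrix (Fin d) (Fin d) ℝ) := rfl

private theorem am_symm {d m : ℕ} (e : symS d ≃ₗ[ℝ] (Fin m → ℝ)) (a : Fin m → ℝ) :
    (am e a)ᵀ = am e a := (e.symm a).2

private theorem toM_mul_inv {G : Type*} [Group G] {d : ℕ}
    (σ : G →* ((Fin d → ℝ) →ₗ[ℝ] (Fin d → ℝ))) (g : G) :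
    LinearMap.toMatrix' (σ g) * LinearMap.toMatrix' (σ g⁻¹) = 1 := by
  rw [← LinearMap.toMatrix'_mul, ← map_mul, mul_inv_cancel, map_one, LinearMap.toMatrix'_one]

end aux

/-- The positive definite matrices form a cone without lines (`d > 0` is not needed for the
statement, but `m = d (d + 1) / 2` is positive only then). Openness: `isOpen` in coordinates, e.g.
from the continuity of the least value of `v ⬝ᵥ A *ᵥ v` on the unit sphere. No line: if
`A + t V` is positive definite for all `t` then `v ⬝ᵥ V *ᵥ v = 0` for all `v`. -/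
theorem sharp_posDef {G : Type*} [Group G] {d m : ℕ} (e : symS d ≃ₗ[ℝ] (Fin m → ℝ))
    (σ : G →* ((Fin d → ℝ) →ₗ[ℝ] (Fin d → ℝ))) :
    SharpCone (conjRep e σ)
      {a : Fin m → ℝ | ((e.symm a : symS d) : Matrix (Fin d) (Fin d) ℝ).PosDef} := by
  have h1S : (1 : Matrix (Fin d) (Fin d) ℝ) ∈ symS d := by
    rw [mem_symS, Matrix.transpose_one]
  have he1 : am e (e ⟨1, h1S⟩) = 1 := by
    rw [am_apply, LinearEquiv.symm_apply_apply]
  refine ⟨?_, ?_, ?_, ?_, ?_, ?_⟩
  · rw [isOpen_iff_mem_nhds]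
    intro a ha
    have hK : IsCompact (Metric.sphere (0 : Fin d → ℝ) 1) := isCompact_sphere _ _
    have hc : Continuous (am e) := LinearMap.continuous_of_finiteDimensional _
    have h1 : ∀ᶠ x in nhds a, ∀ y ∈ Metric.sphere (0 : Fin d → ℝ) 1,
        0 < y ⬝ᵥ ((am e x) *ᵥ y) := by
      apply hK.eventually_forall_of_forall_eventually
      intro y hy
      have h2 : Continuous fun z : (Fin m → ℝ) × (Fin d → ℝ) => z.2 ⬝ᵥ ((am e z.1) *ᵥ z.2) :=
        continuous_snd.dotProduct ((hc.comp continuous_fst).matrix_mulVec continuous_snd)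
      have h3 : (0 : ℝ) < y ⬝ᵥ ((am e a) *ᵥ y) := (pd_iff_sphere _ (am_symm e a)).1 ha y hy
      exact (isOpen_lt continuous_const h2).mem_nhds h3
    filter_upwards [h1] with x hx
    exact (pd_iff_sphere _ (am_symm e x)).2 hx
  · intro a ha b hb s t hs ht hst
    have ha' : ∀ v : Fin d → ℝ, v ≠ 0 → 0 < v ⬝ᵥ ((am e a) *ᵥ v) :=
      (pd_iff _ (am_symm e a)).1 ha
    have hb' : ∀ v : Fin d → ℝ, v ≠ 0 → 0 < v ⬝ᵥ ((am e b) *ᵥ v) :=
      (pd_iff _ (am_symm e b)).1 hb
    refine (pd_iff _ (am_symm e _)).2 ?_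
    intro v hv
    have h1 := ha' v hv
    have h2 := hb' v hv
    rw [map_add, map_smul, map_smul, Matrix.add_mulVec, Matrix.smul_mulVec, Matrix.smul_mulVec,
      dotProduct_add, dotProduct_smul, dotProduct_smul, smul_eq_mul, smul_eq_mul]
    rcases hs.eq_or_lt with h0 | h0
    · rw [← h0, zero_add] at hst
      rw [← h0, hst, zero_mul, zero_add, one_mul]
      exact h2
    · have := mul_pos h0 h1
      have := mul_nonneg ht h2.le
      linarith
  · exact ⟨e ⟨1, h1S⟩, by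
      change (am e (e ⟨1, h1S⟩)).PosDef
      rw [he1]
      exact Matrix.PosDef.one⟩
  · intro a ha t ht
    have ha' : ∀ v : Fin d → ℝ, v ≠ 0 → 0 < v ⬝ᵥ ((am e a) *ᵥ v) :=
      (pd_iff _ (am_symm e a)).1 ha
    refine (pd_iff _ (am_symm e _)).2 ?_
    intro v hv
    rw [map_smul, Matrix.smul_mulVec, dotProduct_smul, smul_eq_mul]
    exact mul_pos ht (ha' v hv)
  · intro v hv
    have hne : am e v ≠ 0 := by
      intro h0
      apply hv
      have h1 : e.symm v = 0 := Subtype.ext h0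
      rwa [LinearEquiv.map_eq_zero_iff] at h1
    obtain ⟨w, hw⟩ := exists_quad_ne _ (am_symm e v) hne
    refine ⟨e ⟨1, h1S⟩, ?_, -(w ⬝ᵥ w + 1) / (w ⬝ᵥ ((am e v) *ᵥ w)), ?_⟩
    · change (am e (e ⟨1, h1S⟩)).PosDef
      rw [he1]
      exact Matrix.PosDef.one
    · intro hcon
      have hw0 : w ≠ 0 := by
        intro h0
        apply hw
        rw [h0, zero_dotProduct]
      have h1 := (pd_iff _ (am_symm e _)).1 hcon w hw0
      rw [map_add, map_smul, he1, Matrix.add_mulVec, Matrix.smul_mulVec, Matrix.one_mulVec,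
        dotProduct_add, dotProduct_smul, smul_eq_mul, div_mul_cancel₀ _ hw] at h1
      linarith
  · intro g a ha
    have ha' : ∀ v : Fin d → ℝ, v ≠ 0 → 0 < v ⬝ᵥ ((am e a) *ᵥ v) :=
      (pd_iff _ (am_symm e a)).1 ha
    refine (pd_iff _ (am_symm e _)).2 ?_
    intro v hv
    rw [am_apply, conjRep_apply, ← am_apply, ← Matrix.mulVec_mulVec, ← Matrix.mulVec_mulVec,
      Matrix.dotProduct_mulVec, ← Matrix.mulVec_transpose]
    apply ha'
    intro h0
    apply hv
    have h1 : (LinearMap.toMatrix' (σ g⁻¹))ᵀ *ᵥ ((LinearMap.toMatrix' (σ g))ᵀ *ᵥ v) = v := by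
      rw [Matrix.mulVec_mulVec, ← Matrix.transpose_mul, toM_mul_inv, Matrix.transpose_one,
        Matrix.one_mulVec]
    rw [← h1, h0, Matrix.mulVec_zero]

/-- Boundedness up to scalars of the action on symmetric matrices gives that of `σ`: apply it to
the coordinates of the identity matrix, `trace (t σ(g) σ(g)ᵀ)` is bounded, so are the entries of
`√t σ(g)`; the same for `g⁻¹` with `t⁻¹`. -/
theorem scalBdd_conjRep {G : Type*} [Group G] {d m : ℕ} (e : symS d ≃ₗ[ℝ] (Fin m → ℝ))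
    (σ : G →* ((Fin d → ℝ) →ₗ[ℝ] (Fin d → ℝ))) (R : ℝ) :
    ∃ R' : ℝ, ∀ g, ScalBdd (conjRep e σ) R g → ScalBdd σ R' g := by
  have h1S : (1 : Matrix (Fin d) (Fin d) ℝ) ∈ symS d := by
    rw [mem_symS, Matrix.transpose_one]
  have he1 : am e (e ⟨1, h1S⟩) = 1 := by
    rw [am_apply, LinearEquiv.symm_apply_apply]
  -- the entries are bounded by the norm of the coordinates
  obtain ⟨C, hC0, hC⟩ : ∃ C : ℝ, 0 ≤ C ∧ ∀ a i j, |am e a i j| ≤ C * ‖a‖ := by
    let f : (Fin m → ℝ) →ₗ[ℝ] (Fin d → Fin d → ℝ) :=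
      { toFun := fun a i j => am e a i j
        map_add' := fun a b => by
          funext i j
          rw [map_add]
          rfl
        map_smul' := fun c a => by
          funext i j
          rw [map_smul]
          rfl }
    let F := LinearMap.toContinuousLinearMap f
    refine ⟨‖F‖, norm_nonneg _, ?_⟩
    intro a i j
    have h1 : ‖f a‖ ≤ ‖F‖ * ‖a‖ := F.le_opNorm a
    have h2 : ‖f a i j‖ ≤ ‖f a‖ := (norm_le_pi_norm (f a i) j).trans (norm_le_pi_norm (f a) i)
    exact h2.trans h1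
  set B : ℝ := C * (R * ‖e ⟨1, h1S⟩‖) with hB
  -- the key estimate
  have key : ∀ (g : G) (t : ℝ), 0 < t → ‖t • conjRep e σ g (e ⟨1, h1S⟩)‖ ≤ R * ‖e ⟨1, h1S⟩‖ →
      ∀ v, ‖Real.sqrt t • σ g v‖ ≤ (d : ℝ) * Real.sqrt B * ‖v‖ := by
    intro g t ht hg v
    set M := LinearMap.toMatrix' (σ g) with hM
    have h1 : ∀ i, t * ∑ j, M i j ^ 2 ≤ B := by
      intro i
      have h2 := hC (t • conjRep e σ g (e ⟨1, h1S⟩)) i i
      have h3 : am e (t • conjRep e σ g (e ⟨1, h1S⟩)) = t • (M * Mᵀ) := by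
        rw [map_smul, am_apply e (conjRep e σ g (e ⟨1, h1S⟩)), conjRep_apply, ← am_apply, he1,
          Matrix.mul_one]
      rw [h3] at h2
      have h4 : (t • (M * Mᵀ)) i i = t * ∑ j, M i j ^ 2 := by
        rw [Matrix.smul_apply, smul_eq_mul, Matrix.mul_apply]
        congr 1
        refine Finset.sum_congr rfl fun j _ => ?_
        rw [Matrix.transpose_apply, pow_two]
      rw [h4] at h2
      exact (le_abs_self _).trans (h2.trans (mul_le_mul_of_nonneg_left hg hC0))
    have h5 : ∀ i j, |Real.sqrt t * M i j| ≤ Real.sqrt B := by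
      intro i j
      apply Real.abs_le_sqrt
      rw [mul_pow, Real.sq_sqrt ht.le]
      refine le_trans ?_ (h1 i)
      exact mul_le_mul_of_nonneg_left
        (Finset.single_le_sum (f := fun j => M i j ^ 2) (fun k _ => sq_nonneg _)
          (Finset.mem_univ j)) ht.le
    have h6 : ∀ i, (σ g v) i = ∑ j, M i j * v j := by
      intro i
      have h7 : M *ᵥ v = σ g v := by
        rw [hM, ← Matrix.toLin'_apply, Matrix.toLin'_toMatrix']
      rw [← h7]
      rfl
    rw [pi_norm_le_iff_of_nonneg (by positivity)]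
    intro i
    rw [Pi.smul_apply, smul_eq_mul, h6 i, Finset.mul_sum, Real.norm_eq_abs]
    refine (Finset.abs_sum_le_sum_abs _ _).trans ?_
    have h8 : ∀ j ∈ Finset.univ, |Real.sqrt t * (M i j * v j)| ≤ Real.sqrt B * ‖v‖ := by
      intro j _
      rw [← mul_assoc, abs_mul]
      exact mul_le_mul (h5 i j) (norm_le_pi_norm v j) (abs_nonneg _) (Real.sqrt_nonneg _)
    refine (Finset.sum_le_sum h8).trans ?_
    rw [Finset.sum_const, Finset.card_univ, Fintype.card_fin, nsmul_eq_mul, mul_assoc]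
  refine ⟨(d : ℝ) * Real.sqrt B, ?_⟩
  rintro g ⟨t, ht, hg⟩
  refine ⟨Real.sqrt t, Real.sqrt_pos.2 ht, ?_⟩
  intro v
  refine ⟨key g t ht (hg _).1 v, ?_⟩
  rw [← Real.sqrt_inv]
  exact key g⁻¹ t⁻¹ (inv_pos.2 ht) (hg _).2 v

end Pool.AF
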