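import Pool.Agent.Helper94.AS.ExpSym
import Pool.Agent.Helper94.AS.Coer
import Pool.Agent.Helper94.AS.LineT

open Set Finset
open scoped Matrix

set_option linter.unusedSectionVars false

namespace Pool.AF

/-! ## AS-4 MIN: existence and uniqueness of the minimiser

Existence: `Y ↦ trace (A exp (-Y))` is continuous on the finite-dimensional space `𝔭` and its
sublevel sets are bounded (`posDef_lower`, `trace_coer`). Uniqueness: let `Y` be a minimiser,
`W ∈ 𝔭`, `W ≠ Y`, `g = exp (Y / 2)`. By `geod` (with `X = -Y / 2`)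
`exp (-Y/2) exp W exp (-Y/2) = exp Z`, `Z ∈ 𝔭`, `Z ≠ 0` by `exp_inj`, so `exp W = g exp Z g`; for
every `t`, `g exp (t Z) g = exp W_t` with `W_t ∈ 𝔭`. With `B = g⁻¹ A g⁻¹` positive definite,
`trace (A exp (-W_t)) = trace (B exp (-(t Z)))` (inverse matrices, `Matrix.exp_neg`), and
`line_strict` gives the claim. -/

section
open scoped Matrix.Norms.Operator
private theorem min_cont_exp (d : ℕ) :
    Continuous (fun X : Matrix (Fin d) (Fin d) ℝ => NormedSpace.exp X) :=
  NormedSpace.exp_continuous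
end

private theorem min_exp_mul_neg {d : ℕ} (X : Matrix (Fin d) (Fin d) ℝ) :
    NormedSpace.exp X * NormedSpace.exp (-X) = 1 := by
  rw [Matrix.exp_neg]
  exact Matrix.mul_nonsing_inv _ ((Matrix.isUnit_iff_isUnit_det _).mp (Matrix.isUnit_exp X))

private theorem min_exp_neg_mul {d : ℕ} (X : Matrix (Fin d) (Fin d) ℝ) :
    NormedSpace.exp (-X) * NormedSpace.exp X = 1 := by
  have h := min_exp_mul_neg (-X)
  rwa [neg_neg] at h

/-- if `exp W = a * exp Z * a` with `a = exp V`, then `exp (-W) = exp (-V) exp (-Z) exp (-V)` -/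
private theorem min_inv {d : ℕ} (V W Z : Matrix (Fin d) (Fin d) ℝ)
    (h : NormedSpace.exp V * NormedSpace.exp Z * NormedSpace.exp V = NormedSpace.exp W) :
    NormedSpace.exp (-W) =
      NormedSpace.exp (-V) * NormedSpace.exp (-Z) * NormedSpace.exp (-V) := by
  have h1 : NormedSpace.exp W * (NormedSpace.exp (-V) * NormedSpace.exp (-Z) *
      NormedSpace.exp (-V)) = 1 := by
    rw [← h]
    calc NormedSpace.exp V * NormedSpace.exp Z * NormedSpace.exp V *
        (NormedSpace.exp (-V) * NormedSpace.exp (-Z) * NormedSpace.exp (-V))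
        = NormedSpace.exp V * NormedSpace.exp Z * (NormedSpace.exp V * NormedSpace.exp (-V)) *
            NormedSpace.exp (-Z) * NormedSpace.exp (-V) := by simp only [Matrix.mul_assoc]
      _ = NormedSpace.exp V * (NormedSpace.exp Z * NormedSpace.exp (-Z)) *
            NormedSpace.exp (-V) := by
          rw [min_exp_mul_neg V]
          simp only [Matrix.mul_assoc, Matrix.mul_one]
      _ = 1 := by
          rw [min_exp_mul_neg Z, Matrix.mul_one, min_exp_mul_neg V]
  calc NormedSpace.exp (-W) = NormedSpace.exp (-W) * (NormedSpace.exp W *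
        (NormedSpace.exp (-V) * NormedSpace.exp (-Z) * NormedSpace.exp (-V))) := by
        rw [h1, Matrix.mul_one]
    _ = (NormedSpace.exp (-W) * NormedSpace.exp W) *
        (NormedSpace.exp (-V) * NormedSpace.exp (-Z) * NormedSpace.exp (-V)) := by
        simp only [Matrix.mul_assoc]
    _ = _ := by rw [min_exp_neg_mul, Matrix.one_mul]

private theorem min_half {d : ℕ} (Y : Matrix (Fin d) (Fin d) ℝ) :
    NormedSpace.exp ((1 / 2 : ℝ) • Y) * NormedSpace.exp ((1 / 2 : ℝ) • Y) =
      NormedSpace.exp Y := by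
  rw [← Matrix.exp_add_of_commute _ _ (Commute.refl _), ← add_smul]
  norm_num

private theorem min_exists {d : ℕ} (𝔭 : Submodule ℝ (Matrix (Fin d) (Fin d) ℝ))
    (h𝔭 : GeodSpace 𝔭) (A : Matrix (Fin d) (Fin d) ℝ) (hA : A.PosDef) :
    ∃ Y ∈ 𝔭, ∀ W ∈ 𝔭,
      (A * NormedSpace.exp (-Y)).trace ≤ (A * NormedSpace.exp (-W)).trace := by
  obtain ⟨lam, hlam, hev⟩ := posDef_lower A hA
  have hA2 := hev.self_of_nhds
  have hAt : Aᵀ = A := by
    have := hA.isHermitian
    rwa [Matrix.IsHermitian, Matrix.conjTranspose_eq_transpose_of_trivial] at this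
  set f : Matrix (Fin d) (Fin d) ℝ → ℝ := fun Y => (A * NormedSpace.exp (-Y)).trace with hf
  have hfc : Continuous f := by
    have h1 : Continuous fun Y : Matrix (Fin d) (Fin d) ℝ => NormedSpace.exp (-Y) :=
      (min_cont_exp d).comp continuous_neg
    exact (continuous_const.matrix_mul h1).matrix_trace
  set C : ℝ := 2 * f 0 / lam with hC
  set K : Set (Matrix (Fin d) (Fin d) ℝ) :=
    Set.pi Set.univ (fun _ : Fin d => Set.pi Set.univ (fun _ : Fin d => Set.Icc (-C) C)) with hK
  have hKc : IsCompact K := isCompact_univ_pi fun _ => isCompact_univ_pi fun _ => isCompact_Icc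
  have hcl : IsClosed (𝔭 : Set (Matrix (Fin d) (Fin d) ℝ)) := 𝔭.closed_of_finiteDimensional
  set S : Set (Matrix (Fin d) (Fin d) ℝ) := (K ∩ 𝔭) ∩ {Y | f Y ≤ f 0} with hS
  have hSc : IsCompact S := (hKc.inter_right hcl).inter_right (isClosed_le hfc continuous_const)
  have hin : ∀ W ∈ 𝔭, f W ≤ f 0 → W ∈ S := by
    intro W hW hWf
    refine ⟨⟨?_, hW⟩, hWf⟩
    intro i _ j _
    have h1 := trace_coer A W lam hlam hAt hA2 (h𝔭.symm W hW) (h𝔭.trace W hW) i j
    have h2 : lam * |W i j| ≤ 2 * f 0 := h1.trans (by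
      have : (A * NormedSpace.exp (-W)).trace ≤ f 0 := hWf
      linarith)
    have h3 : |W i j| ≤ C := by
      rw [hC, le_div_iff₀ hlam]
      linarith [mul_comm lam |W i j|]
    exact ⟨(abs_le.mp h3).1, (abs_le.mp h3).2⟩
  have h0 : (0 : Matrix (Fin d) (Fin d) ℝ) ∈ S := hin 0 𝔭.zero_mem le_rfl
  obtain ⟨Y, hY, hmin⟩ := hSc.exists_isMinOn ⟨0, h0⟩ hfc.continuousOn
  refine ⟨Y, hY.1.2, fun W hW => ?_⟩
  rcases le_total (f W) (f 0) with h | h
  · exact hmin (hin W hW h)
  · exact (show f Y ≤ f 0 from hmin h0).trans h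

theorem exists_argmin {d : ℕ} (𝔭 : Submodule ℝ (Matrix (Fin d) (Fin d) ℝ)) (h𝔭 : GeodSpace 𝔭)
    (A : Matrix (Fin d) (Fin d) ℝ) (hA : A.PosDef) : ∃ Y, IsArgmin 𝔭 A Y := by
  obtain ⟨Y, hY, hmin⟩ := min_exists 𝔭 h𝔭 A hA
  refine ⟨Y, hY, fun W hW hne => ?_⟩
  -- V = Y / 2
  set V : Matrix (Fin d) (Fin d) ℝ := (1 / 2 : ℝ) • Y with hV
  have hVp : V ∈ 𝔭 := 𝔭.smul_mem _ hY
  have hVt : Vᵀ = V := h𝔭.symm V hVp
  have hYt : Yᵀ = Y := h𝔭.symm Y hY
  have hWt : Wᵀ = W := h𝔭.symm W hW
  have hVV : NormedSpace.exp V * NormedSpace.exp V = NormedSpace.exp Y := min_half Y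
  have hVV' : NormedSpace.exp (-V) * NormedSpace.exp (-V) = NormedSpace.exp (-Y) := by
    have := min_half (-Y)
    rwa [smul_neg] at this
  obtain ⟨Z, hZ, hZe⟩ := h𝔭.geod (-V) (𝔭.neg_mem hVp) W hW
  have hZt : Zᵀ = Z := h𝔭.symm Z hZ
  have hZ0 : Z ≠ 0 := by
    intro h0
    rw [h0, NormedSpace.exp_zero] at hZe
    apply hne
    apply exp_inj W Y hWt hYt
    have h1 : NormedSpace.exp V * (NormedSpace.exp (-V) * NormedSpace.exp W *
        NormedSpace.exp (-V)) * NormedSpace.exp V = NormedSpace.exp W := by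
      calc NormedSpace.exp V * (NormedSpace.exp (-V) * NormedSpace.exp W *
            NormedSpace.exp (-V)) * NormedSpace.exp V
          = (NormedSpace.exp V * NormedSpace.exp (-V)) * NormedSpace.exp W *
            (NormedSpace.exp (-V) * NormedSpace.exp V) := by simp only [Matrix.mul_assoc]
        _ = NormedSpace.exp W := by
            rw [min_exp_mul_neg, min_exp_neg_mul, Matrix.one_mul, Matrix.mul_one]
    rw [← h1, hZe, Matrix.mul_one, hVV]
  set B : Matrix (Fin d) (Fin d) ℝ := NormedSpace.exp (-V) * A * NormedSpace.exp (-V) with hB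
  have hgt : (NormedSpace.exp (-V))ᵀ = NormedSpace.exp (-V) := by
    rw [← Matrix.exp_transpose, Matrix.transpose_neg, hVt]
  have hBpos : B.PosDef := by
    have hu : IsUnit (NormedSpace.exp (-V)) := Matrix.isUnit_exp _
    have h1 := (Matrix.IsUnit.posDef_star_left_conjugate_iff hu (x := A)).mpr hA
    rw [Matrix.star_eq_conjTranspose, Matrix.conjTranspose_eq_transpose_of_trivial, hgt] at h1
    exact h1
  -- the trace identity
  have htr : ∀ M : Matrix (Fin d) (Fin d) ℝ,
      (B * M).trace = (A * (NormedSpace.exp (-V) * M * NormedSpace.exp (-V))).trace := by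
    intro M
    rw [hB, Matrix.trace_mul_comm A, Matrix.mul_assoc (NormedSpace.exp (-V)) A,
      Matrix.mul_assoc, Matrix.trace_mul_comm, Matrix.mul_assoc,
      Matrix.trace_mul_comm (NormedSpace.exp (-V) * M * NormedSpace.exp (-V)) A]
    simp only [Matrix.mul_assoc]
  have hBY : B.trace = (A * NormedSpace.exp (-Y)).trace := by
    have := htr 1
    rw [Matrix.mul_one, Matrix.mul_one, hVV'] at this
    exact this
  have hline := line_strict B Z hBpos hZt hZ0 (by
    intro t
    obtain ⟨Wt, hWt', hWte⟩ := h𝔭.geod V hVp (t • Z) (𝔭.smul_mem t hZ)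
    rw [htr, ← min_inv V Wt (t • Z) hWte, hBY]
    exact hmin Wt hWt')
  rw [hBY] at hline
  refine hline.trans_le (le_of_eq ?_)
  rw [htr]
  congr 2
  -- exp(-W) = exp(-V) exp(-Z) exp(-V)
  have h3 : NormedSpace.exp V * NormedSpace.exp Z * NormedSpace.exp V = NormedSpace.exp W := by
    rw [← hZe]
    calc NormedSpace.exp V * (NormedSpace.exp (-V) * NormedSpace.exp W *
            NormedSpace.exp (-V)) * NormedSpace.exp V
          = (NormedSpace.exp V * NormedSpace.exp (-V)) * NormedSpace.exp W *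
            (NormedSpace.exp (-V) * NormedSpace.exp V) := by simp only [Matrix.mul_assoc]
        _ = NormedSpace.exp W := by
            rw [min_exp_mul_neg, min_exp_neg_mul, Matrix.one_mul, Matrix.mul_one]
  exact (min_inv V W Z h3).symm

end Pool.AF
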