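import Pool.Agent.Helper94.AS.LocP
import Pool.Agent.Helper94.AS.Conj
import Pool.Agent.Helper94.AS.Min

open Set Finset
open scoped Matrix

set_option linter.unusedSectionVars false

namespace Pool.AF

/-! ## AS-10 PROJ: the projection to the exponentials of `𝔭` is smooth, of rank at most `n`

Fix `a₀`, `g = exp (Y₀ / 2)` with `Y₀ = b (p a₀)`, `A a = e.symm a`. The map
`τ a = e (toSym (g⁻¹ * A a * g⁻¹))` is linear and preserves the positive definite set. By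
`argmin_conj` with `M = g⁻¹`, `N = g`, `t = 1` (`MapsExp` by `geod`, `g⁻¹ = exp (-Y₀ / 2)`):
`g⁻¹ exp (b (p a)) g⁻¹ = exp (b (p (τ a)))`, i.e. `exp (b (p a)) = g exp (b (p (τ a))) g` for all
`a` in the set; for `a = a₀` this gives `p (τ a₀) = 0` (`exp_inj`). So near `a₀` the map is
`Φ ∘ p ∘ τ` with `Φ y = e (toSym (g * exp (b y) * g))` smooth (`exp_entry_contDiff`), and
`p ∘ τ` is `C^2` at `a₀` by `argmin_coord`. The derivative factors through `ℝ^n`. -/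

private theorem expTranspose {d : ℕ} (X : Matrix (Fin d) (Fin d) ℝ) (hX : Xᵀ = X) :
    (NormedSpace.exp X)ᵀ = NormedSpace.exp X := by
  rw [← Matrix.exp_transpose, hX]

private theorem mapsExp_exp {d : ℕ} (𝔭 : Submodule ℝ (Matrix (Fin d) (Fin d) ℝ))
    (h𝔭 : GeodSpace 𝔭) (Z : Matrix (Fin d) (Fin d) ℝ) (hZ : Z ∈ 𝔭) :
    MapsExp 𝔭 (NormedSpace.exp Z) 1 := by
  intro X hX
  obtain ⟨W, hW, h⟩ := h𝔭.geod Z hZ X hX
  refine ⟨W, hW, ?_⟩
  rw [expTranspose Z (h𝔭.symm Z hZ), h, one_smul]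

/-- The linear map `X ↦ e (toSym (g * X * g))`. -/
private noncomputable def conjLin {d m : ℕ} (e : symS d ≃ₗ[ℝ] (Fin m → ℝ))
    (g : Matrix (Fin d) (Fin d) ℝ) : Matrix (Fin d) (Fin d) ℝ →ₗ[ℝ] (Fin m → ℝ) :=
  (e : symS d →ₗ[ℝ] (Fin m → ℝ)) ∘ₗ toSym d ∘ₗ
    (LinearMap.mulRight ℝ g ∘ₗ LinearMap.mulLeft ℝ g)

private theorem conjLin_apply {d m : ℕ} (e : symS d ≃ₗ[ℝ] (Fin m → ℝ))
    (g X : Matrix (Fin d) (Fin d) ℝ) : conjLin e g X = e (toSym d (g * X * g)) := rfl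

private theorem phi_contDiff {d m n : ℕ} (𝔭 : Submodule ℝ (Matrix (Fin d) (Fin d) ℝ))
    (e : symS d ≃ₗ[ℝ] (Fin m → ℝ)) (b : (Fin n → ℝ) ≃ₗ[ℝ] 𝔭) (g : Matrix (Fin d) (Fin d) ℝ) :
    ContDiff ℝ 4 (fun y : Fin n → ℝ =>
      conjLin e g (NormedSpace.exp ((b y : 𝔭) : Matrix (Fin d) (Fin d) ℝ))) := by
  have h1 : ContDiff ℝ 4 (fun y : Fin n → ℝ => (fun i j =>
      NormedSpace.exp ((b y : 𝔭) : Matrix (Fin d) (Fin d) ℝ) i j : Fin d → Fin d → ℝ)) := by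
    refine contDiff_pi.2 fun i => contDiff_pi.2 fun j => ?_
    exact exp_entry_contDiff (𝔭.subtype ∘ₗ (b : (Fin n → ℝ) →ₗ[ℝ] 𝔭)) i j
  let L : (Fin d → Fin d → ℝ) →ₗ[ℝ] (Fin m → ℝ) :=
    { toFun := fun X => conjLin e g (Matrix.of X)
      map_add' := fun X Y => map_add (conjLin e g) (Matrix.of X) (Matrix.of Y)
      map_smul' := fun c X => map_smul (conjLin e g) c (Matrix.of X) }
  have h2 : ContDiff ℝ 4 (fun X : Fin d → Fin d → ℝ => L X) :=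
    (LinearMap.toContinuousLinearMap L).contDiff
  exact h2.comp h1

theorem proj_smooth {d m n : ℕ} (𝔭 : Submodule ℝ (Matrix (Fin d) (Fin d) ℝ))
    (h𝔭 : GeodSpace 𝔭) (e : symS d ≃ₗ[ℝ] (Fin m → ℝ)) (b : (Fin n → ℝ) ≃ₗ[ℝ] 𝔭)
    (p : (Fin m → ℝ) → (Fin n → ℝ))
    (hp : ∀ a, ((e.symm a : symS d) : Matrix (Fin d) (Fin d) ℝ).PosDef →
      IsArgmin 𝔭 ((e.symm a : symS d) : Matrix (Fin d) (Fin d) ℝ)
        ((b (p a) : 𝔭) : Matrix (Fin d) (Fin d) ℝ))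
    (a₀ : Fin m → ℝ) (ha₀ : ((e.symm a₀ : symS d) : Matrix (Fin d) (Fin d) ℝ).PosDef) :
    ContDiffAt ℝ 2 (fun a => e (toSym d (NormedSpace.exp
      ((b (p a) : 𝔭) : Matrix (Fin d) (Fin d) ℝ)))) a₀ ∧
    Module.finrank ℝ (LinearMap.range ((fderiv ℝ (fun a => e (toSym d (NormedSpace.exp
      ((b (p a) : 𝔭) : Matrix (Fin d) (Fin d) ℝ)))) a₀ :
      (Fin m → ℝ) →L[ℝ] (Fin m → ℝ)) : (Fin m → ℝ) →ₗ[ℝ] (Fin m → ℝ))) ≤ n := by
  set Y₀ : Matrix (Fin d) (Fin d) ℝ := ((b (p a₀) : 𝔭) : Matrix (Fin d) (Fin d) ℝ) with hY₀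
  have hY₀m : Y₀ ∈ 𝔭 := (b (p a₀)).2
  set Z : Matrix (Fin d) (Fin d) ℝ := (1 / 2 : ℝ) • Y₀ with hZ
  have hZm : Z ∈ 𝔭 := 𝔭.smul_mem _ hY₀m
  have hZn : -Z ∈ 𝔭 := 𝔭.neg_mem hZm
  have hZZ : Z + Z = Y₀ := by
    rw [hZ, ← add_smul]
    norm_num
  set g : Matrix (Fin d) (Fin d) ℝ := NormedSpace.exp Z with hg
  set gi : Matrix (Fin d) (Fin d) ℝ := NormedSpace.exp (-Z) with hgi
  have hgg : g * gi = 1 := by
    rw [hg, hgi, ← Matrix.exp_add_of_commute Z (-Z) (Commute.neg_right (Commute.refl Z)),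
      add_neg_cancel, NormedSpace.exp_zero]
  have hgg' : gi * g = 1 := by
    rw [hg, hgi, ← Matrix.exp_add_of_commute (-Z) Z (Commute.neg_left (Commute.refl Z)),
      neg_add_cancel, NormedSpace.exp_zero]
  have hgT : gᵀ = g := expTranspose Z (h𝔭.symm Z hZm)
  have hgiT : giᵀ = gi := expTranspose (-Z) (h𝔭.symm _ hZn)
  have hgsq : g * g = NormedSpace.exp Y₀ := by
    rw [hg, ← Matrix.exp_add_of_commute Z Z (Commute.refl Z), hZZ]
  have hM : MapsExp 𝔭 gi 1 := mapsExp_exp 𝔭 h𝔭 (-Z) hZn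
  have hN : MapsExp 𝔭 g 1⁻¹ := by
    rw [inv_one]
    exact mapsExp_exp 𝔭 h𝔭 Z hZm
  -- the linear map `τ`
  let τ : (Fin m → ℝ) →ₗ[ℝ] (Fin m → ℝ) :=
    conjLin e gi ∘ₗ (symS d).subtype ∘ₗ (e.symm : (Fin m → ℝ) →ₗ[ℝ] symS d)
  have hτ : ∀ a, ((e.symm (τ a) : symS d) : Matrix (Fin d) (Fin d) ℝ) =
      gi * ((e.symm a : symS d) : Matrix (Fin d) (Fin d) ℝ) * gi := by
    intro a
    have h1 : τ a = e (toSym d (gi * ((e.symm a : symS d) : Matrix (Fin d) (Fin d) ℝ) * gi)) := rfl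
    rw [h1, e.symm_apply_apply, toSym_coe]
    have h2 : (((e.symm a : symS d) : Matrix (Fin d) (Fin d) ℝ))ᵀ =
        ((e.symm a : symS d) : Matrix (Fin d) (Fin d) ℝ) := (e.symm a).2
    rw [Matrix.transpose_mul, Matrix.transpose_mul, hgiT, h2, Matrix.mul_assoc]
  have hgiU : IsUnit gi := ⟨⟨gi, g, hgg', hgg⟩, rfl⟩
  have hτpos : ∀ a, ((e.symm a : symS d) : Matrix (Fin d) (Fin d) ℝ).PosDef →
      ((e.symm (τ a) : symS d) : Matrix (Fin d) (Fin d) ℝ).PosDef := by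
    intro a ha
    rw [hτ a]
    have h1 := ha.conjTranspose_mul_mul_same (B := gi)
      (Matrix.mulVec_injective_iff_isUnit.2 hgiU)
    have h2 : giᴴ = gi := by
      rw [Matrix.conjTranspose_eq_transpose_of_trivial]
      exact hgiT
    rwa [h2] at h1
  have hkey : ∀ a, ((e.symm a : symS d) : Matrix (Fin d) (Fin d) ℝ).PosDef →
      gi * NormedSpace.exp ((b (p a) : 𝔭) : Matrix (Fin d) (Fin d) ℝ) * gi =
        NormedSpace.exp ((b (p (τ a)) : 𝔭) : Matrix (Fin d) (Fin d) ℝ) := by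
    intro a ha
    have h1 := hp a ha
    have h2 := hp (τ a) (hτpos a ha)
    rw [hτ a] at h2
    have h3 := argmin_conj 𝔭 h𝔭 gi g hgg' 1 one_pos hM hN
      ((e.symm a : symS d) : Matrix (Fin d) (Fin d) ℝ) _
      ((b (p (τ a)) : 𝔭) : Matrix (Fin d) (Fin d) ℝ) h1 (by rw [hgiT]; exact h2)
    rw [hgiT, one_smul] at h3
    exact h3
  have hkey' : ∀ a, ((e.symm a : symS d) : Matrix (Fin d) (Fin d) ℝ).PosDef →
      NormedSpace.exp ((b (p a) : 𝔭) : Matrix (Fin d) (Fin d) ℝ) =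
        g * NormedSpace.exp ((b (p (τ a)) : 𝔭) : Matrix (Fin d) (Fin d) ℝ) * g := by
    intro a ha
    rw [← hkey a ha]
    have : g * (gi * NormedSpace.exp ((b (p a) : 𝔭) : Matrix (Fin d) (Fin d) ℝ) * gi) * g =
        (g * gi) * NormedSpace.exp ((b (p a) : 𝔭) : Matrix (Fin d) (Fin d) ℝ) * (gi * g) := by
      simp only [Matrix.mul_assoc]
    rw [this, hgg, hgg', Matrix.one_mul, Matrix.mul_one]
  have hp0 : p (τ a₀) = 0 := by
    have h1 := hkey a₀ ha₀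
    rw [← hY₀, ← hgsq] at h1
    have h2 : gi * (g * g) * gi = 1 := by
      have : gi * (g * g) * gi = (gi * g) * (g * gi) := by
        simp only [Matrix.mul_assoc]
      rw [this, hgg, hgg', Matrix.one_mul]
    rw [h2] at h1
    have h3 : NormedSpace.exp ((b (p (τ a₀)) : 𝔭) : Matrix (Fin d) (Fin d) ℝ) =
        NormedSpace.exp (0 : Matrix (Fin d) (Fin d) ℝ) := by
      rw [← h1, NormedSpace.exp_zero]
    have h4 := exp_inj _ _ (h𝔭.symm _ (b (p (τ a₀))).2) Matrix.transpose_zero h3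
    have h5 : b (p (τ a₀)) = 0 := Subtype.ext h4
    exact (LinearEquiv.map_eq_zero_iff b).1 h5
  have hpc : ContDiffAt ℝ 2 p (τ a₀) :=
    argmin_coord 𝔭 h𝔭 e b p hp (τ a₀) (hτpos a₀ ha₀) hp0
  have hτc : ContDiff ℝ 2 (fun a => τ a) := (LinearMap.toContinuousLinearMap τ).contDiff
  have hpτ : ContDiffAt ℝ 2 (fun a => p (τ a)) a₀ := hpc.comp a₀ hτc.contDiffAt
  have hΦ : ContDiff ℝ 2 (fun y : Fin n → ℝ =>
      conjLin e g (NormedSpace.exp ((b y : 𝔭) : Matrix (Fin d) (Fin d) ℝ))) :=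
    (phi_contDiff 𝔭 e b g).of_le (by norm_num)
  have hev : (fun a => e (toSym d (NormedSpace.exp
      ((b (p a) : 𝔭) : Matrix (Fin d) (Fin d) ℝ)))) =ᶠ[nhds a₀]
      (fun a => (fun y : Fin n → ℝ =>
        conjLin e g (NormedSpace.exp ((b y : 𝔭) : Matrix (Fin d) (Fin d) ℝ))) (p (τ a))) := by
    filter_upwards [(isOpen_posDef_coord e).mem_nhds ha₀] with a ha
    rw [hkey' a ha]
    rfl
  refine ⟨(hΦ.contDiffAt.comp a₀ hpτ).congr_of_eventuallyEq hev, ?_⟩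
  rw [hev.fderiv_eq]
  have hd1 : DifferentiableAt ℝ (fun y : Fin n → ℝ =>
      conjLin e g (NormedSpace.exp ((b y : 𝔭) : Matrix (Fin d) (Fin d) ℝ))) (p (τ a₀)) :=
    hΦ.contDiffAt.differentiableAt (by norm_num)
  have hd2 : DifferentiableAt ℝ (fun a => p (τ a)) a₀ := hpτ.differentiableAt (by norm_num)
  have hcomp := fderiv_comp a₀ hd1 hd2
  have hcomp' : fderiv ℝ (fun a => (fun y : Fin n → ℝ =>
        conjLin e g (NormedSpace.exp ((b y : 𝔭) : Matrix (Fin d) (Fin d) ℝ))) (p (τ a))) a₀ =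
      (fderiv ℝ (fun y : Fin n → ℝ =>
        conjLin e g (NormedSpace.exp ((b y : 𝔭) : Matrix (Fin d) (Fin d) ℝ))) (p (τ a₀))).comp
        (fderiv ℝ (fun a => p (τ a)) a₀) := hcomp
  rw [hcomp']
  set F := fderiv ℝ (fun y : Fin n → ℝ =>
        conjLin e g (NormedSpace.exp ((b y : 𝔭) : Matrix (Fin d) (Fin d) ℝ))) (p (τ a₀)) with hF
  set G := fderiv ℝ (fun a => p (τ a)) a₀ with hG
  have h1 : LinearMap.range ((F.comp G : (Fin m → ℝ) →L[ℝ] (Fin m → ℝ)) :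
      (Fin m → ℝ) →ₗ[ℝ] (Fin m → ℝ)) ≤ LinearMap.range (F : (Fin n → ℝ) →ₗ[ℝ] (Fin m → ℝ)) := by
    rintro x ⟨y, rfl⟩
    exact ⟨G y, rfl⟩
  refine (Submodule.finrank_mono h1).trans ?_
  refine (LinearMap.finrank_range_le (F : (Fin n → ℝ) →ₗ[ℝ] (Fin m → ℝ))).trans ?_
  rw [Module.finrank_fin_fun]

end Pool.AF
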