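import Pool.Agent.Helper94.AG.Main
import Pool.Agent.Helper94.AS.FamAN
import Pool.Agent.Helper94.AS.FamBN

open Set Finset

set_option linter.unusedSectionVars false

namespace Pool.AF

open Pool.SV

section

variable {E : Type*} [NormedAddCommGroup E] [NormedSpace ℝ E] [FiniteDimensional ℝ E]

/-- Domination by representations on sharp cones with equivariant maps into the cones of small
rank. -/
theorem vanish_of_rank (D : Geo E) (hpos : 0 < Module.finrank ℝ E)
    (hcc : ∃ K ⊆ D.X, IsCompact K ∧ ∀ x ∈ D.X, ∃ g ∈ D.Γ, g x ∈ K)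
    (r : ℕ) (F : ℕ → Submodule ℝ E) (k : ℕ) (d : Fin k → ℕ)
    (σ : ∀ j, D.Γ →* ((Fin (d j) → ℝ) →ₗ[ℝ] (Fin (d j) → ℝ))) (C : ∀ j, Set (Fin (d j) → ℝ))
    (h0 : F 0 = ⊥) (hr : ∀ v, v ∈ F r ↔ ∀ x ∈ D.X, ∀ t : ℝ, x + t • v ∈ D.X)
    (hF : ∀ i < r, F i ≤ F (i + 1) ∧ ∀ g ∈ D.Γ, ∀ v ∈ F (i + 1), g.linear v ∈ F (i + 1))
    (hC : ∀ j, 0 < d j ∧ SharpCone (σ j) (C j)) (n : Fin k → ℕ)
    (v : ∀ j, E → (Fin (d j) → ℝ)) (hv1 : ∀ j, ContDiffOn ℝ 2 (v j) D.X)
    (hv2 : ∀ j, ∀ x ∈ D.X, v j x ∈ C j)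
    (hv3 : ∀ j, ∀ g : D.Γ, ∀ x ∈ D.X, ∃ s : ℝ, 0 < s ∧ v j (g.1 x) = s • σ j g (v j x))
    (hn : ∀ j, ∀ x ∈ D.X, Module.finrank ℝ (LinearMap.range
      ((Submodule.span ℝ {v j x}).mkQ ∘ₗ (fderiv ℝ (v j) x : E →ₗ[ℝ] (Fin (d j) → ℝ)))) ≤ n j)
    (hs1 : ∑ j, n j ≤ Module.finrank ℝ (F r))
    (hs2 : D.X = Set.univ → ∑ j, n j < Module.finrank ℝ (F r))
    (hdomi : ∀ R : ℝ, ∃ R' : ℝ, ∀ g : D.Γ, (∀ j, ScalBdd (σ j) R g) → AffBdd (F r) R g.1 →
      ∀ i < r, QuotBdd (F i) (F (i + 1)) R' g.1) : Vanish D := by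
  classical
  have hinv : ∀ i ≤ r, ∀ g ∈ D.Γ, ∀ v ∈ F i, g.linear v ∈ F i := by
    intro i hi g hg v hv
    cases i with
    | zero =>
      rw [h0, Submodule.mem_bot] at hv ⊢
      rw [hv, map_zero]
    | succ i => exact (hF i hi).2 g hg v hv
  obtain ⟨e, he⟩ := exists_adapted r F (fun i hi => (hF i hi).1)
  obtain ⟨c, hc, hlow⟩ := exists_chars D r F e he hinv
  rcases flag_tau D r F h0 e he hinv c hc with hab | ⟨τ, hτ, hdisc⟩
  · exact vanish_of_hasAbNormal D hpos hab hcc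
  -- the cones
  have hblk := fun j => blk_of_cone (d j) (hC j).1 (σ j) (C j) (hC j).2
  choose c' ρ ξ' b' hc' hρ hξpos hgrow' using hblk
  set Q : Fin k → Blk D.Γ := fun j =>
    { d := d j
      ρ := ρ j
      C := C j
      ξ := ξ' j
      isOpen := (hC j).2.isOpen
      convex := (hC j).2.convex
      nonempty := (hC j).2.nonempty
      smul_mem := (hC j).2.smul_mem
      inv := fun g v hv => by
        rw [hρ j g v]
        exact (hC j).2.smul_mem _ ((hC j).2.inv g v hv) _ (inv_pos.mpr ((hc' j).1 g))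
      pos := hξpos j } with hQ
  have hV : ∀ v, v ∈ F r ↔ v ∈ Lin D.X := hr
  have hher := he.idem r le_rfl
  have hinvr : ∀ g : D.Γ, (1 - e r) * hatHom D.Γ g * e r = 0 := fun g =>
    Flag.hinv_of_range D (F r) (e r) hher (he.range r le_rfl) (hinv r le_rfl) g
  -- finiteness
  have hfin : ∀ B : ℝ, {g : D.Γ | (∀ j, ‖LinearMap.toContinuousLinearMap (ρ j g)‖ ≤ B ∧
      ‖LinearMap.toContinuousLinearMap (ρ j g⁻¹)‖ ≤ B) ∧ ‖topHom D (e r) hher hinvr g‖ ≤ B ∧
      ‖topHom D (e r) hher hinvr g⁻¹‖ ≤ B}.Finite := by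
    intro B
    have htop : ∀ g : D.Γ, ‖topHom D (e r) hher hinvr g‖ ≤ B →
        ‖(1 - e r) * hatHom D.Γ g * (1 - e r)‖ ≤ B + ‖e r‖ := by
      intro g hg
      have h1 : (1 - e r) * hatHom D.Γ g * (1 - e r) = topHom D (e r) hher hinvr g - e r := by
        change _ = (1 - e r) * hatHom D.Γ g * (1 - e r) + e r - e r
        rw [add_sub_cancel_right]
      rw [h1]
      exact (norm_sub_le _ _).trans (by linarith)
    obtain ⟨R₁, hR₁⟩ := affBdd_of_top D (F r) (hinv r le_rfl) (e r) hher (he.range r le_rfl)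
      (B + ‖e r‖)
    obtain ⟨R₂, hR₂⟩ := hdomi (max B R₁)
    have hM : ∀ i, ∃ M : ℝ, i < r → ∀ g : D.Γ, QuotBdd (F i) (F (i + 1)) R₂ g.1 →
        ‖cut (hatHom D.Γ) (e (i + 1) - e i) (c i) g‖ ≤ M ∧
        ‖cut (hatHom D.Γ) (e (i + 1) - e i) (c i) g⁻¹‖ ≤ M := by
      intro i
      by_cases hi : i < r
      swap
      · exact ⟨0, fun h => absurd h hi⟩
      have hi' : i + 1 ≤ r := hi
      by_cases hne : e (i + 1) - e i = 0
      · refine ⟨0, fun _ g _ => ?_⟩
        simp [cut, hne]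
      · obtain ⟨a₀, ha₀, hl⟩ := hlow i hi hne
        obtain ⟨M, hM⟩ := cut_bdd D (F i) (F (i + 1)) (hinv i hi.le) (hinv _ hi') (e i)
          (e (i + 1)) (he.idem i hi.le) (he.idem _ hi') (he.range i hi.le) (he.range _ hi')
          (he.up i hi) (he.down i hi) (c i) (hc i hi) a₀ ha₀ hl R₂
        exact ⟨M, fun _ => hM⟩
    choose M hM using hM
    refine (hdisc (∑ i ∈ Finset.range r, M i + (B + ‖e r‖))).subset ?_
    rintro g ⟨h1, h2, h3⟩
    have h4 : ∀ i < r, QuotBdd (F i) (F (i + 1)) R₂ g.1 := by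
      refine hR₂ g (fun j => ?_) ?_
      · exact (scalBdd_of_block (σ j) (c' j) (hc' j) (ρ j) (hρ j) B g (h1 j).1 (h1 j).2).mono
          (le_max_left _ _)
      · exact (hR₁ g (htop g h2) (htop g⁻¹ h3)).mono (le_max_right _ _)
    constructor
    · rw [hτ]
      refine (norm_add_le _ _).trans (add_le_add ?_ (htop g h2))
      refine (norm_sum_le _ _).trans (Finset.sum_le_sum fun i hi => ?_)
      have hi := Finset.mem_range.mp hi
      exact (hM i hi g (h4 i hi)).1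
    · rw [hτ]
      refine (norm_add_le _ _).trans (add_le_add ?_ (htop g⁻¹ h3))
      refine (norm_sum_le _ _).trans (Finset.sum_le_sum fun i hi => ?_)
      have hi := Finset.mem_range.mp hi
      exact (hM i hi g (h4 i hi)).2
  -- the equivariant maps into the cones
  have hv3' : ∀ i : Fin k, ∀ g : D.Γ, ∀ x ∈ D.X, ∃ s : ℝ, 0 < s ∧
      v i (g.1 x) = s • (Q i).ρ g (v i x) := by
    intro i g x hx
    obtain ⟨s, hs, hs2⟩ := hv3 i g x hx
    refine ⟨s * c' i g, mul_pos hs ((hc' i).1 g), ?_⟩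
    have h1 : (Q i).ρ g (v i x) = (c' i g)⁻¹ • σ i g (v i x) := hρ i g (v i x)
    rw [h1, smul_smul, mul_assoc, mul_inv_cancel₀ ((hc' i).1 g).ne', mul_one, hs2]
  by_cases hVR : (F r : Set E) = Rec D.X
  · -- the domain is bounded modulo the lineality space
    obtain ⟨R, hR⟩ := top_bounded D (F r) hV (e r) (he.idem r le_rfl) (he.range r le_rfl) hVR
    have hT₀ : Grow (fun g : D.Γ => (1 - e r) * hatHom D.Γ g * (1 - e r)) (fun _ => (1 : ℝ))
        (∑ j, b' j) := by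
      refine ⟨|R| + 1, by positivity, fun g => ⟨?_, ?_, ?_⟩⟩
      · apply inv_le_one_of_one_le₀
        linarith [abs_nonneg R]
      · rw [one_pow, mul_one]
        exact (hR g).trans ((le_abs_self R).trans (by linarith))
      · rw [one_pow, mul_one]
        exact (hR g⁻¹).trans ((le_abs_self R).trans (by linarith))
    obtain ⟨N, hN⟩ := summable_total k d ρ (topHom D (e r) hher hinvr) hfin (∑ j, b' j)
    have hsum : ∀ x ∈ D.X, Summable (fun g : D.Γ => ∏ i, ((Q i).ev g (v i x))⁻¹ ^ N) := by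
      intro x hx
      have h1 := hN N le_rfl (fun j g => (Q j).ev g (v j x)) (fun _ => 1)
        (fun j => (hgrow' j (v j x) (hv2 j x hx)).mono
          (Finset.single_le_sum (f := b') (fun _ _ => Nat.zero_le _) (Finset.mem_univ j)))
        (grow_top _ (e r) _ _ hT₀)
      refine h1.congr fun g => ?_
      rw [one_mul, ← Finset.prod_inv_distrib, Finset.prod_pow]
    have hdim : ∑ i, n i < Module.finrank ℝ E := by
      by_cases hX : D.X = Set.univ
      · exact (hs2 hX).trans_le (Submodule.finrank_le _)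
      · refine hs1.trans_lt (Submodule.finrank_lt ?_)
        intro htop
        apply hX
        obtain ⟨x, hx⟩ := D.nonempty
        rw [Set.eq_univ_iff_forall]
        intro y
        have h5 : y - x ∈ F r := by rw [htop]; exact Submodule.mem_top
        have h6 := (hr _).mp h5 x hx 1
        rwa [one_smul, add_sub_cancel] at h6
    refine vanish_of_goodPart D hpos fun K hKX hK hKc => ?_
    obtain ⟨C₀, hC₀, hfam⟩ := fam_BN D K hK hKX hKc k Q v hv1 hv2 hv3' N hsum n hn hdim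
    exact goodPart_of_family D K hKX (Fin k) N C₀ hC₀ hfam
  · -- the recession cone is larger than the lineality space
    obtain ⟨hRc, hRn, hRi, _, _⟩ := recInt_props D
    obtain ⟨ee, he1, he2, he3⟩ := exists_equi D hcc (linHom D) (RecInt D.X) hRc hRn
      (fun g u hu => hRi g u hu)
    obtain ⟨cT, ξ, bT, hcT, hξV, hξ, hξR, hgT⟩ := blk_top D (F r) hV (e r) (he.idem r le_rfl)
      (he.range r le_rfl)
    obtain ⟨N, hN⟩ := summable_total k d ρ (topHom D (e r) hher hinvr) hfin (∑ j, b' j + bT)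
    have hsum : ∀ x ∈ D.X, ∀ y ∈ D.X, Summable (fun g : D.Γ =>
        (cT g * ξ (hatHom D.Γ g⁻¹ (y, 1)))⁻¹ ^ N * ∏ i, ((Q i).ev g (v i x))⁻¹ ^ N) := by
      intro x hx y hy
      have h1 := hN N le_rfl (fun j g => (Q j).ev g (v j x))
        (fun g => cT g * ξ (hatHom D.Γ g⁻¹ (y, 1)))
        (fun j => (hgrow' j (v j x) (hv2 j x hx)).mono
          ((Finset.single_le_sum (f := b') (fun _ _ => Nat.zero_le _)
            (Finset.mem_univ j)).trans (Nat.le_add_right _ _)))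
        (grow_top _ (e r) _ _ ((hgT y hy).mono (Nat.le_add_left _ _)))
      refine h1.congr fun g => ?_
      rw [mul_inv, mul_pow, ← Finset.prod_inv_distrib, Finset.prod_pow]
    refine vanish_of_goodPart D hpos fun K hKX hK hKc => ?_
    obtain ⟨C₀, hC₀, hfam⟩ := fam_AN D K hK hKX hKc k Q v hv1 hv2 hv3' ee he1 he2 he3 (F r) hV
      hVR cT hcT ξ hξV hξ hξR N hsum n hn hs1
    exact goodPart_of_family D K hKX (Option (Fin k)) N C₀ hC₀ hfam

end

end Pool.AF
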