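import Pool.Agent.Helper94.AS.Stmt
import Pool.Agent.Helper94.AS.RankDom
import Pool.Agent.Helper94.AS.Proj
import Pool.Agent.Helper94.AS.PosCone

open Set Finset
open scoped Matrix

set_option linter.unusedSectionVars false

namespace Pool.AF

open Pool.SV

section

variable {E : Type*} [NormedAddCommGroup E] [NormedSpace ℝ E] [FiniteDimensional ℝ E]

/-- The data of a block: a representation preserving a sharp cone, an equivariant map of small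
rank, and the comparison of the bounds. -/
def BlockData (D : Geo E) {d : ℕ} (σ : D.Γ →* ((Fin d → ℝ) →ₗ[ℝ] (Fin d → ℝ))) (n : ℕ) : Prop :=
  ∃ (d' : ℕ) (σ' : D.Γ →* ((Fin d' → ℝ) →ₗ[ℝ] (Fin d' → ℝ))) (C : Set (Fin d' → ℝ))
    (v : E → (Fin d' → ℝ)), 0 < d' ∧ SharpCone σ' C ∧ ContDiffOn ℝ 2 v D.X ∧
    (∀ x ∈ D.X, v x ∈ C) ∧
    (∀ g : D.Γ, ∀ x ∈ D.X, ∃ s : ℝ, 0 < s ∧ v (g.1 x) = s • σ' g (v x)) ∧
    (∀ x ∈ D.X, Module.finrank ℝ (LinearMap.range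
      ((Submodule.span ℝ {v x}).mkQ ∘ₗ (fderiv ℝ v x : E →ₗ[ℝ] (Fin d' → ℝ)))) ≤ n) ∧
    ∀ R : ℝ, ∃ R' : ℝ, ∀ g, ScalBdd σ' R g → ScalBdd σ R' g

theorem ne_zero_of_sharp {G : Type*} [Group G] {d : ℕ} (hd : 0 < d)
    (σ : G →* ((Fin d → ℝ) →ₗ[ℝ] (Fin d → ℝ))) (C : Set (Fin d → ℝ)) (hC : SharpCone σ C)
    (v : Fin d → ℝ) (hv : v ∈ C) : v ≠ 0 := by
  intro h0
  obtain ⟨c, ρ, ξ, b, _, _, h1, _⟩ := blk_of_cone d hd σ C hC
  have h2 := h1 v hv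
  rw [h0, map_zero] at h2
  exact lt_irrefl _ h2

theorem blockData_cone (D : Geo E)
    (hcc : ∃ K ⊆ D.X, IsCompact K ∧ ∀ x ∈ D.X, ∃ g ∈ D.Γ, g x ∈ K) {d : ℕ} (hd : 0 < d)
    (σ : D.Γ →* ((Fin d → ℝ) →ₗ[ℝ] (Fin d → ℝ))) (n : ℕ) (hn : n + 1 = d)
    (C : Set (Fin d → ℝ)) (hC : SharpCone σ C) : BlockData D σ n := by
  obtain ⟨v, hv1, hv2, hv3⟩ := exists_equi D hcc σ C hC.convex hC.nonempty hC.inv
  refine ⟨d, σ, C, v, hd, hC, hv1, hv2, fun g x hx => ⟨1, one_pos, ?_⟩, fun x hx => ?_,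
    fun R => ⟨R, fun g h => h⟩⟩
  · rw [one_smul]
    exact hv3 g x hx
  · refine (Submodule.finrank_le _).trans ?_
    have h1 := Submodule.finrank_quotient_add_finrank (Submodule.span ℝ {v x})
    rw [finrank_span_singleton (ne_zero_of_sharp hd σ C hC _ (hv2 x hx)),
      Module.finrank_fin_fun] at h1
    omega

theorem finrank_range_comp_le {V₁ V₂ V₃ : Type*} [AddCommGroup V₁] [Module ℝ V₁]
    [AddCommGroup V₂] [Module ℝ V₂] [AddCommGroup V₃] [Module ℝ V₃] [FiniteDimensional ℝ V₁]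
    [FiniteDimensional ℝ V₂] [FiniteDimensional ℝ V₃] (f : V₂ →ₗ[ℝ] V₃) (g : V₁ →ₗ[ℝ] V₂) :
    Module.finrank ℝ (LinearMap.range (f ∘ₗ g)) ≤ Module.finrank ℝ (LinearMap.range f) ∧
    Module.finrank ℝ (LinearMap.range (f ∘ₗ g)) ≤ Module.finrank ℝ (LinearMap.range g) := by
  constructor
  · exact Submodule.finrank_mono (LinearMap.range_comp_le_range g f)
  · rw [LinearMap.range_comp]
    exact Submodule.finrank_map_le f _

theorem blockData_geod (D : Geo E)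
    (hcc : ∃ K ⊆ D.X, IsCompact K ∧ ∀ x ∈ D.X, ∃ g ∈ D.Γ, g x ∈ K) {d : ℕ} (hd : 0 < d)
    (σ : D.Γ →* ((Fin d → ℝ) →ₗ[ℝ] (Fin d → ℝ)))
    (𝔭 : Submodule ℝ (Matrix (Fin d) (Fin d) ℝ)) (h𝔭 : GeodSpace 𝔭) (hσ : PreservesExp σ 𝔭) :
    BlockData D σ (Module.finrank ℝ 𝔭) := by
  classical
  set m := Module.finrank ℝ (symS d) with hm
  set n := Module.finrank ℝ 𝔭 with hn
  let e : symS d ≃ₗ[ℝ] (Fin m → ℝ) := (Module.finBasis ℝ (symS d)).equivFun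
  let b : (Fin n → ℝ) ≃ₗ[ℝ] 𝔭 := (Module.finBasis ℝ 𝔭).equivFun.symm
  set C : Set (Fin m → ℝ) :=
    {a : Fin m → ℝ | ((e.symm a : symS d) : Matrix (Fin d) (Fin d) ℝ).PosDef} with hC
  have hCs : SharpCone (conjRep e σ) C := sharp_posDef e σ
  have hCo : IsOpen C := hCs.isOpen
  -- the minimiser
  have hmin : ∀ a : Fin m → ℝ, ∃ y : Fin n → ℝ,
      ((e.symm a : symS d) : Matrix (Fin d) (Fin d) ℝ).PosDef →
      IsArgmin 𝔭 ((e.symm a : symS d) : Matrix (Fin d) (Fin d) ℝ)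
        ((b y : 𝔭) : Matrix (Fin d) (Fin d) ℝ) := by
    intro a
    by_cases ha : ((e.symm a : symS d) : Matrix (Fin d) (Fin d) ℝ).PosDef
    · obtain ⟨Y, hY⟩ := exists_argmin 𝔭 h𝔭 _ ha
      refine ⟨b.symm ⟨Y, hY.1⟩, fun _ => ?_⟩
      rw [LinearEquiv.apply_symm_apply]
      exact hY
    · exact ⟨0, fun h => absurd h ha⟩
  choose p hp using hmin
  set q : (Fin m → ℝ) → (Fin m → ℝ) := fun a => e (toSym d (NormedSpace.exp
    ((b (p a) : 𝔭) : Matrix (Fin d) (Fin d) ℝ))) with hq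
  have hbs : ∀ y, ((b y : 𝔭) : Matrix (Fin d) (Fin d) ℝ)ᵀ = ((b y : 𝔭) : Matrix _ _ ℝ) :=
    fun y => h𝔭.symm _ (b y).2
  have hexp : ∀ a, ((e.symm (q a) : symS d) : Matrix (Fin d) (Fin d) ℝ) =
      NormedSpace.exp ((b (p a) : 𝔭) : Matrix (Fin d) (Fin d) ℝ) := by
    intro a
    change ((e.symm (e _) : symS d) : Matrix (Fin d) (Fin d) ℝ) = _
    rw [LinearEquiv.symm_apply_apply, toSym_coe]
    rw [← Matrix.exp_transpose, hbs]
  have hqC : ∀ a ∈ C, q a ∈ C := by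
    intro a _
    change ((e.symm (q a) : symS d) : Matrix (Fin d) (Fin d) ℝ).PosDef
    rw [hexp]
    exact exp_posDef _ (hbs _)
  have hqs : ∀ a ∈ C, ContDiffAt ℝ 2 q a ∧ Module.finrank ℝ (LinearMap.range
      ((fderiv ℝ q a : (Fin m → ℝ) →L[ℝ] (Fin m → ℝ)) : (Fin m → ℝ) →ₗ[ℝ] (Fin m → ℝ))) ≤ n :=
    fun a ha => proj_smooth 𝔭 h𝔭 e b p hp a ha
  have hqe : ∀ g : D.Γ, ∀ a ∈ C, ∃ s : ℝ, 0 < s ∧ q (conjRep e σ g a) =
      s • conjRep e σ g (q a) := by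
    intro g a ha
    obtain ⟨t, ht, hM⟩ := hσ g
    obtain ⟨s, hs, hN⟩ := hσ g⁻¹
    have hMN : LinearMap.toMatrix' (σ g) * LinearMap.toMatrix' (σ g⁻¹) = 1 := by
      rw [← LinearMap.toMatrix'_mul, ← map_mul, mul_inv_cancel, map_one,
        LinearMap.toMatrix'_one]
    have hst := mapsExp_inv hd 𝔭 h𝔭 _ _ hMN t s ht hs hM hN
    rw [hst] at hN
    have hga : conjRep e σ g a ∈ C := hCs.inv g a ha
    have hY' := hp _ hga
    rw [conjRep_apply] at hY'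
    have h1 := argmin_conj 𝔭 h𝔭 _ _ hMN t ht hM hN _ _ _ (hp a ha) hY'
    refine ⟨t⁻¹, inv_pos.mpr ht, ?_⟩
    apply e.symm.injective
    apply Subtype.ext
    rw [map_smul, SetLike.val_smul, conjRep_apply, hexp, hexp, h1, smul_smul,
      inv_mul_cancel₀ ht.ne', one_smul]
  obtain ⟨v, hv1, hv2, hv3⟩ := exists_equi D hcc (conjRep e σ) C hCs.convex hCs.nonempty hCs.inv
  have hm0 : 0 < m := by
    have h1 : (1 : Matrix (Fin d) (Fin d) ℝ) ∈ symS d := by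
      rw [mem_symS, Matrix.transpose_one]
    have h2 : Nontrivial (symS d) := by
      refine ⟨⟨⟨1, h1⟩, 0, fun h => ?_⟩⟩
      have h3 : (1 : Matrix (Fin d) (Fin d) ℝ) = 0 := congrArg Subtype.val h
      have h4 := congrFun (congrFun h3 ⟨0, hd⟩) ⟨0, hd⟩
      simp at h4
    exact Module.finrank_pos
  refine ⟨m, conjRep e σ, C, fun x => q (v x), hm0, hCs, ?_, fun x hx => hqC _ (hv2 x hx), ?_, ?_,
    fun R => scalBdd_conjRep e σ R⟩
  · intro x hx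
    have h1 : ContDiffAt ℝ 2 v x := hv1.contDiffAt (D.isOpen.mem_nhds hx)
    exact ((hqs (v x) (hv2 x hx)).1.comp x h1).contDiffWithinAt
  · intro g x hx
    obtain ⟨s, hs, hs2⟩ := hqe g (v x) (hv2 x hx)
    refine ⟨s, hs, ?_⟩
    change q (v (g.1 x)) = s • conjRep e σ g (q (v x))
    rw [hv3 g x hx, hs2]
  · intro x hx
    have h1 : ContDiffAt ℝ 2 v x := hv1.contDiffAt (D.isOpen.mem_nhds hx)
    have h2 := hqs (v x) (hv2 x hx)
    have h3 : fderiv ℝ (fun x => q (v x)) x = (fderiv ℝ q (v x)).comp (fderiv ℝ v x) :=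
      fderiv_comp x (h2.1.differentiableAt (by norm_num)) (h1.differentiableAt (by norm_num))
    have h4 : (((fderiv ℝ q (v x)).comp (fderiv ℝ v x) : E →L[ℝ] (Fin m → ℝ)) :
        E →ₗ[ℝ] (Fin m → ℝ)) = (fderiv ℝ q (v x) : (Fin m → ℝ) →ₗ[ℝ] (Fin m → ℝ)) ∘ₗ
        (fderiv ℝ v x : E →ₗ[ℝ] (Fin m → ℝ)) := rfl
    rw [h3, h4]
    refine (finrank_range_comp_le _ _).2.trans ?_
    exact (finrank_range_comp_le _ _).1.trans h2.2

theorem vanish_of_dominated (D : Geo E) (hpos : 0 < Module.finrank ℝ E)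
    (hcc : ∃ K ⊆ D.X, IsCompact K ∧ ∀ x ∈ D.X, ∃ g ∈ D.Γ, g x ∈ K)
    (hdom : Dominated D.Γ D.X) : Vanish D := by
  classical
  obtain ⟨r, F, k, d, n, σ, h0, hr, hF, hS, hs1, hs2, hdomi⟩ := hdom
  have hdata : ∀ j, BlockData D (σ j) (n j) := by
    intro j
    obtain ⟨hd, ⟨hnd, C, hC⟩ | ⟨𝔭, h𝔭, hσ, hn⟩⟩ := hS j
    · exact blockData_cone D hcc hd (σ j) (n j) hnd C hC
    · rw [← hn]
      exact blockData_geod D hcc hd (σ j) 𝔭 h𝔭 hσ
  choose d' σ' C v hd' hC' hv1 hv2 hv3 hrk hbd using hdata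
  refine vanish_of_rank D hpos hcc r F k d' σ' C h0 hr hF (fun j => ⟨hd' j, hC' j⟩) n v hv1 hv2
    hv3 hrk hs1 hs2 ?_
  intro R
  choose R' hR' using fun j => hbd j R
  obtain ⟨R₂, hR₂⟩ := hdomi (|R| + ∑ j, |R' j|)
  refine ⟨R₂, fun g hg hA => hR₂ g (fun j => ?_) ?_⟩
  · refine (hR' j g (hg j)).mono ?_
    have h1 : |R' j| ≤ ∑ j, |R' j| :=
      Finset.single_le_sum (f := fun j => |R' j|) (fun _ _ => abs_nonneg _) (Finset.mem_univ j)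
    have h2 := le_abs_self (R' j)
    have h3 := abs_nonneg R
    linarith
  · refine hA.mono ?_
    have h1 : 0 ≤ ∑ j, |R' j| := Finset.sum_nonneg fun _ _ => abs_nonneg _
    have h2 := le_abs_self R
    linarith

/-- The statement with a subgroup of finite index. -/
theorem vanish_of_virtual_dominated (D : Geo E) (hpos : 0 < Module.finrank ℝ E)
    (hcc : ∃ K ⊆ D.X, IsCompact K ∧ ∀ x ∈ D.X, ∃ g ∈ D.Γ, g x ∈ K)
    (Γ₁ : Subgroup (E ≃ᵃ[ℝ] E)) (hΓ₁ : Γ₁ ≤ D.Γ) (hfin : Γ₁.relIndex D.Γ ≠ 0)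
    (hdom : Dominated Γ₁ D.X) : Vanish D := by
  have heq : (geoSub D (Γ₁.subgroupOf D.Γ)).Γ = Γ₁ := by
    change (Γ₁.subgroupOf D.Γ).map D.Γ.subtype = Γ₁
    rw [Subgroup.map_subgroupOf_eq_of_le hΓ₁]
  have hfi : (Γ₁.subgroupOf D.Γ).FiniteIndex := ⟨hfin⟩
  have hV : Vanish (geoSub D (Γ₁.subgroupOf D.Γ)) := by
    refine vanish_of_dominated _ hpos (cocompact_geoSub D _ hcc) ?_
    rw [heq]
    exact hdom
  refine vanish_transfer D (geoSub D (Γ₁.subgroupOf D.Γ)) (Subgroup.map_subtype_le _) ?_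
    subset_rfl hV
  rw [relIndex_geoSub]
  exact hfin

end

end Pool.AF
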