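import Pool.Agent.Helper94.AS.Small

/-!
# Automorphisms of the function field: the variable is mapped to a linear polynomial
-/

set_option autoImplicit false
set_option linter.unusedSectionVars false

open Polynomial

namespace Pool.Agent.Helper94.AS

section hom

variable {k : Type} [Field k]

/-- `Q^n C(N/Q)` for `n = deg C` -/
noncomputable def hmg (N Q A : k[X]) : k[X] :=
  ∑ i ∈ Finset.range (A.natDegree + 1), C (A.coeff i) * N ^ i * Q ^ (A.natDegree - i)

theorem hmg_eq (N Q A : k[X]) (hQ : Q ≠ 0) {x : RatFunc k}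
    (hx : x = algebraMap k[X] (RatFunc k) N / algebraMap k[X] (RatFunc k) Q) :
    algebraMap k[X] (RatFunc k) (hmg N Q A) =
      algebraMap k[X] (RatFunc k) Q ^ A.natDegree * aeval x A := by
  have hQ' : algebraMap k[X] (RatFunc k) Q ≠ 0 := by
    rw [Ne, map_eq_zero_iff _ (IsFractionRing.injective k[X] (RatFunc k))]
    exact hQ
  rw [hmg, map_sum, aeval_eq_sum_range, Finset.mul_sum]
  refine Finset.sum_congr rfl fun i hi => ?_
  have hi' : i ≤ A.natDegree := by have := Finset.mem_range.1 hi; omega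
  rw [map_mul, map_mul, map_pow, map_pow, Algebra.smul_def, hx, div_pow]
  have h1 : algebraMap k[X] (RatFunc k) Q ^ A.natDegree =
      algebraMap k[X] (RatFunc k) Q ^ (A.natDegree - i) * algebraMap k[X] (RatFunc k) Q ^ i := by
    rw [← pow_add, Nat.sub_add_cancel hi']
  rw [h1]
  have h2 : algebraMap k[X] (RatFunc k) (C (A.coeff i)) = algebraMap k (RatFunc k) (A.coeff i) := by
    rw [IsScalarTower.algebraMap_apply k k[X] (RatFunc k)]
    rfl
  rw [h2]
  field_simp

theorem hmg_eval (N Q A : k[X]) {a : k} (ha : Q.eval a = 0) :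
    (hmg N Q A).eval a = A.leadingCoeff * N.eval a ^ A.natDegree := by
  rw [hmg, eval_finsetSum, Finset.sum_range_succ, Finset.sum_eq_zero]
  · simp
  · intro i hi
    have hi' := Finset.mem_range.1 hi
    rw [eval_mul, eval_pow, ha, zero_pow (by omega), mul_zero]

theorem hmg_not_root (N Q A : k[X]) {a : k} (ha : Q.eval a = 0) (hN : N.eval a ≠ 0) (hA : A ≠ 0) :
    ¬ (hmg N Q A).IsRoot a := by
  rw [IsRoot, hmg_eval N Q A ha]
  exact mul_ne_zero (leadingCoeff_ne_zero.2 hA) (pow_ne_zero _ hN)

theorem rm_pow {a : k} {Q : k[X]} (hQ : Q ≠ 0) (n : ℕ) :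
    (Q ^ n).rootMultiplicity a = n * Q.rootMultiplicity a := by
  induction n with
  | zero => simp
  | succ n ih =>
    rw [pow_succ, rootMultiplicity_mul (mul_ne_zero (pow_ne_zero _ hQ) hQ), ih]
    ring

theorem rm_mul {a : k} {A B : k[X]} (hA : A ≠ 0) (hB : B ≠ 0) :
    (A * B).rootMultiplicity a = A.rootMultiplicity a + B.rootMultiplicity a :=
  rootMultiplicity_mul (mul_ne_zero hA hB)

end hom

variable {p : ℕ} [hp : Fact p.Prime] {k : Type} [Field k] [IsAlgClosed k] [CharP k p] (f : k[X])

theorem inj_K : Function.Injective (algebraMap k[X] (RatFunc k)) := IsFractionRing.injective _ _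

/-- an automorphism restricted to polynomials -/
theorem aut_poly (σ : FF p f ≃ₐ[k] FF p f) {x' : RatFunc k}
    (hx' : algebraMap (RatFunc k) (FF p f) x' = σ (xx f)) (a : k[X]) :
    σ (algebraMap k[X] (FF p f) a) = algebraMap (RatFunc k) (FF p f) (aeval x' a) := by
  rw [algMap_eq_aeval]
  have h1 : σ (aeval (xx f : FF p f) a) = aeval (σ (xx f)) a :=
    (aeval_algHom_apply (σ : FF p f →ₐ[k] FF p f) (xx f) a).symm
  have h2 : algebraMap (RatFunc k) (FF p f) (aeval x' a) =
      aeval (algebraMap (RatFunc k) (FF p f) x') a :=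
    (aeval_algHom_apply (IsScalarTower.toAlgHom k (RatFunc k) (FF p f)) x' a).symm
  rw [h1, h2, hx']

/-- an automorphism maps `k(X)` into itself -/
theorem aut_ratFunc [hirr : Fact (Irreducible (asPoly p f))] (σ : FF p f ≃ₐ[k] FF p f)
    {x' : RatFunc k} (hx' : algebraMap (RatFunc k) (FF p f) x' = σ (xx f)) (r : RatFunc k) :
    ∃ s : RatFunc k, σ (algebraMap (RatFunc k) (FF p f) r) =
      algebraMap (RatFunc k) (FF p f) s := by
  obtain ⟨A, B, hB, rfl⟩ := IsFractionRing.div_surjective (A := k[X]) r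
  refine ⟨aeval x' A / aeval x' B, ?_⟩
  rw [map_div₀, map_div₀, map_div₀, ← aut_poly f σ hx' A, ← aut_poly f σ hx' B, algMap_poly,
    algMap_poly]

/-- shape of the image of `W` -/
theorem aut_WW [hirr : Fact (Irreducible (asPoly p f))]
    (hdeg : ¬ p ∣ f.natDegree) (hbig : p ^ 2 < f.natDegree) (σ : FF p f ≃ₐ[k] FF p f) :
    ∃ (n : ℕ) (h : RatFunc k), σ (WW f) = (n : FF p f) * WW f +
      algebraMap (RatFunc k) (FF p f) h := by
  have hchar2 : CharP (FF p f) p := charP_of_injective_algebraMap (algebraMap k _).injective p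
  obtain ⟨x', hx'⟩ := aut_xx f hdeg hbig σ
  have h1 : (σ (WW f)) ^ p - σ (WW f) = algebraMap (RatFunc k) (FF p f) (aeval x' f) := by
    rw [← aut_poly f σ hx', ← WW_eq, map_sub, map_pow]
  set δ := shift f (σ (WW f)) - σ (WW f) with hδ
  have h2 : δ ^ p = δ := by
    have h3 := congrArg (shift f) h1
    rw [map_sub, map_pow, AlgHom.commutes] at h3
    rw [hδ, sub_pow_char]
    linear_combination h3 - h1
  obtain ⟨n, hn⟩ := exists_nat_of_pow_eq (p := p) h2
  have h4 : shift f (σ (WW f) - (n : FF p f) * WW f) = σ (WW f) - (n : FF p f) * WW f := by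
    rw [map_sub, map_mul, map_natCast, shift_WW]
    rw [hδ] at hn
    linear_combination -hn
  obtain ⟨h, hh⟩ := shift_fixed f h4
  exact ⟨n, h, by rw [hh]; ring⟩

/-- the image of the variable is a polynomial -/
theorem aut_xx_poly [hirr : Fact (Irreducible (asPoly p f))]
    (hdeg : ¬ p ∣ f.natDegree) (hbig : p ^ 2 < f.natDegree) (σ : FF p f ≃ₐ[k] FF p f) :
    ∃ s : k[X], σ (xx f) = algebraMap k[X] (FF p f) s := by
  classical
  have hm0 : f.natDegree ≠ 0 := by omega
  have hf0 : f ≠ 0 := by rintro rfl; simp at hm0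
  obtain ⟨x', hx'⟩ := aut_xx f hdeg hbig σ
  obtain ⟨x'', hx''⟩ := aut_xx f hdeg hbig σ.symm
  obtain ⟨n, h, hW⟩ := aut_WW f hdeg hbig σ
  -- the relation for `f`
  have hrel : aeval x' f = (n : RatFunc k) * algebraMap k[X] (RatFunc k) f + h ^ p - h := by
    have hchar2 : CharP (FF p f) p := charP_of_injective_algebraMap (algebraMap k _).injective p
    apply algMap_inj f
    rw [← aut_poly f σ hx', ← WW_eq, map_sub, map_pow, hW, add_pow_char, mul_pow, map_sub, map_add,
      map_mul, map_natCast, map_pow, ← algMap_poly, ← WW_eq]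
    have hn : (n : FF p f) ^ p = n := by
      have := map_natCast (frobenius (FF p f) p) n
      rwa [frobenius_def] at this
    rw [hn]
    ring
  set N := x'.num with hN
  set Q := x'.denom with hQ
  have hQ0 : Q ≠ 0 := x'.denom_ne_zero
  have hx'eq : x' = algebraMap k[X] (RatFunc k) N / algebraMap k[X] (RatFunc k) Q :=
    (RatFunc.num_div_denom x').symm
  have hcop : IsCoprime N Q := RatFunc.isCoprime_num_denom x'
  by_cases hQd : Q.natDegree = 0
  · have hQ1 : Q = 1 := by
      have := RatFunc.monic_denom x'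
      rw [← hQ] at this
      exact this.natDegree_eq_zero.1 hQd
    refine ⟨N, ?_⟩
    rw [← hx', hx'eq, hQ1, map_one, div_one, algMap_poly]
  exfalso
  obtain ⟨a, ha⟩ := IsAlgClosed.exists_root Q (by
    intro h
    exact hQd (natDegree_eq_of_degree_eq_some h))
  have ha' : Q.eval a = 0 := ha
  have hNa : N.eval a ≠ 0 := by
    intro h0
    obtain ⟨u, v, huv⟩ := hcop
    have := congrArg (eval a) huv
    simp [h0, ha'] at this
  set e := Q.rootMultiplicity a with he
  have he0 : 0 < e := (rootMultiplicity_pos hQ0).2 ha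
  -- first relation: `e = 1`
  have he1 : e = 1 := by
    set y := x'' - algebraMap k (RatFunc k) a with hy
    have hy0 : y ≠ 0 := by
      intro h0
      have h1 : x'' = algebraMap k (RatFunc k) a := sub_eq_zero.1 h0
      have h2 : σ.symm (xx f) = algebraMap k (FF p f) a := by
        rw [← hx'', h1, ← IsScalarTower.algebraMap_apply]
      have h3 : xx f = algebraMap k (FF p f) a := by
        rw [← σ.apply_symm_apply (xx f), h2, AlgEquiv.commutes]
      have h4 : algebraMap k[X] (FF p f) X = algebraMap k[X] (FF p f) (C a) := h3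
      have h5 := algMap_poly_inj f h4
      exact X_ne_C a h5
    set C1 := y.num with hC1
    set D1 := y.denom with hD1
    have hC10 : C1 ≠ 0 := RatFunc.num_ne_zero hy0
    have hD10 : D1 ≠ 0 := y.denom_ne_zero
    have h1 : y * algebraMap k[X] (RatFunc k) D1 = algebraMap k[X] (RatFunc k) C1 := by
      have := RatFunc.num_div_denom y
      rw [← hC1, ← hD1] at this
      rw [← this, div_mul_cancel₀]
      rw [Ne, map_eq_zero_iff _ inj_K]
      exact hD10
    have h2 : (algebraMap k[X] (RatFunc k) (X - C a)) * aeval x' D1 = aeval x' C1 := by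
      apply algMap_inj f
      have h3 := congrArg (fun z => σ (algebraMap (RatFunc k) (FF p f) z)) h1
      simp only [map_mul] at h3
      rw [← algMap_poly, ← algMap_poly, aut_poly f σ hx', aut_poly f σ hx'] at h3
      have h5 : σ (algebraMap (RatFunc k) (FF p f) y) = xx f - algebraMap k (FF p f) a := by
        rw [hy, map_sub, map_sub, hx'', AlgEquiv.apply_symm_apply,
          ← IsScalarTower.algebraMap_apply, AlgEquiv.commutes]
      rw [map_mul, ← h3, h5, ← algMap_poly, map_sub]
      rfl
    have h3 : (X - C a) * Q ^ C1.natDegree * hmg N Q D1 = Q ^ D1.natDegree * hmg N Q C1 := by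
      apply inj_K
      rw [map_mul, map_mul, map_mul, hmg_eq N Q D1 hQ0 hx'eq, hmg_eq N Q C1 hQ0 hx'eq, ← h2,
        map_pow, map_pow]
      ring
    have hD : ¬ (hmg N Q D1).IsRoot a := hmg_not_root N Q D1 ha' hNa hD10
    have hC : ¬ (hmg N Q C1).IsRoot a := hmg_not_root N Q C1 ha' hNa hC10
    have hDne : hmg N Q D1 ≠ 0 := by rintro h0; rw [h0] at hD; simp at hD
    have hCne : hmg N Q C1 ≠ 0 := by rintro h0; rw [h0] at hC; simp at hC
    have h4 := congrArg (rootMultiplicity a) h3
    rw [rm_mul (mul_ne_zero (X_sub_C_ne_zero a) (pow_ne_zero _ hQ0)) hDne,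
      rm_mul (X_sub_C_ne_zero a) (pow_ne_zero _ hQ0), rm_mul (pow_ne_zero _ hQ0) hCne,
      rm_pow hQ0, rm_pow hQ0, rootMultiplicity_eq_zero hD, rootMultiplicity_eq_zero hC,
      rootMultiplicity_X_sub_C_self, ← he] at h4
    have h5 : e ∣ 1 := by
      have h6 : e ∣ D1.natDegree * e + 0 := by simp
      rw [← h4] at h6
      have h7 : e ∣ C1.natDegree * e := Dvd.intro_left _ rfl
      have h8 : 1 + C1.natDegree * e + 0 = C1.natDegree * e + 1 := by ring
      rw [h8] at h6
      exact (Nat.dvd_add_right h7).1 h6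
    exact Nat.dvd_one.1 h5
  -- second relation
  set A := h.num with hA
  set B := h.denom with hB
  have hB0 : B ≠ 0 := h.denom_ne_zero
  have hBK : algebraMap k[X] (RatFunc k) B ≠ 0 := by
    rw [Ne, map_eq_zero_iff _ inj_K]; exact hB0
  have hheq : h = algebraMap k[X] (RatFunc k) A / algebraMap k[X] (RatFunc k) B :=
    (RatFunc.num_div_denom h).symm
  have hcop2 : IsCoprime A B := RatFunc.isCoprime_num_denom h
  have hp1 : 1 ≤ p := hp.out.one_lt.le
  have h3 : B ^ p * hmg N Q f = Q ^ f.natDegree *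
      ((n : k[X]) * f * B ^ p + A ^ p - A * B ^ (p - 1)) := by
    apply inj_K
    rw [map_mul, map_mul, hmg_eq N Q f hQ0 hx'eq, hrel, map_pow, map_pow, map_sub, map_add,
      map_mul, map_mul, map_mul, map_pow, map_pow, map_pow, map_natCast, hheq]
    have h4 : algebraMap k[X] (RatFunc k) B ^ p =
        algebraMap k[X] (RatFunc k) B ^ (p - 1) * algebraMap k[X] (RatFunc k) B := by
      rw [← pow_succ, Nat.sub_add_cancel hp1]
    rw [div_pow]
    have h5 : algebraMap k[X] (RatFunc k) B ^ p ≠ 0 := pow_ne_zero _ hBK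
    have h6 : algebraMap k[X] (RatFunc k) B ^ p *
        (algebraMap k[X] (RatFunc k) A ^ p / algebraMap k[X] (RatFunc k) B ^ p) =
        algebraMap k[X] (RatFunc k) A ^ p := mul_div_cancel₀ _ h5
    have h7 : algebraMap k[X] (RatFunc k) B ^ p *
        (algebraMap k[X] (RatFunc k) A / algebraMap k[X] (RatFunc k) B) =
        algebraMap k[X] (RatFunc k) A * algebraMap k[X] (RatFunc k) B ^ (p - 1) := by
      rw [h4]
      field_simp
    linear_combination (algebraMap k[X] (RatFunc k) Q ^ f.natDegree) * h6 -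
      (algebraMap k[X] (RatFunc k) Q ^ f.natDegree) * h7
  have hF : ¬ (hmg N Q f).IsRoot a := hmg_not_root N Q f ha' hNa hf0
  have hFne : hmg N Q f ≠ 0 := by rintro h0; rw [h0] at hF; simp at hF
  by_cases hBa : B.eval a = 0
  · have hAa : A.eval a ≠ 0 := by
      intro h0
      obtain ⟨u, v, huv⟩ := hcop2
      have := congrArg (eval a) huv
      simp [h0, hBa] at this
    have hroot : ¬ ((n : k[X]) * f * B ^ p + A ^ p - A * B ^ (p - 1)).IsRoot a := by
      have hp2 : p - 1 ≠ 0 := by have := hp.out.one_lt; omega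
      rw [IsRoot, eval_sub, eval_add, eval_mul, eval_mul, eval_mul, eval_pow, eval_pow, eval_pow,
        hBa, zero_pow hp.out.ne_zero, zero_pow hp2]
      simp only [mul_zero, zero_add, sub_zero]
      exact pow_ne_zero _ hAa
    have hrne : ((n : k[X]) * f * B ^ p + A ^ p - A * B ^ (p - 1)) ≠ 0 := by
      rintro h0; rw [h0] at hroot; simp at hroot
    have h4 := congrArg (rootMultiplicity a) h3
    rw [rm_mul (pow_ne_zero _ hB0) hFne, rm_mul (pow_ne_zero _ hQ0) hrne, rm_pow hB0, rm_pow hQ0,
      rootMultiplicity_eq_zero hF, rootMultiplicity_eq_zero hroot, ← he, he1] at h4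
    apply hdeg
    exact ⟨B.rootMultiplicity a, by omega⟩
  · have h4 := congrArg (eval a) h3
    rw [eval_mul, eval_mul, eval_pow, eval_pow, ha', zero_pow hm0, zero_mul] at h4
    rcases mul_eq_zero.1 h4 with h5 | h5
    · exact hBa (pow_eq_zero_iff hp.out.ne_zero |>.1 h5)
    · exact hF h5

end Pool.Agent.Helper94.AS
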